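import Pool.Agent.T6.H60.BD.Q

set_option autoImplicit false

/-!
# Barnes zeta functions: the pointwise criterion, part 3: the explicit form
-/

namespace Pool.Agent.T6.H60.BD

open Finset Filter Topology MeasureTheory
open Pool.Agent.T6.H60.BC

variable {r : ℕ} {w : Fin r → ℝ}

/-- the exponents -/
noncomputable def ex (θ : ℝ) (j : ℕ) : ℝ := min 2 (max 0 (2 * ((j : ℝ) + 1) - θ))

lemma ex_nonneg (θ : ℝ) (j : ℕ) : 0 ≤ ex θ j := le_min (by norm_num) (le_max_left _ _)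

lemma ex_le (θ : ℝ) (j : ℕ) : ex θ j ≤ 2 := min_le_left _ _

lemma ex_sum {θ : ℝ} (hθ : 0 ≤ θ) (r : ℕ) :
    ∑ j ∈ Finset.range r, ex θ j = max 0 (2 * (r : ℝ) - θ) := by
  induction r with
  | zero => simp [hθ]
  | succ n ih =>
    rw [Finset.sum_range_succ, ih, ex]
    push_cast
    rcases le_total 0 (2 * (n : ℝ) - θ) with h | h
    · have h' : 0 ≤ 2 * ((n : ℝ) + 1) - θ := by linarith
      rw [max_eq_right h, max_eq_right h', min_eq_left (by linarith)]
      ring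
    · rw [max_eq_left h]
      rcases le_total 0 (2 * ((n : ℝ) + 1) - θ) with h' | h'
      · rw [max_eq_right h', min_eq_right (by linarith), zero_add]
      · rw [max_eq_left h', min_eq_right (by norm_num), zero_add]

lemma ex_sum_fin {θ : ℝ} (hθ : 0 ≤ θ) (r : ℕ) :
    ∑ j : Fin r, (2 - ex θ j) = 2 * (r : ℝ) - max 0 (2 * (r : ℝ) - θ) := by
  rw [Finset.sum_sub_distrib, ← ex_sum hθ r, Finset.sum_range]
  simp
  ring

/-- the explicit criterion -/
def PermB (w : Fin r → ℝ) (θ β : ℝ) : Prop :=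
  ∀ ε : ℝ, 0 < ε → ∃ c : ℝ, 0 < c ∧ ∀ y : ℝ, 1 ≤ y → ∃ π : Equiv.Perm (Fin r),
    c * y ^ (-β - ε) ≤ ∏ j : Fin r, (nd (w (π j) * y)) ^ (ex θ j)

lemma pr_eq_inv (w : Fin r → ℝ) (π : Equiv.Perm (Fin r)) (δ y : ℝ) :
    pr w δ y = (∏ j, (max δ (nd (w (π j) * y))) ^ 2)⁻¹ := by
  unfold pr
  rw [← Finset.prod_inv_distrib]
  exact (Equiv.prod_comp π fun j => ((max δ (nd (w j * y))) ^ 2)⁻¹).symm

lemma pt_rhs {σ β ε y δ : ℝ} (hy : 0 < y) (hδ : 0 < δ) :
    δ ^ (-(2 * σ)) * (y / δ) ^ (β + ε) = y ^ (β + ε) * δ ^ (-(2 * σ + β) - ε) := by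
  have e1 : -(2 * σ + β) - ε = -(2 * σ) + -(β + ε) := by ring
  rw [e1, Real.rpow_add hδ, Real.div_rpow hy.le hδ.le, Real.rpow_neg hδ.le (β + ε)]
  field_simp

theorem pt_of_perm {σ β : ℝ} (hσ : 1 / 2 ≤ σ) (hβ : 1 ≤ β) (h : PermB w (2 * σ + β) β) :
    PtB w σ β := by
  intro ε hε
  obtain ⟨c, hc, h⟩ := h ε hε
  refine ⟨c⁻¹, by positivity, fun y δ hy hδ hδ1 => ?_⟩
  obtain ⟨π, hπ⟩ := h y hy
  have hy0 : 0 < y := by linarith
  obtain ⟨θ, hθ⟩ : ∃ θ, θ = 2 * σ + β := ⟨_, rfl⟩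
  rw [← hθ] at hπ
  have hθ0 : 0 ≤ θ := by linarith
  rw [mul_assoc, pt_rhs hy0 hδ, pr_eq_inv w π, ← hθ]
  have h1 : (∏ j : Fin r, (nd (w (π j) * y)) ^ (ex θ j)) * δ ^ θ ≤
      ∏ j, (max δ (nd (w (π j) * y))) ^ 2 := by
    have h2 : δ ^ θ ≤ ∏ j : Fin r, δ ^ (2 - ex θ j) := by
      rw [← Real.rpow_sum_of_pos hδ]
      apply Real.rpow_le_rpow_of_exponent_ge hδ hδ1
      rw [ex_sum_fin hθ0]
      have := le_max_right 0 (2 * (r : ℝ) - θ)
      linarith
    calc _ ≤ (∏ j : Fin r, (nd (w (π j) * y)) ^ (ex θ j)) * ∏ j : Fin r, δ ^ (2 - ex θ j) := by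
          refine mul_le_mul_of_nonneg_left h2 ?_
          exact Finset.prod_nonneg fun j _ => Real.rpow_nonneg (nd_nonneg _) _
      _ = ∏ j : Fin r, ((nd (w (π j) * y)) ^ (ex θ j) * δ ^ (2 - ex θ j)) :=
          (Finset.prod_mul_distrib).symm
      _ ≤ _ := by
          refine Finset.prod_le_prod (fun j _ => mul_nonneg (Real.rpow_nonneg (nd_nonneg _) _)
            (by positivity)) fun j _ => ?_
          set M := max δ (nd (w (π j) * y)) with hM
          have hM0 : 0 < M := lt_max_of_lt_left hδ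
          have e2 : M ^ 2 = M ^ (ex θ j) * M ^ (2 - ex θ j) := by
            rw [← Real.rpow_add hM0, ← Real.rpow_natCast]
            congr 1
            push_cast
            ring
          rw [e2]
          refine mul_le_mul ?_ ?_ (by positivity) (by positivity)
          · exact Real.rpow_le_rpow (nd_nonneg _) (le_max_right _ _) (ex_nonneg _ _)
          · exact Real.rpow_le_rpow hδ.le (le_max_left _ _) (by linarith [ex_le θ j])
  have h2 : c * y ^ (-β - ε) * δ ^ θ ≤ ∏ j, (max δ (nd (w (π j) * y))) ^ 2 :=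
    (mul_le_mul_of_nonneg_right hπ (by positivity)).trans h1
  have h3 : 0 < c * y ^ (-β - ε) * δ ^ θ := by positivity
  refine (inv_anti₀ h3 h2).trans ?_
  rw [mul_inv, mul_inv, ← Real.rpow_neg hy0.le, ← Real.rpow_neg hδ.le]
  have e3 : -(-β - ε) = β + ε := by ring
  have h4 : δ ^ (-θ) ≤ δ ^ (-θ - ε) := Real.rpow_le_rpow_of_exponent_ge hδ hδ1 (by linarith)
  rw [e3, mul_assoc]
  gcongr

/-- the critical index -/
lemma crit_index {θ : ℝ} (hθ : 0 ≤ θ) (h : θ < 2 * (r : ℝ)) :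
    ∃ m : Fin r, 0 < 2 * ((m : ℝ) + 1) - θ ∧ ex θ m = 2 * ((m : ℝ) + 1) - θ ∧
      (∀ j : Fin r, j < m → ex θ j = 0) ∧ (∀ j : Fin r, m < j → ex θ j = 2) := by
  have h1 := Nat.floor_le (show 0 ≤ θ / 2 by positivity)
  have h2 := Nat.lt_floor_add_one (θ / 2)
  set m := ⌊θ / 2⌋₊ with hm
  have hmr : m < r := by
    have : (m : ℝ) < r := by linarith
    exact_mod_cast this
  refine ⟨⟨m, hmr⟩, ?_, ?_, fun j hj => ?_, fun j hj => ?_⟩
  · simp only
    linarith
  · simp only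
    unfold ex
    rw [max_eq_right (by linarith), min_eq_right (by linarith)]
  · have h3 : (j : ℕ) + 1 ≤ m := hj
    have h4 : ((j : ℕ) : ℝ) + 1 ≤ m := by exact_mod_cast h3
    unfold ex
    rw [max_eq_left (by linarith), min_eq_right (by norm_num)]
  · have h3 : m + 1 ≤ (j : ℕ) := hj
    have h4 : (m : ℝ) + 1 ≤ ((j : ℕ) : ℝ) := by exact_mod_cast h3
    unfold ex
    rw [max_eq_right (by linarith), min_eq_left (by linarith)]

theorem perm_of_pt {σ β : ℝ} (hσ : 1 / 2 ≤ σ) (hβ : 1 ≤ β) (h : PtB w σ β) :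
    PermB w (2 * σ + β) β := by
  intro ε' hε'
  obtain ⟨θ, hθ⟩ : ∃ θ, θ = 2 * σ + β := ⟨_, rfl⟩
  rw [← hθ]
  have hθ0 : 0 ≤ θ := by linarith
  rcases le_or_gt (2 * (r : ℝ)) θ with hr | hr
  · refine ⟨1, one_pos, fun y hy => ⟨1, ?_⟩⟩
    have h1 : ∀ j : Fin r, ex θ j = 0 := by
      intro j
      have h3 : (j : ℕ) + 1 ≤ r := j.2
      have h4 : ((j : ℕ) : ℝ) + 1 ≤ r := by exact_mod_cast h3
      unfold ex
      rw [max_eq_left (by linarith), min_eq_right (by norm_num)]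
    simp only [h1, Real.rpow_zero, Finset.prod_const_one, one_mul]
    exact Real.rpow_le_one_of_one_le_of_nonpos hy (by linarith)
  obtain ⟨m, hm0, hm1, hm2, hm3⟩ := crit_index hθ0 hr
  obtain ⟨κ, hκ⟩ : ∃ κ, κ = 2 * ((m : ℝ) + 1) - θ := ⟨_, rfl⟩
  rw [← hκ] at hm0 hm1
  obtain ⟨K, hK⟩ : ∃ K, K = 2 * (β + 1) / κ := ⟨_, rfl⟩
  have hK0 : 0 < K := by rw [hK]; positivity
  obtain ⟨ε, hε⟩ : ∃ ε, ε = min (min 1 (κ / 2)) (ε' / (1 + K)) := ⟨_, rfl⟩
  have hε0 : 0 < ε := by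
    rw [hε]
    exact lt_min (lt_min one_pos (by positivity)) (by positivity)
  have hε1 : ε ≤ 1 := by rw [hε]; exact (min_le_left _ _).trans (min_le_left _ _)
  have hε2 : ε ≤ κ / 2 := by rw [hε]; exact (min_le_left _ _).trans (min_le_right _ _)
  have hε3 : ε * (1 + K) ≤ ε' := by
    have : ε ≤ ε' / (1 + K) := by rw [hε]; exact min_le_right _ _
    rwa [le_div_iff₀ (by positivity)] at this
  obtain ⟨C', hC'0, hC'⟩ := h ε hε0
  obtain ⟨C, hCC⟩ : ∃ C, C = C' + 1 := ⟨_, rfl⟩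
  have hC1 : 1 ≤ C := by linarith
  have hC0 : 0 < C := by linarith
  have hC : ∀ y δ : ℝ, 1 ≤ y → 0 < δ → δ ≤ 1 →
      pr w δ y ≤ C * (y ^ (β + ε) * δ ^ (-θ - ε)) := by
    intro y δ hy hδ hδ1
    have hy0 : 0 < y := by linarith
    refine (hC' y δ hy hδ hδ1).trans ?_
    rw [mul_assoc, pt_rhs hy0 hδ, ← hθ]
    gcongr
    linarith
  refine ⟨C⁻¹ * C ^ (-(2 * ε / κ)), by positivity, fun y hy => ?_⟩
  have hy0 : 0 < y := by linarith
  set f : Fin r → ℝ := fun j => nd (w j * y) with hf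
  have hmono := Tuple.monotone_sort f
  set π := Tuple.sort f with hπ
  have hmono' : ∀ i j : Fin r, i ≤ j → nd (w (π i) * y) ≤ nd (w (π j) * y) := fun i j hij =>
    hmono hij
  refine ⟨π, ?_⟩
  set n : ℝ := nd (w (π m) * y) with hn
  have hn0 : 0 ≤ n := nd_nonneg _
  have hn1 : n ≤ 1 := (nd_le_half _).trans (by norm_num)
  set B : ℝ := C * y ^ (β + ε) with hB
  have hB0 : 0 < B := by positivity
  have hB1 : 1 ≤ B := by
    have : 1 ≤ y ^ (β + ε) := Real.one_le_rpow hy (by linarith)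
    calc (1 : ℝ) = 1 * 1 := (mul_one 1).symm
      _ ≤ B := mul_le_mul hC1 this zero_le_one hC0.le
  have hκε : 0 < κ - ε := by linarith
  -- step A
  have hA : ∀ δ : ℝ, 0 < δ → δ ≤ 1 → n ≤ δ → δ ^ (-(κ - ε)) ≤ B := by
    intro δ hδ hδ1 hnδ
    have h1 : ∏ j, (max δ (nd (w (π j) * y))) ^ 2 ≤ δ ^ (2 * ((m : ℝ) + 1)) := by
      calc ∏ j, (max δ (nd (w (π j) * y))) ^ 2 ≤
            ∏ j : Fin r, (if j ≤ m then δ ^ 2 else 1) := by
            refine Finset.prod_le_prod (fun j _ => by positivity) fun j _ => ?_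
            split_ifs with hj
            · rw [max_eq_left ((hmono' j m hj).trans hnδ)]
            · have h2 : max δ (nd (w (π j) * y)) ≤ 1 :=
                max_le hδ1 ((nd_le_half _).trans (by norm_num))
              have h3 : 0 ≤ max δ (nd (w (π j) * y)) := le_max_of_le_left hδ.le
              exact pow_le_one₀ h3 h2
        _ = (δ ^ 2) ^ ((m : ℕ) + 1) := by
            rw [Finset.prod_ite, Finset.prod_const_one, mul_one, Finset.prod_const]
            congr 1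
            have : (Finset.univ.filter fun j : Fin r => j ≤ m) = Finset.Iic m := by
              ext j
              simp
            rw [this, Fin.card_Iic]
        _ = _ := by
            rw [← pow_mul, ← Real.rpow_natCast]
            congr 1
            push_cast
            ring
    have h2 : 0 < ∏ j, (max δ (nd (w (π j) * y))) ^ 2 :=
      Finset.prod_pos fun j _ => by
        have : 0 < max δ (nd (w (π j) * y)) := lt_max_of_lt_left hδ
        positivity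
    have h3 := (inv_anti₀ h2 h1).trans ((pr_eq_inv w π δ y).symm.le.trans (hC y δ hy hδ hδ1))
    rw [← mul_assoc, ← hB, ← Real.rpow_neg hδ.le] at h3
    have h4 : 0 < δ ^ (θ + ε) := by positivity
    have h5 := mul_le_mul_of_nonneg_right h3 h4.le
    rw [← Real.rpow_add hδ, mul_assoc, ← Real.rpow_add hδ] at h5
    have e1 : -(2 * ((m : ℝ) + 1)) + (θ + ε) = -(κ - ε) := by rw [hκ]; ring
    have e2 : -θ - ε + (θ + ε) = 0 := by ring
    rw [e1, e2, Real.rpow_zero, mul_one] at h5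
    exact h5
  set δ₀ : ℝ := B ^ (-(1 / (κ - ε))) with hδ₀
  have hδ₀0 : 0 < δ₀ := by positivity
  have hδ₀1 : δ₀ ≤ 1 := Real.rpow_le_one_of_one_le_of_nonpos hB1 (by
    have : 0 < 1 / (κ - ε) := by positivity
    linarith)
  have hnδ₀ : δ₀ ≤ n := by
    by_contra hcon
    push Not at hcon
    set δ : ℝ := max n (δ₀ / 2) with hδ
    have h1 : 0 < δ := lt_max_of_lt_right (by positivity)
    have h2 : δ < δ₀ := max_lt hcon (by linarith)
    have h3 := hA δ h1 (h2.le.trans hδ₀1) (le_max_left _ _)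
    have h4 : δ₀ ^ (-(κ - ε)) = B := by
      rw [hδ₀, ← Real.rpow_mul hB0.le]
      have : -(1 / (κ - ε)) * -(κ - ε) = 1 := by field_simp
      rw [this, Real.rpow_one]
    have h5 : δ₀ ^ (-(κ - ε)) < δ ^ (-(κ - ε)) :=
      Real.rpow_lt_rpow_of_neg h1 h2 (by linarith)
    linarith
  have hnpos : 0 < n := hδ₀0.trans_le hnδ₀
  -- step B
  have hprod : ∏ j, (max n (nd (w (π j) * y))) ^ 2 =
      (∏ j : Fin r, (nd (w (π j) * y)) ^ (ex θ j)) * n ^ θ := by
    have h2 : n ^ θ = ∏ j : Fin r, n ^ (2 - ex θ j) := by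
      rw [← Real.rpow_sum_of_pos hnpos, ex_sum_fin hθ0, max_eq_right (by linarith)]
      congr 1
      ring
    rw [h2, ← Finset.prod_mul_distrib]
    refine Finset.prod_congr rfl fun j _ => ?_
    rcases lt_trichotomy j m with hj | hj | hj
    · have h3 : nd (w (π j) * y) ≤ n := hmono' j m hj.le
      rw [hm2 j hj, max_eq_left h3, Real.rpow_zero, one_mul, sub_zero]
      exact (Real.rpow_natCast n 2).symm
    · rw [hj, hm1, ← hn, max_self, ← Real.rpow_add hnpos]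
      have : κ + (2 - κ) = ((2 : ℕ) : ℝ) := by push_cast; ring
      rw [this]
      exact (Real.rpow_natCast n 2).symm
    · have h3 : n ≤ nd (w (π j) * y) := hmono' m j hj.le
      rw [hm3 j hj, max_eq_right h3, sub_self, Real.rpow_zero, mul_one]
      exact (Real.rpow_natCast _ 2).symm
  have h1 := hC y n hy hnpos hn1
  rw [pr_eq_inv w π, hprod] at h1
  have hnθ : 0 < n ^ θ := Real.rpow_pos_of_pos hnpos θ
  have hQ00 : 0 < (∏ j : Fin r, (nd (w (π j) * y)) ^ (ex θ j)) := by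
    have h2 : 0 < ∏ j, (max n (nd (w (π j) * y))) ^ 2 :=
      Finset.prod_pos fun j _ => pow_pos (lt_max_of_lt_left hnpos) 2
    rw [hprod] at h2
    exact (mul_pos_iff_of_pos_right hnθ).1 h2
  obtain ⟨Q, hQ⟩ : ∃ Q, Q = ∏ j : Fin r, (nd (w (π j) * y)) ^ (ex θ j) := ⟨_, rfl⟩
  rw [← hQ] at h1 hQ00 ⊢
  have hQ0 : 0 < Q := hQ00
  have h2 : 1 ≤ C * y ^ (β + ε) * n ^ (-ε) * Q := by
    rw [inv_le_iff_one_le_mul₀ (mul_pos hQ0 hnθ)] at h1
    have e1 : n ^ (-θ - ε) * n ^ θ = n ^ (-ε) := by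
      rw [← Real.rpow_add hnpos]
      congr 1
      ring
    calc (1 : ℝ) ≤ _ := h1
      _ = C * y ^ (β + ε) * (n ^ (-θ - ε) * n ^ θ) * Q := by ring
      _ = _ := by rw [e1]
  have h3 : n ^ (-ε) ≤ (C * y ^ (β + 1)) ^ (2 * ε / κ) := by
    calc n ^ (-ε) ≤ δ₀ ^ (-ε) := Real.rpow_le_rpow_of_nonpos hδ₀0 hnδ₀ (by linarith)
      _ = B ^ (ε / (κ - ε)) := by
          rw [hδ₀, ← Real.rpow_mul hB0.le]
          congr 1
          ring
      _ ≤ B ^ (2 * ε / κ) := by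
          apply Real.rpow_le_rpow_of_exponent_le hB1
          rw [div_le_div_iff₀ hκε hm0]
          nlinarith
      _ ≤ _ := by
          apply Real.rpow_le_rpow hB0.le _ (by positivity)
          rw [hB]
          have : y ^ (β + ε) ≤ y ^ (β + 1) :=
            Real.rpow_le_rpow_of_exponent_le hy (by linarith)
          gcongr
  have h4 : (C * y ^ (β + 1)) ^ (2 * ε / κ) = C ^ (2 * ε / κ) * y ^ (ε * K) := by
    rw [Real.mul_rpow hC0.le (by positivity), ← Real.rpow_mul hy0.le]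
    congr 2
    rw [hK]
    ring
  have h5 : 1 ≤ C * y ^ (β + ε) * (C ^ (2 * ε / κ) * y ^ (ε * K)) * Q := by
    rw [← h4]
    refine h2.trans ?_
    gcongr
  have h6 : y ^ (β + ε) * y ^ (ε * K) ≤ y ^ (β + ε') := by
    rw [← Real.rpow_add hy0]
    apply Real.rpow_le_rpow_of_exponent_le hy
    linarith
  have h7 : 1 ≤ (C * C ^ (2 * ε / κ) * y ^ (β + ε')) * Q := by
    calc (1 : ℝ) ≤ _ := h5
      _ = (C * C ^ (2 * ε / κ)) * (y ^ (β + ε) * y ^ (ε * K)) * Q := by ring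
      _ ≤ _ := by gcongr
  have e5 : -β - ε' = -(β + ε') := by ring
  rw [e5, Real.rpow_neg hy0.le, Real.rpow_neg hC0.le, ← mul_inv, ← mul_inv]
  rw [inv_le_iff_one_le_mul₀ (by positivity)]
  calc (1 : ℝ) ≤ _ := h7
    _ = _ := by ring

/-- the equivalence -/
theorem pt_perm_iff {σ β : ℝ} (hσ : 1 / 2 ≤ σ) (hβ : 1 ≤ β) :
    PtB w σ β ↔ PermB w (2 * σ + β) β :=
  ⟨perm_of_pt hσ hβ, pt_of_perm hσ hβ⟩

end Pool.Agent.T6.H60.BD
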