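import Pool.Agent.T6.H60.BD.E

set_option autoImplicit false

/-!
# Barnes zeta functions: the Diophantine criterion for the mean square, part 6: moments as real
integrals
-/

namespace Pool.Agent.T6.H60.BD

open Finset Filter Topology MeasureTheory Complex Set Asymptotics
open Pool.Agent.H131R5.BZ Pool.Agent.Y930.Bz Pool.Agent.Y616.BM Pool.Agent.T6.H60.BC

/-- the moment -/
noncomputable def mom (Z : ℂ → ℂ) (k : ℕ) (σ T : ℝ) : ℝ :=
  ∫ t in (1 : ℝ)..T, ‖Z (σ + t * Complex.I)‖ ^ (2 * k)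

lemma ZF {r : ℕ} {a : ℝ} {w : Fin r → ℝ} {c : ℕ → ℂ} (ha : 0 < a) (hw : ∀ j, 0 < w j)
    (hc : Tay a w c) {Z : ℂ → ℂ}
    (hZ : ∀ s : ℂ, (∀ j : ℕ, 1 ≤ j → j ≤ r → s ≠ j) → DifferentiableAt ℂ Z s)
    (hs : ∀ s : ℂ, (r : ℝ) < s.re →
      Z s = ∑' m : Fin r → ℕ, ((a + ∑ i, (m i : ℝ) * w i : ℝ) : ℂ) ^ (-s)) (σ : ℝ) {t : ℝ}
    (ht : 1 ≤ t) : Z ((σ : ℂ) + t * Complex.I) = FF a w c ((σ : ℂ) + t * Complex.I) := by
  have hE := Pool.Agent.Y930.Bz.eq_FF ha hw hc (fun s hs => hZ s hs) (fun s h => hs s h)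
  have hm : ((σ : ℂ) + t * Complex.I) ∈ Pool.Agent.Y930.Bz.Om r := by
    intro k _ _ h
    have := congrArg Complex.im h
    simp at this
    linarith
  exact hE _ hm

lemma Z_contOn {r : ℕ} {Z : ℂ → ℂ}
    (hZ : ∀ s : ℂ, (∀ j : ℕ, 1 ≤ j → j ≤ r → s ≠ j) → DifferentiableAt ℂ Z s) (σ : ℝ) :
    ContinuousOn (fun t : ℝ => Z ((σ : ℂ) + t * Complex.I)) (Ici 1) := by
  intro t ht
  have ht' : (1 : ℝ) ≤ t := ht
  have h1 : DifferentiableAt ℂ Z ((σ : ℂ) + t * Complex.I) := by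
    apply hZ
    intro k _ _ h
    have := congrArg Complex.im h
    simp at this
    linarith
  exact (ContinuousAt.comp (g := Z) (f := fun t : ℝ => (σ : ℂ) + t * Complex.I)
    h1.continuousAt (by fun_prop)).continuousWithinAt

lemma mom_intOn {r : ℕ} {Z : ℂ → ℂ}
    (hZ : ∀ s : ℂ, (∀ j : ℕ, 1 ≤ j → j ≤ r → s ≠ j) → DifferentiableAt ℂ Z s) (σ : ℝ) (n : ℕ)
    (T : ℝ) : IntegrableOn (fun t : ℝ => ‖Z ((σ : ℂ) + t * Complex.I)‖ ^ n) (Icc 1 T) := by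
  refine ContinuousOn.integrableOn_Icc ?_
  exact (((Z_contOn hZ σ).norm).pow n).mono Set.Icc_subset_Ici_self

lemma mom_lint {r : ℕ} {Z : ℂ → ℂ}
    (hZ : ∀ s : ℂ, (∀ j : ℕ, 1 ≤ j → j ≤ r → s ≠ j) → DifferentiableAt ℂ Z s) (σ : ℝ) {T : ℝ}
    (hT : 1 ≤ T) : ∫⁻ t in Icc 1 T, ‖Z ((σ : ℂ) + t * Complex.I)‖ₑ ^ 2 =
      ENNReal.ofReal (mom Z 1 σ T) := by
  unfold mom
  rw [intervalIntegral.integral_of_le hT, ← integral_Icc_eq_integral_Ioc,
    ofReal_integral_eq_lintegral_ofReal (mom_intOn hZ σ _ T) (ae_of_all _ fun t => by positivity)]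
  refine lintegral_congr fun t => ?_
  rw [mul_one, ENNReal.ofReal_pow (norm_nonneg _), ofReal_norm]

lemma mom_nonneg (Z : ℂ → ℂ) (k : ℕ) (σ : ℝ) {T : ℝ} (hT : 1 ≤ T) : 0 ≤ mom Z k σ T := by
  unfold mom
  exact intervalIntegral.integral_nonneg hT fun t _ => by positivity

/-- the second moment as a real integral -/
theorem mom_bigO_iff {r : ℕ} {a : ℝ} {w : Fin r → ℝ} {c : ℕ → ℂ} (ha : 0 < a) (hw : ∀ j, 0 < w j)
    (hc : Tay a w c) {Z : ℂ → ℂ}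
    (hZ : ∀ s : ℂ, (∀ j : ℕ, 1 ≤ j → j ≤ r → s ≠ j) → DifferentiableAt ℂ Z s)
    (hs : ∀ s : ℂ, (r : ℝ) < s.re →
      Z s = ∑' m : Fin r → ℕ, ((a + ∑ i, (m i : ℝ) * w i : ℝ) : ℂ) ^ (-s)) (σ : ℝ) {β : ℝ}
    (hβ : 1 ≤ β) :
    (∀ ε : ℝ, 0 < ε → (fun T : ℝ => mom Z 1 σ T) =O[atTop] fun T : ℝ => T ^ (β + ε)) ↔
      MomB a w c σ β := by
  have hlint : ∀ T : ℝ, 1 ≤ T → ∫⁻ t in Icc 1 T, ‖FF a w c ((σ : ℂ) + t * Complex.I)‖ₑ ^ 2 =
      ENNReal.ofReal (mom Z 1 σ T) := by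
    intro T hT
    rw [← mom_lint hZ σ hT]
    refine setLIntegral_congr_fun measurableSet_Icc fun t ht => ?_
    rw [ZF ha hw hc hZ hs σ ht.1]
  constructor
  · intro h ε hε
    obtain ⟨C, hC⟩ := (h ε hε).bound
    obtain ⟨T₀, hT₀⟩ := eventually_atTop.1 hC
    set T₁ : ℝ := max T₀ 1 with hT₁
    have hT₁1 : 1 ≤ T₁ := le_max_right _ _
    have hkey : ∀ T : ℝ, 1 ≤ T → T₁ ≤ T → mom Z 1 σ T ≤ |C| * T ^ (β + ε) := by
      intro T hT hT'
      have h1 := hT₀ T ((le_max_left _ _).trans hT')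
      have hTp : 0 ≤ T ^ (β + ε) := by positivity
      rw [Real.norm_of_nonneg (mom_nonneg Z 1 σ hT), Real.norm_of_nonneg hTp] at h1
      exact h1.trans (mul_le_mul_of_nonneg_right (le_abs_self C) hTp)
    refine ⟨|C| * T₁ ^ (β + ε), by positivity, fun T hT => ?_⟩
    rcases le_total T₁ T with h1 | h1
    · rw [hlint T hT]
      apply ENNReal.ofReal_le_ofReal
      have h2 : 1 ≤ T₁ ^ (β + ε) := Real.one_le_rpow hT₁1 (by linarith)
      calc _ ≤ |C| * T ^ (β + ε) := hkey T hT h1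
        _ ≤ (|C| * T₁ ^ (β + ε)) * T ^ (β + ε) := by
          have : |C| ≤ |C| * T₁ ^ (β + ε) := le_mul_of_one_le_right (abs_nonneg _) h2
          gcongr
    · calc _ ≤ ∫⁻ t in Icc 1 T₁, ‖FF a w c ((σ : ℂ) + t * Complex.I)‖ₑ ^ 2 :=
          lintegral_mono_set (Icc_subset_Icc_right h1)
        _ = ENNReal.ofReal (mom Z 1 σ T₁) := hlint T₁ hT₁1
        _ ≤ ENNReal.ofReal (|C| * T₁ ^ (β + ε)) := ENNReal.ofReal_le_ofReal
          (hkey T₁ hT₁1 le_rfl)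
        _ ≤ _ := by
          apply ENNReal.ofReal_le_ofReal
          have h2 : 1 ≤ T ^ (β + ε) := Real.one_le_rpow hT (by linarith)
          exact le_mul_of_one_le_right (by positivity) h2
  · intro h ε hε
    obtain ⟨C, hC, hb⟩ := h ε hε
    refine IsBigO.of_bound C (eventually_atTop.2 ⟨1, fun T hT => ?_⟩)
    have h1 := hb T hT
    have hTp : 0 ≤ T ^ (β + ε) := by positivity
    rw [hlint T hT, ENNReal.ofReal_le_ofReal_iff (by positivity)] at h1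
    rw [Real.norm_of_nonneg (mom_nonneg Z 1 σ hT), Real.norm_of_nonneg hTp]
    exact h1

/-- a bound for a higher moment implies the bound for the second moment -/
theorem mom_one_of_mom {r : ℕ} {Z : ℂ → ℂ}
    (hZ : ∀ s : ℂ, (∀ j : ℕ, 1 ≤ j → j ≤ r → s ≠ j) → DifferentiableAt ℂ Z s) {σ : ℝ} {k : ℕ}
    (hk : 1 ≤ k) {β ε : ℝ} (hβ : 1 ≤ β) (hε : 0 < ε)
    (h : (fun T : ℝ => mom Z k σ T) =O[atTop] fun T : ℝ => T ^ (β + ε)) :
    (fun T : ℝ => mom Z 1 σ T) =O[atTop] fun T : ℝ => T ^ (β + ε) := by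
  obtain ⟨C, hC⟩ := h.bound
  refine IsBigO.of_bound (1 + C) ?_
  filter_upwards [hC, eventually_ge_atTop 1] with T h1 hT
  have hTp : 0 ≤ T ^ (β + ε) := by positivity
  rw [Real.norm_of_nonneg (mom_nonneg Z k σ hT), Real.norm_of_nonneg hTp] at h1
  rw [Real.norm_of_nonneg (mom_nonneg Z 1 σ hT), Real.norm_of_nonneg hTp]
  have i1 : IntervalIntegrable (fun t : ℝ => ‖Z ((σ : ℂ) + t * Complex.I)‖ ^ (2 * k)) volume 1 T := by
    rw [intervalIntegrable_iff_integrableOn_Icc_of_le hT]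
    exact mom_intOn hZ σ _ T
  have i2 : IntervalIntegrable (fun t : ℝ => ‖Z ((σ : ℂ) + t * Complex.I)‖ ^ (2 * 1)) volume 1 T := by
    rw [intervalIntegrable_iff_integrableOn_Icc_of_le hT]
    exact mom_intOn hZ σ _ T
  have h2 : mom Z 1 σ T ≤ (T - 1) + mom Z k σ T := by
    unfold mom
    calc _ ≤ ∫ t in (1 : ℝ)..T, (1 + ‖Z ((σ : ℂ) + t * Complex.I)‖ ^ (2 * k)) := by
          refine intervalIntegral.integral_mono_on hT i2 (intervalIntegrable_const.add i1)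
            fun t _ => ?_
          set x := ‖Z ((σ : ℂ) + t * Complex.I)‖ with hx
          have hx0 : 0 ≤ x := norm_nonneg _
          rcases le_total x 1 with h3 | h3
          · have : x ^ (2 * 1) ≤ 1 := pow_le_one₀ hx0 h3
            have : 0 ≤ x ^ (2 * k) := by positivity
            linarith
          · have : x ^ (2 * 1) ≤ x ^ (2 * k) := pow_le_pow_right₀ h3 (by omega)
            linarith
      _ = _ := by
          rw [intervalIntegral.integral_add intervalIntegrable_const i1]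
          simp
  have h3 : T ≤ T ^ (β + ε) := by
    calc T = T ^ (1 : ℝ) := (Real.rpow_one T).symm
      _ ≤ T ^ (β + ε) := Real.rpow_le_rpow_of_exponent_le hT (by linarith)
  linarith

end Pool.Agent.T6.H60.BD
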