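import Pool.Agent.T6.H60.BD.F

set_option autoImplicit false

/-!
# Barnes zeta functions and simultaneous approximation: part 1: counting
-/

namespace Pool.Agent.T6.H60.BD

open Finset Filter Topology MeasureTheory
open Pool.Agent.T6.H60.BC

lemma nd_add_le (x y : ℝ) : nd (x + y) ≤ nd x + |y| := by
  have h := nd_le_sub (x + y) (round x)
  have e : x + y - round x = (x - round x) + y := by ring
  rw [e] at h
  exact h.trans (abs_add_le _ _)

lemma nd_sub_le (x y : ℝ) : nd (x - y) ≤ nd x + nd y := by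
  have h := nd_le_sub (x - y) (round x - round y)
  have e : x - y - ((round x - round y : ℤ) : ℝ) = (x - round x) - (y - round y) := by
    push_cast; ring
  rw [e] at h
  exact h.trans (abs_sub _ _)

lemma nd_pos {x : ℝ} (hx : Irrational x) : 0 < nd x := by
  unfold nd
  rw [abs_pos, sub_ne_zero]
  exact hx.ne_int _

/-- packing -/
lemma pack {g : ℝ} (S : Finset ℕ) : ∀ N : ℝ, 0 ≤ N → (∀ k ∈ S, g ≤ k) →
    (∀ k ∈ S, ∀ l ∈ S, k < l → g ≤ (l : ℝ) - k) → (∀ k ∈ S, (k : ℝ) ≤ N) →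
    (S.card : ℝ) * g ≤ N := by
  induction S using Finset.induction_on_max with
  | empty => intro N hN _ _ _; simpa using hN
  | insert a S ha ih =>
    intro N hN h1 h2 h3
    have haS : a ∉ S := fun h => lt_irrefl _ (ha a h)
    have h4 := ih ((a : ℝ) - g) (by linarith [h1 a (Finset.mem_insert_self a S)])
      (fun k hk => h1 k (Finset.mem_insert_of_mem hk))
      (fun k hk l hl => h2 k (Finset.mem_insert_of_mem hk) l (Finset.mem_insert_of_mem hl))
      (fun k hk => by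
        have := h2 k (Finset.mem_insert_of_mem hk) a (Finset.mem_insert_self a S) (ha k hk)
        linarith)
    rw [Finset.card_insert_of_notMem haS]
    have h5 := h3 a (Finset.mem_insert_self a S)
    push_cast
    linarith

/-- the number of small values of a subadditive function -/
lemma count {f : ℕ → ℝ} (hf : ∀ k l : ℕ, k < l → f (l - k) ≤ f l + f k) {c s : ℝ} (hc : 0 < c)
    (hs : 0 < s) (h : ∀ n : ℕ, 1 ≤ n → c * (n : ℝ) ^ (-(1 / s)) ≤ f n) {x : ℝ} (hx : 0 < x)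
    (N : ℕ) : (((Finset.Icc 1 N).filter fun k : ℕ => f k ≤ x).card : ℝ) ≤ N * (2 * x / c) ^ s := by
  set g : ℝ := (c / (2 * x)) ^ s with hg
  have hg0 : 0 < g := by positivity
  have h1 : ∀ m : ℕ, 1 ≤ m → f m ≤ 2 * x → g ≤ m := by
    intro m hm hmx
    have hmp : (0 : ℝ) < m := by exact_mod_cast hm
    have h2 := (h m hm).trans hmx
    have h3 : c / (2 * x) ≤ (m : ℝ) ^ (1 / s) := by
      rw [Real.rpow_neg hmp.le, ← div_eq_mul_inv, div_le_iff₀ (by positivity)] at h2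
      rw [div_le_iff₀ (by positivity)]
      linarith
    calc g ≤ ((m : ℝ) ^ (1 / s)) ^ s := Real.rpow_le_rpow (by positivity) h3 hs.le
      _ = m := by rw [← Real.rpow_mul hmp.le]; field_simp; simp
  have h2 := pack (g := g) ((Finset.Icc 1 N).filter fun k : ℕ => f k ≤ x) N
    (Nat.cast_nonneg N)
    (fun k hk => by
      rw [Finset.mem_filter, Finset.mem_Icc] at hk
      exact h1 k hk.1.1 (by linarith [hk.2]))
    (fun k hk l hl hkl => by
      rw [Finset.mem_filter, Finset.mem_Icc] at hk hl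
      have h3 : ((l - k : ℕ) : ℝ) = (l : ℝ) - k := by push_cast [hkl.le]; ring
      rw [← h3]
      refine h1 (l - k) (by omega) ?_
      exact (hf k l hkl).trans (by linarith [hk.2, hl.2]))
    (fun k hk => by
      rw [Finset.mem_filter, Finset.mem_Icc] at hk
      exact_mod_cast hk.1.2)
  have h3 : (2 * x / c) ^ s = g⁻¹ := by
    rw [hg, ← Real.inv_rpow (by positivity), inv_div]
  rw [h3, ← div_eq_mul_inv, le_div_iff₀ hg0]
  exact h2

lemma geom_le {ρ : ℝ} (hρ : 1 < ρ) (J : ℕ) :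
    ∑ j ∈ Finset.range (J + 1), ρ ^ j ≤ ρ / (ρ - 1) * ρ ^ J := by
  rw [geom_sum_eq (by linarith), div_mul_eq_mul_div]
  apply div_le_div_of_nonneg_right _ (by linarith)
  rw [pow_succ]
  linarith

/-- the sum over the denominators -/
lemma sum_le {f : ℕ → ℝ} (hf1 : ∀ k, f k ≤ 1) (hf : ∀ k l : ℕ, k < l → f (l - k) ≤ f l + f k)
    {c s : ℝ} (hc : 0 < c) (hs : 0 < s) (hs1 : s < 2)
    (h : ∀ n : ℕ, 1 ≤ n → c * (n : ℝ) ^ (-(1 / s)) ≤ f n) :
    ∃ K : ℝ, 0 ≤ K ∧ ∀ (δ : ℝ) (N : ℕ), 0 < δ → δ ≤ 1 →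
      ∑ k ∈ Finset.Icc 1 N, ((max δ (f k)) ^ 2)⁻¹ ≤ K * N * δ ^ (s - 2) := by
  set ρ : ℝ := 4 * 2 ^ (-s) with hρd
  have hρ : 1 < ρ := by
    have h1 : (2 : ℝ) ^ (-2 : ℝ) < 2 ^ (-s) :=
      Real.rpow_lt_rpow_of_exponent_lt (by norm_num) (by linarith)
    have h2 : (2 : ℝ) ^ (-2 : ℝ) = 1 / 4 := by
      rw [Real.rpow_neg (by norm_num)]
      norm_num
    rw [h2] at h1
    rw [hρd]
    linarith
  have hρ0 : 0 < ρ / (ρ - 1) := div_pos (by linarith) (by linarith)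
  refine ⟨4 * (2 / c) ^ s * (ρ / (ρ - 1)), by positivity, fun δ N hδ hδ1 => ?_⟩
  have hδi : 1 ≤ 1 / δ := by rw [le_div_iff₀ hδ]; linarith
  obtain ⟨J, hJ1, hJ2⟩ := exists_nat_pow_near hδi one_lt_two
  have hpt : ∀ k : ℕ, ((max δ (f k)) ^ 2)⁻¹ ≤
      ∑ j ∈ Finset.range (J + 1), 4 * 4 ^ j * (if f k ≤ 1 / 2 ^ j then 1 else 0) := by
    intro k
    set F : ℝ := max δ (f k) with hF
    have hF0 : 0 < F := lt_max_of_lt_left hδ
    have hF1 : F ≤ 1 := max_le hδ1 (hf1 k)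
    have hFi : 1 ≤ 1 / F := by rw [le_div_iff₀ hF0]; linarith
    obtain ⟨j, hj1, hj2⟩ := exists_nat_pow_near hFi one_lt_two
    have hjJ : j < J + 1 := by
      by_contra hcon
      have h1 : (2 : ℝ) ^ (J + 1) ≤ 2 ^ j := pow_le_pow_right₀ (by norm_num) (not_lt.1 hcon)
      have h2 : 1 / F ≤ 1 / δ := one_div_le_one_div_of_le hδ (le_max_left _ _)
      linarith
    have h1 : f k ≤ 1 / 2 ^ j := by
      have h2 : F ≤ 1 / 2 ^ j := by
        rw [le_div_iff₀ hF0] at hj1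
        rw [le_div_iff₀ (by positivity)]
        linarith
      exact (le_max_right _ _).trans h2
    have h2 : (F ^ 2)⁻¹ ≤ 4 * 4 ^ j := by
      have h3 : F⁻¹ ≤ 2 ^ (j + 1) := by rw [← one_div]; exact hj2.le
      have h4 : (F ^ 2)⁻¹ = F⁻¹ ^ 2 := by rw [inv_pow]
      rw [h4]
      calc F⁻¹ ^ 2 ≤ ((2 : ℝ) ^ (j + 1)) ^ 2 := pow_le_pow_left₀ (by positivity) h3 2
        _ = _ := by
          rw [← pow_mul, mul_comm, pow_mul]
          norm_num [pow_succ]
          ring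
    calc (F ^ 2)⁻¹ ≤ 4 * 4 ^ j * (if f k ≤ 1 / 2 ^ j then 1 else 0) := by
          rw [if_pos h1, mul_one]; exact h2
      _ ≤ _ := Finset.single_le_sum (f := fun j : ℕ =>
          (4 : ℝ) * 4 ^ j * (if f k ≤ 1 / 2 ^ j then 1 else 0))
          (fun i _ => by
            have : (0 : ℝ) ≤ (if f k ≤ 1 / 2 ^ i then 1 else 0) := by split_ifs <;> norm_num
            positivity) (Finset.mem_range.2 hjJ)
  calc ∑ k ∈ Finset.Icc 1 N, ((max δ (f k)) ^ 2)⁻¹
      ≤ ∑ k ∈ Finset.Icc 1 N, ∑ j ∈ Finset.range (J + 1),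
        4 * 4 ^ j * (if f k ≤ 1 / 2 ^ j then (1 : ℝ) else 0) :=
        Finset.sum_le_sum fun k _ => hpt k
    _ = ∑ j ∈ Finset.range (J + 1), 4 * 4 ^ j *
        (((Finset.Icc 1 N).filter fun k : ℕ => f k ≤ 1 / 2 ^ j).card : ℝ) := by
        rw [Finset.sum_comm]
        refine Finset.sum_congr rfl fun j _ => ?_
        rw [← Finset.mul_sum, Finset.sum_boole]
    _ ≤ ∑ j ∈ Finset.range (J + 1), 4 * 4 ^ j * (N * (2 * (1 / 2 ^ j) / c) ^ s) := by
        refine Finset.sum_le_sum fun j _ => ?_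
        gcongr
        exact count hf hc hs h (by positivity) N
    _ = ∑ j ∈ Finset.range (J + 1), 4 * N * (2 / c) ^ s * ρ ^ j := by
        refine Finset.sum_congr rfl fun j _ => ?_
        have e1 : 2 * (1 / (2 : ℝ) ^ j) / c = 2 / c * ((2 : ℝ) ^ j)⁻¹ := by field_simp
        have e2 : (((2 : ℝ) ^ j)⁻¹) ^ s = (2 ^ (-s)) ^ j := by
          rw [Real.inv_rpow (by positivity), ← Real.rpow_neg (by positivity), ← Real.rpow_natCast,
            ← Real.rpow_natCast, ← Real.rpow_mul (by norm_num), ← Real.rpow_mul (by norm_num),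
            mul_comm]
        rw [e1, Real.mul_rpow (by positivity) (by positivity), e2, hρd, mul_pow]
        ring
    _ = 4 * N * (2 / c) ^ s * ∑ j ∈ Finset.range (J + 1), ρ ^ j := by
        rw [Finset.mul_sum]
    _ ≤ 4 * N * (2 / c) ^ s * (ρ / (ρ - 1) * ρ ^ J) := by
        gcongr
        exact geom_le hρ J
    _ ≤ 4 * N * (2 / c) ^ s * (ρ / (ρ - 1) * δ ^ (s - 2)) := by
        have e1 : ρ ^ J = ((2 : ℝ) ^ J) ^ (2 - s) := by
          have e2 : ρ = 2 ^ (2 - s) := by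
            rw [hρd, sub_eq_add_neg, Real.rpow_add (by norm_num)]
            norm_num
          rw [e2, ← Real.rpow_natCast, ← Real.rpow_natCast, ← Real.rpow_mul (by norm_num),
            ← Real.rpow_mul (by norm_num), mul_comm]
        have e3 : δ ^ (s - 2) = (1 / δ) ^ (2 - s) := by
          rw [one_div, Real.inv_rpow hδ.le, ← Real.rpow_neg hδ.le]
          congr 1
          ring
        have e4 : ((2 : ℝ) ^ J) ^ (2 - s) ≤ (1 / δ) ^ (2 - s) :=
          Real.rpow_le_rpow (by positivity) hJ1 (by linarith)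
        rw [e1, e3]
        gcongr
    _ = _ := by ring

/-- the sum over the denominators, refined for short ranges -/
lemma sum_le' {f : ℕ → ℝ} (hf1 : ∀ k, f k ≤ 1) (hf : ∀ k l : ℕ, k < l → f (l - k) ≤ f l + f k)
    {c s : ℝ} (hc : 0 < c) (hs : 0 < s) (hs1 : s < 2)
    (h : ∀ n : ℕ, 1 ≤ n → c * (n : ℝ) ^ (-(1 / s)) ≤ f n) {t : ℝ} (ht0 : 0 ≤ t) (ht1 : t ≤ 1) :
    ∃ K : ℝ, 0 ≤ K ∧ ∀ (δ : ℝ) (N : ℕ), 0 < δ → δ ≤ 1 → 1 ≤ N →
      ∑ k ∈ Finset.Icc 1 N, ((max δ (f k)) ^ 2)⁻¹ ≤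
        K * (N : ℝ) ^ (1 + t * ((2 - s) / s)) * δ ^ (-((2 - s) * (1 - t))) := by
  obtain ⟨K, hK0, hK⟩ := sum_le hf1 hf hc hs hs1 h
  set c' := min c 1 with hc'
  have hc'0 : 0 < c' := lt_min hc one_pos
  refine ⟨K * c' ^ ((s - 2) * t), by positivity, fun δ N hδ hδ1 hN => ?_⟩
  have hN1 : (1 : ℝ) ≤ N := by exact_mod_cast hN
  have hN0 : (0 : ℝ) < N := by linarith
  set m : ℝ := c' * (N : ℝ) ^ (-(1 / s)) with hm
  have hm0 : 0 < m := by positivity
  have hNs : (N : ℝ) ^ (-(1 / s)) ≤ 1 :=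
    Real.rpow_le_one_of_one_le_of_nonpos hN1 (by
      have : 0 < 1 / s := by positivity
      linarith)
  have hm1 : m ≤ 1 := by
    calc m ≤ 1 * 1 := mul_le_mul (min_le_right _ _) hNs (by positivity) (by norm_num)
      _ = 1 := by norm_num
  set δ' := max δ m with hδ'
  have hδ'0 : 0 < δ' := lt_max_of_lt_left hδ
  have hδ'1 : δ' ≤ 1 := max_le hδ1 hm1
  have h1 : ∑ k ∈ Finset.Icc 1 N, ((max δ (f k)) ^ 2)⁻¹ ≤
      ∑ k ∈ Finset.Icc 1 N, ((max δ' (f k)) ^ 2)⁻¹ := by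
    refine Finset.sum_le_sum fun k hk => ?_
    rw [Finset.mem_Icc] at hk
    have hk0 : (0 : ℝ) < k := by exact_mod_cast hk.1
    have h2 : m ≤ f k := by
      calc m ≤ c * (k : ℝ) ^ (-(1 / s)) := by
            refine mul_le_mul (min_le_left _ _) ?_ (by positivity) hc.le
            refine Real.rpow_le_rpow_of_nonpos hk0 (by exact_mod_cast hk.2) ?_
            have : 0 < 1 / s := by positivity
            linarith
        _ ≤ f k := h k hk.1
    have h3 : max δ' (f k) ≤ max δ (f k) := by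
      refine max_le (max_le (le_max_left _ _) (h2.trans (le_max_right _ _))) (le_max_right _ _)
    have h4 : 0 < max δ' (f k) := lt_max_of_lt_left hδ'0
    exact inv_anti₀ (by positivity) (pow_le_pow_left₀ h4.le h3 2)
  refine h1.trans ((hK δ' N hδ'0 hδ'1).trans ?_)
  have e1 : δ' ^ (s - 2) = δ' ^ ((s - 2) * (1 - t)) * δ' ^ ((s - 2) * t) := by
    rw [← Real.rpow_add hδ'0]
    congr 1
    ring
  have e2 : δ' ^ ((s - 2) * (1 - t)) ≤ δ ^ ((s - 2) * (1 - t)) :=
    Real.rpow_le_rpow_of_nonpos hδ (le_max_left _ _)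
      (mul_nonpos_of_nonpos_of_nonneg (by linarith) (by linarith))
  have e3 : δ' ^ ((s - 2) * t) ≤ m ^ ((s - 2) * t) :=
    Real.rpow_le_rpow_of_nonpos hm0 (le_max_right _ _)
      (mul_nonpos_of_nonpos_of_nonneg (by linarith) ht0)
  have e4 : m ^ ((s - 2) * t) = c' ^ ((s - 2) * t) * (N : ℝ) ^ (t * ((2 - s) / s)) := by
    rw [hm, Real.mul_rpow hc'0.le (by positivity), ← Real.rpow_mul hN0.le]
    congr 2
    field_simp
    ring
  have e5 : (N : ℝ) ^ (1 + t * ((2 - s) / s)) = N * (N : ℝ) ^ (t * ((2 - s) / s)) := by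
    rw [Real.rpow_add hN0, Real.rpow_one]
  have e6 : -((2 - s) * (1 - t)) = (s - 2) * (1 - t) := by ring
  rw [e1, e5, e6]
  calc K * N * (δ' ^ ((s - 2) * (1 - t)) * δ' ^ ((s - 2) * t))
      ≤ K * N * (δ ^ ((s - 2) * (1 - t)) * m ^ ((s - 2) * t)) := by gcongr
    _ = _ := by rw [e4]; ring

end Pool.Agent.T6.H60.BD
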