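import Pool.Agent.T6.H60.BC.A

set_option autoImplicit false

/-!
# Barnes zeta functions: the Diophantine criterion for the mean square, part 2: from the criterion to
the ray integral
-/

namespace Pool.Agent.T6.H60.BD

open Finset Filter Topology MeasureTheory Complex Set
open Pool.Agent.H131R5.BZ Pool.Agent.Y930.Bz Pool.Agent.Y616.BM Pool.Agent.T6.H60.BC

/-- the Diophantine criterion -/
def Crit {r : ℕ} (w : Fin r → ℝ) (σ ρ : ℝ) : Prop :=
  ∀ ε : ℝ, 0 < ε → ∀ y₀ : ℝ, 0 < y₀ → ∃ C : ℝ, 0 ≤ C ∧ ∀ Y δ : ℝ, y₀ ≤ Y → 0 < δ → δ ≤ 1 →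
    ∫⁻ y in Icc Y (2 * Y), ENNReal.ofReal (pr w δ y) ≤
      ENNReal.ofReal (C * Y ^ (1 - 2 * σ) * (Y / δ) ^ (ρ + ε))

/-- the bound for the ray integral -/
def RayB {r : ℕ} (a : ℝ) (w : Fin r → ℝ) (σ ρ : ℝ) : Prop :=
  ∀ ε : ℝ, 0 < ε → ∀ U : ℝ, ∃ C : ℝ, 0 ≤ C ∧ ∀ η : ℝ, 0 < η → η ≤ 1 →
    JJ a w σ U η ≤ ENNReal.ofReal (C * η ^ (-ρ - ε))

/-- the map to the height -/
noncomputable def hf (η u : ℝ) : ℝ := Real.cos η / (2 * Real.pi) * Real.exp (-u)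

lemma cos_pos_of {η : ℝ} (h0 : 0 ≤ η) (h1 : η ≤ 1) : 0 < Real.cos η ∧ Real.cos 1 ≤ Real.cos η := by
  have h : Real.cos 1 ≤ Real.cos η :=
    Real.cos_le_cos_of_nonneg_of_le_pi h0 (by linarith [Real.pi_gt_three]) h1
  exact ⟨lt_of_lt_of_le Real.cos_one_pos h, h⟩

lemma zr_hf {η : ℝ} (u : ℝ) : zr u η =
    ((Real.exp (-u) * Real.sin η : ℝ) : ℂ) + ((2 * Real.pi * hf η u : ℝ) : ℂ) * I := by
  rw [zr_eq]
  have hp := Real.pi_pos
  have : 2 * Real.pi * hf η u = Real.exp (-u) * Real.cos η := by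
    unfold hf
    field_simp
  rw [this]

lemma exists_low {r : ℕ} {w : Fin r → ℝ} (hw : ∀ j, 0 < w j) :
    ∃ m : ℝ, 0 < m ∧ m ≤ 1 ∧ ∀ j, m ≤ w j := by
  induction r with
  | zero => exact ⟨1, one_pos, le_rfl, fun j => j.elim0⟩
  | succ r ih =>
    obtain ⟨m, h1, h2, h3⟩ := ih (w := fun j => w j.succ) fun j => hw j.succ
    refine ⟨min m (w 0), lt_min h1 (hw 0), (min_le_left _ _).trans h2, fun j => ?_⟩
    refine Fin.cases (min_le_right _ _) (fun i => (min_le_left _ _).trans (h3 i)) j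

lemma exists_up {r : ℕ} {w : Fin r → ℝ} : ∃ M : ℝ, 1 ≤ M ∧ ∀ j, w j ≤ M := by
  induction r with
  | zero => exact ⟨1, le_rfl, fun j => j.elim0⟩
  | succ r ih =>
    obtain ⟨m, h1, h2⟩ := ih (w := fun j => w j.succ)
    refine ⟨max m (w 0), h1.trans (le_max_left _ _), fun j => ?_⟩
    refine Fin.cases (le_max_right _ _) (fun i => (h2 i).trans (le_max_left _ _)) j

/-- the elementary inequality -/
lemma elem {A ε b c : ℝ} (hA : 0 < A) (hε : 0 < ε) (hb : 0 < b) (hc : 0 < c) :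
    ∃ K : ℝ, 0 ≤ K ∧ ∀ Y η : ℝ, 0 < Y → 0 < η →
      Real.exp (-b * (Y * η)) * Y ^ A * (min 1 (c * (Y * η))) ^ (-A) ≤
        K * η ^ (-(A + ε)) * Y ^ (-ε) := by
  set K1 : ℝ := (2 * (A + ε)) ^ (A + ε) * b ^ (-(A + ε)) with hK1
  set K2 : ℝ := (2 * ε) ^ ε * b ^ (-ε) with hK2
  refine ⟨K1 + c ^ (-A) * K2, by positivity, fun Y η hY hη => ?_⟩
  set X := Y * η with hX
  have hX0 : 0 < X := mul_pos hY hη
  have h1 : (min 1 (c * X)) ^ (-A) ≤ 1 + (c * X) ^ (-A) := by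
    rcases min_cases 1 (c * X) with ⟨h, -⟩ | ⟨h, -⟩ <;> rw [h]
    · rw [Real.one_rpow]
      have : 0 ≤ (c * X) ^ (-A) := by positivity
      linarith
    · linarith
  have h2 : X ^ (A + ε) * Real.exp (-b * X) ≤ K1 := by
    refine (rpow_mul_exp_le' (by positivity) hb hX0.le).trans ?_
    have : Real.exp (-(b / 2) * X) ≤ 1 := by
      rw [Real.exp_le_one_iff]
      have : 0 < b / 2 * X := by positivity
      linarith
    calc _ ≤ K1 * 1 := by rw [hK1]; gcongr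
      _ = K1 := mul_one _
  have h3 : X ^ ε * Real.exp (-b * X) ≤ K2 := by
    refine (rpow_mul_exp_le' hε hb hX0.le).trans ?_
    have : Real.exp (-(b / 2) * X) ≤ 1 := by
      rw [Real.exp_le_one_iff]
      have : 0 < b / 2 * X := by positivity
      linarith
    calc _ ≤ K2 * 1 := by rw [hK2]; gcongr
      _ = K2 := mul_one _
  -- scale out
  have e1 : Y ^ A = X ^ A * η ^ (-A) := by
    rw [hX, Real.mul_rpow hY.le hη.le, mul_assoc, ← Real.rpow_add hη]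
    simp
  have e2 : η ^ (-(A + ε)) * Y ^ (-ε) = η ^ (-A) * X ^ (-ε) := by
    rw [hX, Real.mul_rpow hY.le hη.le, neg_add, Real.rpow_add hη]
    ring
  have f3 : X ^ A = X ^ (-ε) * X ^ (A + ε) := by
    rw [← Real.rpow_add hX0]
    congr 1
    ring
  have f4 : X ^ (-ε) * X ^ ε = 1 := by
    rw [← Real.rpow_add hX0]
    simp
  have e3 : X ^ A * Real.exp (-b * X) = X ^ (-ε) * (X ^ (A + ε) * Real.exp (-b * X)) := by
    rw [f3]
    ring
  have e4 : Real.exp (-b * X) = X ^ (-ε) * (X ^ ε * Real.exp (-b * X)) := by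
    calc Real.exp (-b * X) = (X ^ (-ε) * X ^ ε) * Real.exp (-b * X) := by rw [f4, one_mul]
      _ = _ := by ring
  have e5 : X ^ A * (c * X) ^ (-A) = c ^ (-A) := by
    rw [Real.mul_rpow hc.le hX0.le]
    calc _ = c ^ (-A) * (X ^ A * X ^ (-A)) := by ring
      _ = _ := by rw [← Real.rpow_add hX0]; simp
  calc Real.exp (-b * X) * Y ^ A * (min 1 (c * X)) ^ (-A)
      ≤ Real.exp (-b * X) * Y ^ A * (1 + (c * X) ^ (-A)) := by gcongr
    _ = η ^ (-A) * (X ^ A * Real.exp (-b * X)) +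
        η ^ (-A) * ((X ^ A * (c * X) ^ (-A)) * Real.exp (-b * X)) := by rw [e1]; ring
    _ = η ^ (-A) * (X ^ (-ε) * (X ^ (A + ε) * Real.exp (-b * X))) +
        η ^ (-A) * (c ^ (-A) * (X ^ (-ε) * (X ^ ε * Real.exp (-b * X)))) := by
        rw [e5, e3, ← e4]
    _ ≤ η ^ (-A) * (X ^ (-ε) * K1) + η ^ (-A) * (c ^ (-A) * (X ^ (-ε) * K2)) := by gcongr
    _ = (K1 + c ^ (-A) * K2) * (η ^ (-A) * X ^ (-ε)) := by ring
    _ = _ := by rw [← e2]; ring

/-- the piece of the ray integral at height `Y` -/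
lemma piece {r : ℕ} {a : ℝ} (ha : 0 < a) {w : Fin r → ℝ} (hw : ∀ j, 0 < w j) {σ ρ : ℝ} (hσ : 0 < σ)
    (hρ : 0 < ρ) (hC : Crit w σ ρ) {ε : ℝ} (hε : 0 < ε) {y₀ : ℝ} (hy₀ : 0 < y₀) :
    ∃ K : ℝ, 0 ≤ K ∧ ∀ Y η : ℝ, y₀ ≤ Y → 0 < η → η ≤ 1 →
      ∫⁻ u in {u : ℝ | Y ≤ hf η u ∧ hf η u ≤ 2 * Y}, ‖KK a w (zr u η)‖ₑ ^ 2 *
        ENNReal.ofReal (Real.exp (-(2 * σ) * u)) ≤
        ENNReal.ofReal (K * η ^ (-ρ - 2 * ε) * Y ^ (-ε)) := by
  obtain ⟨C, hC0, hC⟩ := hC ε hε y₀ hy₀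
  obtain ⟨m, hm0, hm1, hm⟩ := exists_low hw
  obtain ⟨K, hK0, hK⟩ := elem (A := ρ + ε) (ε := ε) (b := 2 * a) (c := m) (by positivity) hε
    (by positivity) hm0
  have hp := Real.pi_pos
  have hp3 := Real.pi_gt_three
  set D : ℝ := 2 * Real.pi / Real.cos 1 with hD
  have hD0 : 0 < D := div_pos (by positivity) Real.cos_one_pos
  refine ⟨16 ^ r * (2 * D) ^ (2 * σ) * C * K, by positivity, fun Y η hY hη hη1 => ?_⟩
  have hY0 : 0 < Y := hy₀.trans_le hY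
  obtain ⟨hcos, hcos1⟩ := cos_pos_of hη.le hη1
  have hsin := sin_ge hη.le hη1
  set c : ℝ := Real.cos η / (2 * Real.pi) with hc
  have hc0 : 0 < c := by positivity
  have hcD : 1 / c ≤ D := by
    rw [hc, hD, one_div_div]
    exact div_le_div_of_nonneg_left (by positivity) Real.cos_one_pos hcos1
  have hc1 : c ≤ 1 / (2 * Real.pi) := by
    rw [hc]
    exact div_le_div_of_nonneg_right (Real.cos_le_one _) (by positivity)
  set δ : ℝ := min 1 (m * (Y * η)) with hδ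
  have hδ0 : 0 < δ := lt_min one_pos (by positivity)
  have hδ1 : δ ≤ 1 := min_le_left _ _
  have hpt : ∀ u ∈ {u : ℝ | Y ≤ hf η u ∧ hf η u ≤ 2 * Y}, ‖KK a w (zr u η)‖ₑ ^ 2 *
        ENNReal.ofReal (Real.exp (-(2 * σ) * u)) ≤
      ENNReal.ofReal (Real.exp (-(2 * a) * (Y * η)) * 16 ^ r * (2 * D * Y) ^ (2 * σ)) *
        ENNReal.ofReal (pr w δ (hf η u)) := by
    intro u hu
    obtain ⟨hu1, hu2⟩ := hu
    have hfe : hf η u = c * Real.exp (-u) := rfl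
    have hE : Real.exp (-u) = hf η u / c := by rw [hfe]; field_simp
    have hEge : 2 * Real.pi * Y ≤ Real.exp (-u) := by
      rw [hE, le_div_iff₀ hc0]
      calc 2 * Real.pi * Y * c ≤ 2 * Real.pi * Y * (1 / (2 * Real.pi)) := by gcongr
        _ = Y := by field_simp
        _ ≤ _ := hu1
    have hEle : Real.exp (-u) ≤ 2 * D * Y := by
      rw [hE, div_eq_mul_one_div]
      calc hf η u * (1 / c) ≤ (2 * Y) * D := by
            refine mul_le_mul hu2 hcD (by positivity) (by positivity)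
        _ = _ := by ring
    set x := Real.exp (-u) * Real.sin η with hx
    have hxY : Y * η ≤ x := by
      calc Y * η ≤ (2 * Real.pi * Y) * (η / 2) := by nlinarith [mul_pos hY0 hη]
        _ ≤ x := by rw [hx]; gcongr
    have hx0 : 0 < x := lt_of_lt_of_le (by positivity) hxY
    have h1 := KK_upper (a := a) (w := w) hw (Y := hf η u) hx0 hδ0 (fun j => by
      calc δ ≤ m * (Y * η) := min_le_right _ _
        _ ≤ w j * x := mul_le_mul (hm j) hxY (by positivity) (hw j).le) hδ1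
    rw [← zr_hf] at h1
    have h2 : Real.exp (-(2 * σ) * u) ≤ (2 * D * Y) ^ (2 * σ) := by
      have h3 : Real.exp (-(2 * σ) * u) = Real.exp (-u) ^ (2 * σ) := by
        rw [← Real.exp_mul]
        congr 1
        ring
      rw [h3]
      exact Real.rpow_le_rpow (Real.exp_pos _).le hEle (by positivity)
    have h4 : Real.exp (-(2 * a) * x) ≤ Real.exp (-(2 * a) * (Y * η)) := by
      apply Real.exp_le_exp.2
      nlinarith
    calc _ ≤ ENNReal.ofReal (Real.exp (-(2 * a) * x) * (16 ^ r * pr w δ (hf η u))) *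
          ENNReal.ofReal ((2 * D * Y) ^ (2 * σ)) := by
          gcongr
      _ = ENNReal.ofReal (Real.exp (-(2 * a) * x) * 16 ^ r * (2 * D * Y) ^ (2 * σ) *
          pr w δ (hf η u)) := by
          rw [← ENNReal.ofReal_mul (mul_nonneg (Real.exp_pos _).le
            (mul_nonneg (by positivity) (pr_nonneg _ _ _)))]
          congr 1
          ring
      _ ≤ ENNReal.ofReal (Real.exp (-(2 * a) * (Y * η)) * 16 ^ r * (2 * D * Y) ^ (2 * σ) *
          pr w δ (hf η u)) := by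
          apply ENNReal.ofReal_le_ofReal
          have := pr_nonneg w δ (hf η u)
          gcongr
      _ = _ := by rw [ENNReal.ofReal_mul (by positivity)]
  have hSm : MeasurableSet {u : ℝ | Y ≤ hf η u ∧ hf η u ≤ 2 * Y} := by
    have h1 : Measurable (hf η) := by unfold hf; fun_prop
    exact (measurableSet_le measurable_const h1).inter (measurableSet_le h1 measurable_const)
  have hcv := cv hc0 (Y₀ := Y) (Y₁ := 2 * Y) hY0 (fun y => ENNReal.ofReal (pr w δ y))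
  calc _ ≤ ∫⁻ u in {u : ℝ | Y ≤ hf η u ∧ hf η u ≤ 2 * Y},
        ENNReal.ofReal (Real.exp (-(2 * a) * (Y * η)) * 16 ^ r * (2 * D * Y) ^ (2 * σ)) *
        ENNReal.ofReal (pr w δ (hf η u)) := setLIntegral_mono' hSm hpt
    _ = ENNReal.ofReal (Real.exp (-(2 * a) * (Y * η)) * 16 ^ r * (2 * D * Y) ^ (2 * σ)) *
        ∫⁻ u in {u : ℝ | Y ≤ hf η u ∧ hf η u ≤ 2 * Y}, ENNReal.ofReal (pr w δ (hf η u)) := by
        rw [lintegral_const_mul' _ _ ENNReal.ofReal_ne_top]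
    _ = ENNReal.ofReal (Real.exp (-(2 * a) * (Y * η)) * 16 ^ r * (2 * D * Y) ^ (2 * σ)) *
        ∫⁻ y in Icc Y (2 * Y), ENNReal.ofReal (pr w δ y) * ENNReal.ofReal (y⁻¹) := by
        rw [← hcv]
        rfl
    _ ≤ ENNReal.ofReal (Real.exp (-(2 * a) * (Y * η)) * 16 ^ r * (2 * D * Y) ^ (2 * σ)) *
        (∫⁻ y in Icc Y (2 * Y), ENNReal.ofReal (pr w δ y) * ENNReal.ofReal (Y⁻¹)) := by
        refine mul_le_mul' le_rfl (setLIntegral_mono' measurableSet_Icc fun y hy => ?_)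
        exact mul_le_mul' le_rfl (ENNReal.ofReal_le_ofReal (inv_anti₀ hY0 hy.1))
    _ = ENNReal.ofReal (Real.exp (-(2 * a) * (Y * η)) * 16 ^ r * (2 * D * Y) ^ (2 * σ)) *
        ((∫⁻ y in Icc Y (2 * Y), ENNReal.ofReal (pr w δ y)) * ENNReal.ofReal (Y⁻¹)) := by
        rw [lintegral_mul_const' _ _ ENNReal.ofReal_ne_top]
    _ ≤ ENNReal.ofReal (Real.exp (-(2 * a) * (Y * η)) * 16 ^ r * (2 * D * Y) ^ (2 * σ)) *
        (ENNReal.ofReal (C * Y ^ (1 - 2 * σ) * (Y / δ) ^ (ρ + ε)) * ENNReal.ofReal (Y⁻¹)) := by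
        gcongr
        exact hC Y δ hY hδ0 hδ1
    _ = ENNReal.ofReal (16 ^ r * (2 * D) ^ (2 * σ) * C *
        (Real.exp (-(2 * a) * (Y * η)) * Y ^ (ρ + ε) * δ ^ (-(ρ + ε)))) := by
        rw [← ENNReal.ofReal_mul (by positivity), ← ENNReal.ofReal_mul (by positivity)]
        congr 1
        rw [Real.mul_rpow (by positivity) hY0.le, Real.div_rpow hY0.le hδ0.le,
          Real.rpow_neg hδ0.le (ρ + ε), sub_eq_add_neg, Real.rpow_add hY0 1, Real.rpow_one,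
          Real.rpow_neg hY0.le (2 * σ)]
        field_simp
    _ ≤ ENNReal.ofReal (16 ^ r * (2 * D) ^ (2 * σ) * C *
        (K * η ^ (-(ρ + ε + ε)) * Y ^ (-ε))) := by
        apply ENNReal.ofReal_le_ofReal
        have := hK Y η hY0 hη
        gcongr
    _ = _ := by
        congr 1
        have : -(ρ + ε + ε) = -ρ - 2 * ε := by ring
        rw [this]
        ring

/-- the criterion implies the bound for the ray integral -/
theorem ray_of_crit {r : ℕ} {a : ℝ} (ha : 0 < a) {w : Fin r → ℝ} (hw : ∀ j, 0 < w j) {σ ρ : ℝ}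
    (hσ : 0 < σ) (hρ : 0 < ρ) (hC : Crit w σ ρ) : RayB a w σ ρ := by
  intro ε hε U
  set y₀ : ℝ := Real.cos 1 / (2 * Real.pi) * Real.exp (-U) with hy₀
  have hy0 : 0 < y₀ := by
    have := Real.cos_one_pos
    have := Real.pi_pos
    positivity
  obtain ⟨K, hK0, hK⟩ := piece ha hw hσ hρ hC (ε := ε / 2) (by positivity) hy0
  have hq : (2 : ℝ) ^ (-(ε / 2)) < 1 := Real.rpow_lt_one_of_one_lt_of_neg (by norm_num) (by linarith)
  have hq0 : 0 < (2 : ℝ) ^ (-(ε / 2)) := by positivity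
  set S : ℝ := ∑' n : ℕ, ((2 : ℝ) ^ (-(ε / 2))) ^ n with hS
  have hsum : Summable fun n : ℕ => ((2 : ℝ) ^ (-(ε / 2))) ^ n :=
    summable_geometric_of_lt_one hq0.le hq
  refine ⟨K * y₀ ^ (-(ε / 2)) * S, by
    have : 0 ≤ S := tsum_nonneg fun n => by positivity
    positivity, fun η hη hη1 => ?_⟩
  obtain ⟨hcos, hcos1⟩ := cos_pos_of hη.le hη1
  have hp := Real.pi_pos
  have hcover : Iic U ⊆ ⋃ n : ℕ, {u : ℝ | y₀ * 2 ^ n ≤ hf η u ∧ hf η u ≤ 2 * (y₀ * 2 ^ n)} := by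
    intro u hu
    have hu' : u ≤ U := hu
    have h1 : y₀ ≤ hf η u := by
      unfold hf
      rw [hy₀]
      gcongr
    have h2 : 1 ≤ hf η u / y₀ := by rw [le_div_iff₀ hy0]; linarith
    obtain ⟨n, hn1, hn2⟩ := exists_nat_pow_near h2 one_lt_two
    rw [Set.mem_iUnion]
    refine ⟨n, ?_, ?_⟩
    · rw [le_div_iff₀ hy0] at hn1
      linarith
    · rw [div_lt_iff₀ hy0, pow_succ] at hn2
      linarith
  have hJ : JJ a w σ U η = ∫⁻ u in Iic U, ‖KK a w (zr u η)‖ₑ ^ 2 *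
      ENNReal.ofReal (Real.exp (-(2 * σ) * u)) := rfl
  rw [hJ]
  calc _ ≤ ∫⁻ u in ⋃ n : ℕ, {u : ℝ | y₀ * 2 ^ n ≤ hf η u ∧ hf η u ≤ 2 * (y₀ * 2 ^ n)},
        ‖KK a w (zr u η)‖ₑ ^ 2 * ENNReal.ofReal (Real.exp (-(2 * σ) * u)) :=
        lintegral_mono_set hcover
    _ ≤ ∑' n : ℕ, ∫⁻ u in {u : ℝ | y₀ * 2 ^ n ≤ hf η u ∧ hf η u ≤ 2 * (y₀ * 2 ^ n)},
        ‖KK a w (zr u η)‖ₑ ^ 2 * ENNReal.ofReal (Real.exp (-(2 * σ) * u)) :=
        lintegral_iUnion_le _ _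
    _ ≤ ∑' n : ℕ, ENNReal.ofReal (K * η ^ (-ρ - ε) * (y₀ ^ (-(ε / 2)) *
        ((2 : ℝ) ^ (-(ε / 2))) ^ n)) := by
        refine ENNReal.tsum_le_tsum fun n => ?_
        have h1 : y₀ ≤ y₀ * 2 ^ n := le_mul_of_one_le_right hy0.le (one_le_pow₀ (by norm_num))
        refine (hK (y₀ * 2 ^ n) η h1 hη hη1).trans (le_of_eq ?_)
        congr 1
        have h2 : -ρ - 2 * (ε / 2) = -ρ - ε := by ring
        have h3 : (y₀ * 2 ^ n) ^ (-(ε / 2)) = y₀ ^ (-(ε / 2)) * ((2 : ℝ) ^ (-(ε / 2))) ^ n := by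
          rw [Real.mul_rpow hy0.le (by positivity), ← Real.rpow_natCast, ← Real.rpow_natCast,
            ← Real.rpow_mul (by norm_num), ← Real.rpow_mul (by norm_num), mul_comm (n : ℝ)]
        rw [h2, h3]
    _ = ENNReal.ofReal (∑' n : ℕ, K * η ^ (-ρ - ε) * (y₀ ^ (-(ε / 2)) *
        ((2 : ℝ) ^ (-(ε / 2))) ^ n)) := by
        rw [ENNReal.ofReal_tsum_of_nonneg]
        · intro n; positivity
        · exact (hsum.mul_left _).mul_left _
    _ = _ := by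
        congr 1
        rw [tsum_mul_left, tsum_mul_left]
        ring

end Pool.Agent.T6.H60.BD
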