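import Pool.Agent.T6.H60.BD.B

set_option autoImplicit false

/-!
# Barnes zeta functions: the Diophantine criterion for the mean square, part 3: from the ray integral
to the criterion
-/

namespace Pool.Agent.T6.H60.BD

open Finset Filter Topology MeasureTheory Complex Set
open Pool.Agent.H131R5.BZ Pool.Agent.Y930.Bz Pool.Agent.Y616.BM Pool.Agent.T6.H60.BC

/-- cancellation of a positive factor -/
lemma le_of_mul_ofReal {k B : ℝ} (hk : 0 < k) {X : ENNReal}
    (h : ENNReal.ofReal k * X ≤ ENNReal.ofReal B) : X ≤ ENNReal.ofReal (k⁻¹ * B) := by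
  have h1 : ENNReal.ofReal k⁻¹ * (ENNReal.ofReal k * X) = X := by
    rw [← mul_assoc, ← ENNReal.ofReal_mul (by positivity), inv_mul_cancel₀ hk.ne',
      ENNReal.ofReal_one, one_mul]
  calc X = ENNReal.ofReal k⁻¹ * (ENNReal.ofReal k * X) := h1.symm
    _ ≤ ENNReal.ofReal k⁻¹ * ENNReal.ofReal B := by gcongr
    _ = _ := by rw [← ENNReal.ofReal_mul (by positivity)]

/-- the bound for the ray integral implies the criterion -/
theorem crit_of_ray {r : ℕ} {a : ℝ} (ha : 0 < a) {w : Fin r → ℝ} (hw : ∀ j, 0 < w j) {σ ρ : ℝ}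
    (hσ : 0 < σ) (hρ : 0 < ρ) (hR : RayB a w σ ρ) : Crit w σ ρ := by
  intro ε hε y₀ hy₀
  have hp := Real.pi_pos
  have hp3 := Real.pi_gt_three
  set U : ℝ := -Real.log (2 * Real.pi * y₀) with hU
  obtain ⟨C₀, hC₀, hJ⟩ := hR ε hε U
  obtain ⟨M, hM1, hM⟩ := exists_up (w := w)
  set D : ℝ := 2 * Real.pi / Real.cos 1 with hD
  have hD0 : 0 < D := div_pos (by positivity) Real.cos_one_pos
  have hD1 : 1 ≤ D := by
    rw [hD, le_div_iff₀ Real.cos_one_pos]
    have := Real.cos_le_one 1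
    linarith
  set C₁ : ℝ := 2 * D * M with hC₁
  have hC₁1 : 1 ≤ C₁ := by rw [hC₁]; nlinarith
  set κ : ℝ := Real.exp (-(2 * a) * (2 * D)) * ((49 * C₁ ^ 2)⁻¹) ^ r with hκ
  have hκ0 : 0 < κ := by positivity
  refine ⟨2 / κ * C₀ * (1 + 1 / y₀) ^ (ρ + ε), by positivity, fun Y δ hY hδ hδ1 => ?_⟩
  have hY0 : 0 < Y := hy₀.trans_le hY
  set η : ℝ := δ / (1 + Y) with hη
  have hη0 : 0 < η := by positivity
  have hη1 : η ≤ 1 := by
    rw [hη, div_le_one (by positivity)]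
    linarith
  have hYη : Y * η ≤ δ := by
    rw [hη, ← mul_div_assoc, div_le_iff₀ (by positivity)]
    nlinarith
  obtain ⟨hcos, hcos1⟩ := cos_pos_of hη0.le hη1
  have hsin := sin_ge hη0.le hη1
  have hsin' : Real.sin η ≤ η := Real.sin_le hη0.le
  set c : ℝ := Real.cos η / (2 * Real.pi) with hc
  have hc0 : 0 < c := by positivity
  have hcD : 1 / c ≤ D := by
    rw [hc, hD, one_div_div]
    exact div_le_div_of_nonneg_left (by positivity) Real.cos_one_pos hcos1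
  have hc1 : c ≤ 1 / (2 * Real.pi) := by
    rw [hc]
    exact div_le_div_of_nonneg_right (Real.cos_le_one _) (by positivity)
  have hpt : ∀ u ∈ {u : ℝ | Y ≤ hf η u ∧ hf η u ≤ 2 * Y},
      ENNReal.ofReal (κ * Y ^ (2 * σ)) * ENNReal.ofReal (pr w δ (hf η u)) ≤
      ‖KK a w (zr u η)‖ₑ ^ 2 * ENNReal.ofReal (Real.exp (-(2 * σ) * u)) := by
    intro u hu
    obtain ⟨hu1, hu2⟩ := hu
    have hfe : hf η u = c * Real.exp (-u) := rfl
    have hE : Real.exp (-u) = hf η u / c := by rw [hfe]; field_simp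
    have hEge : 2 * Real.pi * Y ≤ Real.exp (-u) := by
      rw [hE, le_div_iff₀ hc0]
      calc 2 * Real.pi * Y * c ≤ 2 * Real.pi * Y * (1 / (2 * Real.pi)) := by gcongr
        _ = Y := by field_simp
        _ ≤ _ := hu1
    have hEle : Real.exp (-u) ≤ 2 * D * Y := by
      rw [hE, div_eq_mul_one_div]
      calc hf η u * (1 / c) ≤ (2 * Y) * D := by
            refine mul_le_mul hu2 hcD (by positivity) (by positivity)
        _ = _ := by ring
    have hEp := Real.exp_pos (-u)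
    set x := Real.exp (-u) * Real.sin η with hx
    have hx0 : 0 < x := by
      have : 0 < Real.sin η := by linarith
      positivity
    have hxle : x ≤ 2 * D * δ := by
      calc x ≤ (2 * D * Y) * η := by rw [hx]; exact mul_le_mul hEle hsin' (by linarith) (by positivity)
        _ = 2 * D * (Y * η) := by ring
        _ ≤ _ := by gcongr
    have h1 := KK_lower' (a := a) (w := w) hw (Y := hf η u) hx0 hδ hC₁1 (fun j => by
      calc w j * x ≤ M * (2 * D * δ) := mul_le_mul (hM j) hxle hx0.le (by linarith)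
        _ = C₁ * δ := by rw [hC₁]; ring)
    rw [← zr_hf] at h1
    have h2 : Y ^ (2 * σ) ≤ Real.exp (-(2 * σ) * u) := by
      have h3 : Real.exp (-(2 * σ) * u) = Real.exp (-u) ^ (2 * σ) := by
        rw [← Real.exp_mul]
        congr 1
        ring
      rw [h3]
      refine Real.rpow_le_rpow hY0.le ?_ (by positivity)
      nlinarith
    have h4 : Real.exp (-(2 * a) * (2 * D)) ≤ Real.exp (-(2 * a) * x) := by
      apply Real.exp_le_exp.2
      have : x ≤ 2 * D := hxle.trans (by nlinarith)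
      nlinarith
    calc ENNReal.ofReal (κ * Y ^ (2 * σ)) * ENNReal.ofReal (pr w δ (hf η u))
        = ENNReal.ofReal (Real.exp (-(2 * a) * (2 * D)) *
            (((49 * C₁ ^ 2)⁻¹) ^ r * pr w δ (hf η u))) * ENNReal.ofReal (Y ^ (2 * σ)) := by
          rw [← ENNReal.ofReal_mul (by positivity), ← ENNReal.ofReal_mul (mul_nonneg
            (Real.exp_pos _).le (mul_nonneg (by positivity) (pr_nonneg _ _ _)))]
          congr 1
          rw [hκ]
          ring
      _ ≤ ENNReal.ofReal (Real.exp (-(2 * a) * x) *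
            (((49 * C₁ ^ 2)⁻¹) ^ r * pr w δ (hf η u))) *
            ENNReal.ofReal (Real.exp (-(2 * σ) * u)) := by
          have := pr_nonneg w δ (hf η u)
          gcongr
      _ ≤ _ := by gcongr
  have hSm : MeasurableSet {u : ℝ | Y ≤ hf η u ∧ hf η u ≤ 2 * Y} := by
    have h1 : Measurable (hf η) := by unfold hf; fun_prop
    exact (measurableSet_le measurable_const h1).inter (measurableSet_le h1 measurable_const)
  have hSU : {u : ℝ | Y ≤ hf η u ∧ hf η u ≤ 2 * Y} ⊆ Iic U := by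
    rintro u ⟨hu1, -⟩
    have hfe : hf η u = c * Real.exp (-u) := rfl
    have h1 : 2 * Real.pi * y₀ ≤ Real.exp (-u) := by
      have h2 : y₀ ≤ c * Real.exp (-u) := by rw [← hfe]; linarith
      have h3 : c * Real.exp (-u) ≤ 1 / (2 * Real.pi) * Real.exp (-u) := by
        have := Real.exp_pos (-u)
        gcongr
      have h4 := h2.trans h3
      rw [one_div, inv_mul_eq_div, le_div_iff₀ (by positivity)] at h4
      linarith
    have h5 := Real.log_le_log (by positivity) h1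
    rw [Real.log_exp] at h5
    change u ≤ U
    rw [hU]
    linarith
  have hcv := cv hc0 (Y₀ := Y) (Y₁ := 2 * Y) hY0 (fun y => ENNReal.ofReal (pr w δ y))
  have hJJ : JJ a w σ U η = ∫⁻ u in Iic U, ‖KK a w (zr u η)‖ₑ ^ 2 *
      ENNReal.ofReal (Real.exp (-(2 * σ) * u)) := rfl
  have key : ENNReal.ofReal (κ * Y ^ (2 * σ) * (2 * Y)⁻¹) *
      ∫⁻ y in Icc Y (2 * Y), ENNReal.ofReal (pr w δ y) ≤
      ENNReal.ofReal (C₀ * η ^ (-ρ - ε)) := by
    calc ENNReal.ofReal (κ * Y ^ (2 * σ) * (2 * Y)⁻¹) *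
        ∫⁻ y in Icc Y (2 * Y), ENNReal.ofReal (pr w δ y)
        = ENNReal.ofReal (κ * Y ^ (2 * σ)) *
          ((∫⁻ y in Icc Y (2 * Y), ENNReal.ofReal (pr w δ y)) * ENNReal.ofReal ((2 * Y)⁻¹)) := by
          rw [ENNReal.ofReal_mul (by positivity)]
          ring
      _ = ENNReal.ofReal (κ * Y ^ (2 * σ)) *
          (∫⁻ y in Icc Y (2 * Y), ENNReal.ofReal (pr w δ y) * ENNReal.ofReal ((2 * Y)⁻¹)) := by
          rw [lintegral_mul_const' _ _ ENNReal.ofReal_ne_top]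
      _ ≤ ENNReal.ofReal (κ * Y ^ (2 * σ)) *
          ∫⁻ y in Icc Y (2 * Y), ENNReal.ofReal (pr w δ y) * ENNReal.ofReal (y⁻¹) := by
          refine mul_le_mul' le_rfl (setLIntegral_mono' measurableSet_Icc fun y hy => ?_)
          have hy0 : 0 < y := hY0.trans_le hy.1
          exact mul_le_mul' le_rfl (ENNReal.ofReal_le_ofReal (inv_anti₀ hy0 hy.2))
      _ = ENNReal.ofReal (κ * Y ^ (2 * σ)) *
          ∫⁻ u in {u : ℝ | Y ≤ hf η u ∧ hf η u ≤ 2 * Y}, ENNReal.ofReal (pr w δ (hf η u)) := by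
          rw [← hcv]
          rfl
      _ = ∫⁻ u in {u : ℝ | Y ≤ hf η u ∧ hf η u ≤ 2 * Y},
          ENNReal.ofReal (κ * Y ^ (2 * σ)) * ENNReal.ofReal (pr w δ (hf η u)) := by
          rw [lintegral_const_mul' _ _ ENNReal.ofReal_ne_top]
      _ ≤ ∫⁻ u in {u : ℝ | Y ≤ hf η u ∧ hf η u ≤ 2 * Y}, ‖KK a w (zr u η)‖ₑ ^ 2 *
          ENNReal.ofReal (Real.exp (-(2 * σ) * u)) := setLIntegral_mono' hSm hpt
      _ ≤ ∫⁻ u in Iic U, ‖KK a w (zr u η)‖ₑ ^ 2 *
          ENNReal.ofReal (Real.exp (-(2 * σ) * u)) := lintegral_mono_set hSU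
      _ ≤ _ := by rw [← hJJ]; exact hJ η hη0 hη1
  refine (le_of_mul_ofReal (by positivity) key).trans (ENNReal.ofReal_le_ofReal ?_)
  have e1 : η ^ (-ρ - ε) = (1 + Y) ^ (ρ + ε) * δ ^ (-(ρ + ε)) := by
    rw [hη, Real.div_rpow hδ.le (by positivity), div_eq_mul_inv,
      ← Real.rpow_neg (by positivity : (0:ℝ) ≤ 1 + Y)]
    have h1 : -(-ρ - ε) = ρ + ε := by ring
    have h2 : -ρ - ε = -(ρ + ε) := by ring
    rw [h1, h2, mul_comm]
  have e2 : (1 + Y) ^ (ρ + ε) ≤ (1 + 1 / y₀) ^ (ρ + ε) * Y ^ (ρ + ε) := by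
    rw [← Real.mul_rpow (by positivity) hY0.le]
    refine Real.rpow_le_rpow (by positivity) ?_ (by positivity)
    have : 1 ≤ 1 / y₀ * Y := by
      rw [one_div, inv_mul_eq_div, le_div_iff₀ hy₀]
      linarith
    linarith
  have e3 : (Y / δ) ^ (ρ + ε) = Y ^ (ρ + ε) * δ ^ (-(ρ + ε)) := by
    rw [Real.div_rpow hY0.le hδ.le, Real.rpow_neg hδ.le, div_eq_mul_inv]
  have e4 : Y ^ (1 - 2 * σ) = Y * (Y ^ (2 * σ))⁻¹ := by
    rw [Real.rpow_sub hY0, Real.rpow_one, div_eq_mul_inv]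
  have hYs : 0 < Y ^ (2 * σ) := by positivity
  rw [e1, e3, e4]
  calc (κ * Y ^ (2 * σ) * (2 * Y)⁻¹)⁻¹ * (C₀ * ((1 + Y) ^ (ρ + ε) * δ ^ (-(ρ + ε))))
      ≤ (κ * Y ^ (2 * σ) * (2 * Y)⁻¹)⁻¹ * (C₀ * (((1 + 1 / y₀) ^ (ρ + ε) *
        Y ^ (ρ + ε)) * δ ^ (-(ρ + ε)))) := by gcongr
    _ = _ := by
      field_simp

end Pool.Agent.T6.H60.BD
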