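import Pool.Agent.T6.H60.BD.C

set_option autoImplicit false

/-!
# Barnes zeta functions: the Diophantine criterion for the mean square, part 4: the ray integral and
the second moment
-/

namespace Pool.Agent.T6.H60.BD

open Finset Filter Topology MeasureTheory Complex Set FourierTransform
open Pool.Agent.H131R5.BZ Pool.Agent.Y930.Bz Pool.Agent.Y616.BM Pool.Agent.T6.H60.BC

/-- the second moment bound of order `T ^ (β + ε)` -/
def MomB {r : ℕ} (a : ℝ) (w : Fin r → ℝ) (c : ℕ → ℂ) (σ β : ℝ) : Prop :=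
  ∀ ε : ℝ, 0 < ε → ∃ C : ℝ, 0 ≤ C ∧ ∀ T : ℝ, 1 ≤ T →
    ∫⁻ t in Icc 1 T, ‖FF a w c ((σ : ℂ) + t * I)‖ₑ ^ 2 ≤ ENNReal.ofReal (C * T ^ (β + ε))

variable {r : ℕ} {a : ℝ} {w : Fin r → ℝ} {c : ℕ → ℂ} {b : ℕ → ℂ}

/-- the ray integral of the kernel by the regularised kernel -/
lemma JJ_le (a : ℝ) (w : Fin r → ℝ) (b : ℕ → ℂ) {σ : ℝ} (hσ : 0 < σ) (U : ℝ) :
    ∃ C : ℝ, 0 ≤ C ∧ ∀ η : ℝ, 0 < η → η ≤ 1 → JJ a w σ U η ≤
      ENNReal.ofReal (C * η ^ (-(2 * σ))) + 2 * ∫⁻ u, ‖kth a w b σ (Real.pi / 2 - η) u‖ₑ ^ 2 := by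
  obtain ⟨C₁, hC₁, hP⟩ := Pol_le r b (Real.exp_pos (-U))
  obtain ⟨G, hG0, hG⟩ := gf_lint_scale (σ := 2 * σ) (c := 1) (by positivity) one_pos
  refine ⟨2 * C₁ ^ 2 * G, by positivity, fun η hη hη1 => ?_⟩
  set θ : ℝ := Real.pi / 2 - η with hθ
  have hpt : ∀ u ∈ Iic U, ‖KK a w (zr u η)‖ₑ ^ 2 * ENNReal.ofReal (Real.exp (-(2 * σ) * u)) ≤
      ENNReal.ofReal (2 * C₁ ^ 2 * gf (2 * σ) (1 * η) u) + 2 * ‖kth a w b σ θ u‖ₑ ^ 2 := by
    intro u hu
    have hu' : u ≤ U := hu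
    set z : ℂ := zr u η with hz
    have hz' : z = cexp (-(u : ℂ) + (θ : ℂ) * I) := rfl
    have hzn : ‖z‖ = Real.exp (-u) := by rw [hz']; exact exp_norm u θ
    have hzr : z.re = Real.exp (-u) * Real.sin η := by
      rw [hz', Pool.Agent.Y616.BM.exp_re, hθ, Real.cos_pi_div_two_sub]
    have hk : ‖kth a w b σ θ u‖ₑ ^ 2 = ENNReal.ofReal (Real.exp (-(2 * σ) * u)) *
        ‖Kt a w b z‖ₑ ^ 2 := by
      unfold kth
      rw [enorm_smul, mul_pow]
      congr 1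
      rw [Real.enorm_eq_ofReal (Real.exp_pos _).le, ← ENNReal.ofReal_pow (Real.exp_pos _).le,
        ← Real.exp_nat_mul]
      congr 2
      push_cast; ring
    rw [hk]
    have he : 0 < Real.exp (-(2 * σ) * u) := Real.exp_pos _
    have h1 : Real.exp (-U) ≤ ‖z‖ := by
      rw [hzn]
      exact Real.exp_le_exp.2 (by linarith)
    have h2 := hP z h1
    have h3 : ‖KK a w z‖ₑ ^ 2 ≤ 2 * ‖Kt a w b z‖ₑ ^ 2 + 2 * ‖Pol r b z‖ₑ ^ 2 := by
      have := enorm_add_sq (Kt a w b z) (Pol r b z)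
      rwa [show Kt a w b z + Pol r b z = KK a w z by unfold Kt; ring] at this
    have h4 : ENNReal.ofReal (Real.exp (-(2 * σ) * u)) * (2 * ‖Pol r b z‖ₑ ^ 2) ≤
        ENNReal.ofReal (2 * C₁ ^ 2 * gf (2 * σ) (1 * η) u) := by
      have h5 : (2 : ENNReal) * ‖Pol r b z‖ₑ ^ 2 = ENNReal.ofReal (2 * ‖Pol r b z‖ ^ 2) := by
        rw [ENNReal.ofReal_mul (by norm_num), ENNReal.ofReal_pow (norm_nonneg _), ofReal_norm]
        simp
      rw [h5, ← ENNReal.ofReal_mul he.le]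
      apply ENNReal.ofReal_le_ofReal
      have h6 : ‖Pol r b z‖ ^ 2 ≤ C₁ ^ 2 * Real.exp (-(1 * η) * Real.exp (-u)) := by
        calc ‖Pol r b z‖ ^ 2 ≤ (C₁ * Real.exp (-z.re)) ^ 2 :=
              pow_le_pow_left₀ (norm_nonneg _) h2 2
          _ = C₁ ^ 2 * Real.exp (-(2 * z.re)) := by
              rw [mul_pow, ← Real.exp_nat_mul]; congr 2; push_cast; ring
          _ ≤ _ := by
              refine mul_le_mul_of_nonneg_left ?_ (by positivity)
              apply Real.exp_le_exp.2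
              rw [hzr]
              have h7 := sin_ge hη.le hη1
              have h8 := Real.exp_pos (-u)
              nlinarith
      unfold gf
      calc Real.exp (-(2 * σ) * u) * (2 * ‖Pol r b z‖ ^ 2)
          ≤ Real.exp (-(2 * σ) * u) * (2 * (C₁ ^ 2 * Real.exp (-(1 * η) * Real.exp (-u)))) := by
            gcongr
        _ = _ := by ring
    calc _ ≤ (2 * ‖Kt a w b z‖ₑ ^ 2 + 2 * ‖Pol r b z‖ₑ ^ 2) *
          ENNReal.ofReal (Real.exp (-(2 * σ) * u)) := by gcongr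
      _ = ENNReal.ofReal (Real.exp (-(2 * σ) * u)) * (2 * ‖Pol r b z‖ₑ ^ 2) +
          2 * (ENNReal.ofReal (Real.exp (-(2 * σ) * u)) * ‖Kt a w b z‖ₑ ^ 2) := by ring
      _ ≤ _ := by gcongr
  have hJ : JJ a w σ U η = ∫⁻ u in Iic U, ‖KK a w (zr u η)‖ₑ ^ 2 *
      ENNReal.ofReal (Real.exp (-(2 * σ) * u)) := rfl
  rw [hJ]
  calc _ ≤ ∫⁻ u in Iic U, (ENNReal.ofReal (2 * C₁ ^ 2 * gf (2 * σ) (1 * η) u) +
        2 * ‖kth a w b σ θ u‖ₑ ^ 2) := setLIntegral_mono' measurableSet_Iic hpt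
    _ ≤ ∫⁻ u, (ENNReal.ofReal (2 * C₁ ^ 2 * gf (2 * σ) (1 * η) u) +
        2 * ‖kth a w b σ θ u‖ₑ ^ 2) := setLIntegral_le_lintegral _ _
    _ = _ := by
        rw [lintegral_add_left (by
          exact ((gf_cont (2 * σ) (1 * η)).measurable.const_mul _).ennreal_ofReal),
          lintegral_const_mul' _ _ (by simp)]
        congr 1
        have h1 : ∀ u, ENNReal.ofReal (2 * C₁ ^ 2 * gf (2 * σ) (1 * η) u) =
            ENNReal.ofReal (2 * C₁ ^ 2) * ENNReal.ofReal (gf (2 * σ) (1 * η) u) := fun u =>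
          ENNReal.ofReal_mul (by positivity)
        simp only [h1]
        rw [lintegral_const_mul _ (gf_cont _ _).measurable.ennreal_ofReal, hG η hη,
          ← ENNReal.ofReal_mul (by positivity)]
        congr 1
        ring

/-- the Mellin transform on a vertical line -/
noncomputable def Mel (a : ℝ) (w : Fin r → ℝ) (b : ℕ → ℂ) (σ t : ℝ) : ℂ :=
  mellin (fun x : ℝ => Kt a w b x) ((σ : ℂ) + t * I)

lemma four_Mel (ha : 0 < a) (hw : ∀ j, 0 < w j) {ρ C₀ : ℝ} (hρ : 0 < ρ)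
    (hρ1 : ρ ≤ 1) (h0 : ∀ z : ℂ, z ≠ 0 → ‖z‖ ≤ ρ → ‖Kt a w b z‖ ≤ C₀) {θ : ℝ} (hθ : 0 ≤ θ)
    (hθ1 : θ < Real.pi / 2) {σ : ℝ} (hσ : 0 < σ) (t : ℝ) :
    ‖𝓕 (kth a w b σ θ) ((2 * Real.pi)⁻¹ * t)‖ = Real.exp (θ * t) * ‖Mel a w b σ t‖ := by
  have h2 := mellin_rot ha hw hρ hρ1 h0 hθ hθ1 (s := (σ : ℂ) + t * I) (by simpa using hσ)
  have h3 : ((σ : ℂ) + t * I).re = σ := by simp
  have h4 : ((σ : ℂ) + t * I).im = t := by simp
  rw [h3, h4] at h2
  have h5 : t / (2 * Real.pi) = (2 * Real.pi)⁻¹ * t := by rw [div_eq_inv_mul]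
  rw [h5] at h2
  have h7 : ‖cexp (((σ : ℂ) + t * I) * (θ * I))‖ = Real.exp (-(θ * t)) := by
    rw [Complex.norm_exp]
    congr 1
    simp
    ring
  unfold Mel
  rw [h2, norm_mul, h7, ← mul_assoc, ← Real.exp_add]
  have : θ * t + -(θ * t) = 0 := by ring
  rw [this, Real.exp_zero, one_mul]

lemma Mel_bdd (ha : 0 < a) (hw : ∀ j, 0 < w j) {ρ C₀ : ℝ} (hρ : 0 < ρ)
    (hρ1 : ρ ≤ 1) (h0 : ∀ z : ℂ, z ≠ 0 → ‖z‖ ≤ ρ → ‖Kt a w b z‖ ≤ C₀) {σ : ℝ} (hσ : 0 < σ) :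
    ∃ M : ℝ, 0 ≤ M ∧ ∀ t, ‖Mel a w b σ t‖ ≤ M := by
  refine ⟨∫ u, ‖kth a w b σ 0 u‖, integral_nonneg fun u => norm_nonneg _, fun t => ?_⟩
  have h1 := four_Mel ha hw hρ hρ1 h0 le_rfl (by linarith [Real.pi_pos]) hσ t
  rw [zero_mul, Real.exp_zero, one_mul] at h1
  rw [← h1, Real.fourier_real_eq_integral_exp_smul]
  refine (norm_integral_le_integral_norm _).trans (le_of_eq ?_)
  refine integral_congr_ae (ae_of_all _ fun v => ?_)
  simp only [norm_smul]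
  rw [Complex.norm_exp_ofReal_mul_I, one_mul]

lemma elem2 {A b : ℝ} (hA : 0 < A) (hb : 0 < b) {X : ℝ} (hX : 0 ≤ X) :
    X ^ A * Real.exp (-b * X) ≤ (2 * A) ^ A * b ^ (-A) := by
  refine (rpow_mul_exp_le' hA hb hX).trans ?_
  have : Real.exp (-(b / 2) * X) ≤ 1 := by
    rw [Real.exp_le_one_iff]
    have : 0 ≤ b / 2 * X := by positivity
    linarith
  calc _ ≤ (2 * A) ^ A * b ^ (-A) * 1 := by gcongr
    _ = _ := mul_one _

/-- the lower part of the Plancherel integral -/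
lemma low_part {F : ℝ → ℂ} {M : ℝ} (hF : ∀ t, ‖F t‖ ≤ M) {θ : ℝ} (h0 : 1 / 2 ≤ θ)
    (h1 : θ ≤ Real.pi / 2) :
    ∫⁻ t in Iic (1 : ℝ), ENNReal.ofReal (Real.exp (2 * θ * t)) * ‖F t‖ₑ ^ 2 ≤
      ENNReal.ofReal (M ^ 2 * Real.exp Real.pi) := by
  have hpt : ∀ t ∈ Iic (1 : ℝ), ENNReal.ofReal (Real.exp (2 * θ * t)) * ‖F t‖ₑ ^ 2 ≤
      ENNReal.ofReal (M ^ 2 * Real.exp (Real.pi - 1)) * ENNReal.ofReal (Real.exp t) := by
    intro t ht
    have ht' : t ≤ 1 := ht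
    rw [← ofReal_norm, ← ENNReal.ofReal_pow (norm_nonneg _),
      ← ENNReal.ofReal_mul (Real.exp_pos _).le, ← ENNReal.ofReal_mul (by positivity)]
    apply ENNReal.ofReal_le_ofReal
    have e1 : ‖F t‖ ^ 2 ≤ M ^ 2 := pow_le_pow_left₀ (norm_nonneg _) (hF t) 2
    have e2 : Real.exp (2 * θ * t) ≤ Real.exp (Real.pi - 1) * Real.exp t := by
      rw [← Real.exp_add]
      apply Real.exp_le_exp.2
      have e3 : (1 - t) ≤ 2 * θ * (1 - t) := by nlinarith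
      nlinarith
    calc _ ≤ (Real.exp (Real.pi - 1) * Real.exp t) * M ^ 2 := by gcongr
      _ = _ := by ring
  calc _ ≤ ∫⁻ t in Iic (1 : ℝ), ENNReal.ofReal (M ^ 2 * Real.exp (Real.pi - 1)) *
        ENNReal.ofReal (Real.exp t) := setLIntegral_mono' measurableSet_Iic hpt
    _ = ENNReal.ofReal (M ^ 2 * Real.exp (Real.pi - 1)) * ENNReal.ofReal (Real.exp 1) := by
        rw [lintegral_const_mul' _ _ ENNReal.ofReal_ne_top,
          ← ofReal_integral_eq_lintegral_ofReal (integrableOn_exp_Iic 1)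
            (ae_of_all _ fun t => (Real.exp_pos t).le), integral_exp_Iic]
    _ = _ := by
        rw [← ENNReal.ofReal_mul (by positivity), mul_assoc, ← Real.exp_add]
        congr 3
        ring

/-- the second moment bound implies the bound for the ray integral -/
theorem ray_of_mom (ha : 0 < a) (hw : ∀ j, 0 < w j) (hc : Tay a w c) {σ β : ℝ} (hσ : 1 / 2 ≤ σ)
    (hβ : 1 ≤ β) (hM : MomB a w c σ β) : RayB a w σ (2 * σ - 1 + β) := by
  intro ε hε U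
  obtain ⟨b, ρ, C₀, hρ, hρ1, hC₀, h0⟩ := exists_near a hw
  have hσ0 : 0 < σ := by linarith
  obtain ⟨C₁, hC₁, h1⟩ := JJ_le a w b hσ0 U
  obtain ⟨M, hM0, hMel⟩ := Mel_bdd ha hw hρ hρ1 h0 hσ0
  obtain ⟨C₂, hC₂, hG⟩ := Gamma_upper_all σ
  set δ : ℝ := ε / 2 with hδ
  have hδ0 : 0 < δ := by positivity
  obtain ⟨ρ₁, hρ₁⟩ : ∃ ρ₁, ρ₁ = 2 * σ - 1 + β := ⟨_, rfl⟩
  rw [← hρ₁]
  have hρ₁σ : 2 * σ ≤ ρ₁ := by linarith
  have hρ₁0 : 0 < ρ₁ := by linarith
  obtain ⟨C₃, hC₃, hF⟩ := hM δ hδ0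
  set B := ∑ k ∈ range r, ‖b k‖ with hB
  have hB0 : 0 ≤ B := by positivity
  set K₁ : ℝ := 2 * C₂ ^ 2 * 2 ^ (2 * σ - 1) * (C₃ * 2 ^ (β + δ) + B ^ 2) with hK₁
  have hK₁0 : 0 ≤ K₁ := by positivity
  set K₂ : ℝ := (2 * (ρ₁ + 2 * δ)) ^ (ρ₁ + 2 * δ) * (2 : ℝ) ^ (-(ρ₁ + 2 * δ)) with hK₂
  have hK₂0 : 0 ≤ K₂ := by positivity
  have hq : (2 : ℝ) ^ (-δ) < 1 := Real.rpow_lt_one_of_one_lt_of_neg (by norm_num) (by linarith)
  have hq0 : 0 < (2 : ℝ) ^ (-δ) := by positivity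
  have hsum : Summable fun n : ℕ => ((2 : ℝ) ^ (-δ)) ^ n := summable_geometric_of_lt_one hq0.le hq
  set S : ℝ := ∑' n : ℕ, ((2 : ℝ) ^ (-δ)) ^ n with hS
  have hS0 : 0 ≤ S := tsum_nonneg fun n => by positivity
  refine ⟨C₁ + 2 * (M ^ 2 * Real.exp Real.pi) + 2 * (K₁ * K₂ * S), by positivity,
    fun η hη hη1 => ?_⟩
  set θ : ℝ := Real.pi / 2 - η with hθ
  have hp3 := Real.pi_gt_three
  have hθ0 : 1 / 2 ≤ θ := by linarith
  have hθ1 : θ < Real.pi / 2 := by linarith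
  obtain ⟨k1, k2⟩ := kth_good ha hw hρ hρ1 h0 (by linarith : 0 ≤ θ) hθ1 hσ0
  have hpl := Pool.Agent.TH794.QD.plancherel (kth a w b σ θ) k1 k2
  have hm : Measurable (fun ξ : ℝ => ‖𝓕 (kth a w b σ θ) ξ‖ₑ ^ 2) := by
    have hc : Continuous (𝓕 (kth a w b σ θ)) :=
      VectorFourier.fourierIntegral_continuous Real.continuous_fourierChar
        (by exact continuous_inner) k1
    exact (hc.measurable.enorm).pow_const 2
  -- the Plancherel integral on the line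
  have hline : ∫⁻ u, ‖kth a w b σ θ u‖ₑ ^ 2 ≤
      ∫⁻ t : ℝ, ENNReal.ofReal (Real.exp (2 * θ * t)) * ‖Mel a w b σ t‖ₑ ^ 2 := by
    have e1 : ∀ t : ℝ, ENNReal.ofReal (Real.exp (2 * θ * t)) * ‖Mel a w b σ t‖ₑ ^ 2 =
        ‖𝓕 (kth a w b σ θ) ((2 * Real.pi)⁻¹ * t)‖ₑ ^ 2 := by
      intro t
      rw [← ofReal_norm, ← ofReal_norm, four_Mel ha hw hρ hρ1 h0 (by linarith) hθ1 hσ0 t,
        ← ENNReal.ofReal_pow (norm_nonneg _), ← ENNReal.ofReal_pow (by positivity),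
        ← ENNReal.ofReal_mul (Real.exp_pos _).le, mul_pow, ← Real.exp_nat_mul]
      congr 3
      push_cast
      ring
    simp only [e1]
    have h2 : Measure.map (fun t : ℝ => (2 * Real.pi)⁻¹ * t) volume =
        ENNReal.ofReal (2 * Real.pi) • volume := by
      rw [Real.map_volume_mul_left (by positivity), inv_inv, abs_of_pos (by positivity)]
    rw [← lintegral_map (f := fun ξ : ℝ => ‖𝓕 (kth a w b σ θ) ξ‖ₑ ^ 2) hm
      (measurable_const_mul _), h2, lintegral_smul_measure, smul_eq_mul, hpl]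
    have h3 : (1 : ENNReal) ≤ ENNReal.ofReal (2 * Real.pi) := by
      rw [ENNReal.one_le_ofReal]
      linarith
    exact le_mul_of_one_le_left' h3
  have hpiece : ∀ n : ℕ, ∫⁻ t in Icc ((2 : ℝ) ^ n) (2 * 2 ^ n),
      ENNReal.ofReal (Real.exp (2 * θ * t)) * ‖Mel a w b σ t‖ₑ ^ 2 ≤
      ENNReal.ofReal (K₁ * K₂ * η ^ (-ρ₁ - ε) * ((2 : ℝ) ^ (-δ)) ^ n) := by
    intro n
    set T : ℝ := (2 : ℝ) ^ n with hT
    have hT1 : 1 ≤ T := one_le_pow₀ (by norm_num)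
    have hT0 : 0 < T := by positivity
    set A : ℝ := 2 * C₂ ^ 2 * (2 * T) ^ (2 * σ - 1) * Real.exp (-2 * (η * T)) with hA
    have hA0 : 0 ≤ A := by positivity
    have hpt : ∀ t ∈ Icc T (2 * T), ENNReal.ofReal (Real.exp (2 * θ * t)) * ‖Mel a w b σ t‖ₑ ^ 2 ≤
        ENNReal.ofReal A * (‖FF a w c ((σ : ℂ) + t * I)‖ₑ ^ 2 + ENNReal.ofReal (B ^ 2)) := by
      intro t ht
      have ht1 : 1 ≤ t := hT1.trans ht.1
      have ht0 : 0 < t := by linarith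
      have h2 := FF_formula ha hw hc hρ hρ1 h0 (s := (σ : ℂ) + t * I) (by simpa using hσ0)
        (by simp; linarith)
      have h3 : Gamma ((σ : ℂ) + t * I) ≠ 0 :=
        Complex.Gamma_ne_zero_of_re_pos (by simpa using hσ0)
      have h4 : Mel a w b σ t = Gamma ((σ : ℂ) + t * I) *
          (FF a w c ((σ : ℂ) + t * I) - Rt r b ((σ : ℂ) + t * I)) := by
        rw [h2]
        unfold Mel
        field_simp
        ring
      have h5 := Rt_le (r := r) b (s := (σ : ℂ) + t * I) (by simpa using ht1)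
      have h6 := hG t ht1
      have h7 : ‖FF a w c ((σ : ℂ) + t * I) - Rt r b ((σ : ℂ) + t * I)‖ ^ 2 ≤
          2 * (‖FF a w c ((σ : ℂ) + t * I)‖ ^ 2 + B ^ 2) := by
        have h8 := norm_sub_le (FF a w c ((σ : ℂ) + t * I)) (Rt r b ((σ : ℂ) + t * I))
        have h9 : ‖FF a w c ((σ : ℂ) + t * I) - Rt r b ((σ : ℂ) + t * I)‖ ≤
          ‖FF a w c ((σ : ℂ) + t * I)‖ + B := by linarith
        have h10 := pow_le_pow_left₀ (norm_nonneg _) h9 2
        nlinarith [sq_nonneg (‖FF a w c ((σ : ℂ) + t * I)‖ - B)]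
      have h8 : Real.exp (2 * θ * t) * ‖Gamma ((σ : ℂ) + t * I)‖ ^ 2 ≤
          C₂ ^ 2 * (2 * T) ^ (2 * σ - 1) * Real.exp (-2 * (η * T)) := by
        have h9 : ‖Gamma ((σ : ℂ) + t * I)‖ ^ 2 ≤
            (C₂ * t ^ (σ - 1 / 2) * Real.exp (-(Real.pi / 2 * t))) ^ 2 :=
          pow_le_pow_left₀ (norm_nonneg _) h6 2
        have h10 : (C₂ * t ^ (σ - 1 / 2) * Real.exp (-(Real.pi / 2 * t))) ^ 2 =
            C₂ ^ 2 * t ^ (2 * σ - 1) * Real.exp (-(Real.pi * t)) := by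
          rw [mul_pow, mul_pow, ← Real.exp_nat_mul, ← Real.rpow_natCast (t ^ (σ - 1 / 2)),
            ← Real.rpow_mul ht0.le]
          congr 2
          · congr 2
            push_cast
            ring
          · push_cast
            ring
        have h11 : t ^ (2 * σ - 1) ≤ (2 * T) ^ (2 * σ - 1) :=
          Real.rpow_le_rpow ht0.le ht.2 (by linarith)
        have h12 : Real.exp (2 * θ * t) * Real.exp (-(Real.pi * t)) ≤ Real.exp (-2 * (η * T)) := by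
          rw [← Real.exp_add]
          apply Real.exp_le_exp.2
          rw [hθ]
          have := ht.1
          nlinarith
        calc Real.exp (2 * θ * t) * ‖Gamma ((σ : ℂ) + t * I)‖ ^ 2
            ≤ Real.exp (2 * θ * t) * (C₂ ^ 2 * t ^ (2 * σ - 1) * Real.exp (-(Real.pi * t))) := by
              rw [← h10]; gcongr
          _ = C₂ ^ 2 * t ^ (2 * σ - 1) * (Real.exp (2 * θ * t) * Real.exp (-(Real.pi * t))) := by
              ring
          _ ≤ _ := by gcongr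
      rw [← ofReal_norm, ← ofReal_norm, ← ENNReal.ofReal_pow (norm_nonneg _),
        ← ENNReal.ofReal_pow (norm_nonneg _), ← ENNReal.ofReal_add (by positivity) (by positivity),
        ← ENNReal.ofReal_mul (by positivity), ← ENNReal.ofReal_mul (by positivity)]
      apply ENNReal.ofReal_le_ofReal
      rw [h4, norm_mul, mul_pow]
      calc Real.exp (2 * θ * t) * (‖Gamma ((σ : ℂ) + t * I)‖ ^ 2 *
          ‖FF a w c ((σ : ℂ) + t * I) - Rt r b ((σ : ℂ) + t * I)‖ ^ 2)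
          = (Real.exp (2 * θ * t) * ‖Gamma ((σ : ℂ) + t * I)‖ ^ 2) *
          ‖FF a w c ((σ : ℂ) + t * I) - Rt r b ((σ : ℂ) + t * I)‖ ^ 2 := by ring
        _ ≤ (C₂ ^ 2 * (2 * T) ^ (2 * σ - 1) * Real.exp (-2 * (η * T))) *
          (2 * (‖FF a w c ((σ : ℂ) + t * I)‖ ^ 2 + B ^ 2)) := by gcongr
        _ = _ := by rw [hA]; ring
    have hFT : ∫⁻ t in Icc T (2 * T), ‖FF a w c ((σ : ℂ) + t * I)‖ₑ ^ 2 ≤
        ENNReal.ofReal (C₃ * (2 * T) ^ (β + δ)) :=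
      (lintegral_mono_set (Icc_subset_Icc_left hT1)).trans (hF (2 * T) (by linarith))
    calc _ ≤ ∫⁻ t in Icc T (2 * T), ENNReal.ofReal A *
          (‖FF a w c ((σ : ℂ) + t * I)‖ₑ ^ 2 + ENNReal.ofReal (B ^ 2)) :=
          setLIntegral_mono' measurableSet_Icc hpt
      _ = ENNReal.ofReal A * ((∫⁻ t in Icc T (2 * T), ‖FF a w c ((σ : ℂ) + t * I)‖ₑ ^ 2) +
          ENNReal.ofReal (B ^ 2) * ENNReal.ofReal T) := by
          rw [lintegral_const_mul' _ _ ENNReal.ofReal_ne_top, lintegral_add_right _ measurable_const,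
            lintegral_const, Measure.restrict_apply_univ, Real.volume_Icc]
          congr 4
          ring
      _ ≤ ENNReal.ofReal A * (ENNReal.ofReal (C₃ * (2 * T) ^ (β + δ)) +
          ENNReal.ofReal (B ^ 2) * ENNReal.ofReal T) := by gcongr
      _ = ENNReal.ofReal (A * (C₃ * (2 * T) ^ (β + δ) + B ^ 2 * T)) := by
          rw [← ENNReal.ofReal_mul (by positivity), ← ENNReal.ofReal_add (by positivity)
            (by positivity), ← ENNReal.ofReal_mul hA0]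
      _ ≤ _ := by
          apply ENNReal.ofReal_le_ofReal
          have e1 : B ^ 2 * T ≤ B ^ 2 * T ^ (β + δ) := by
            have : T ≤ T ^ (β + δ) := by
              calc T = T ^ (1 : ℝ) := (Real.rpow_one T).symm
                _ ≤ T ^ (β + δ) := Real.rpow_le_rpow_of_exponent_le hT1 (by linarith)
            gcongr
          have e2 : (2 * T) ^ (β + δ) = 2 ^ (β + δ) * T ^ (β + δ) :=
            Real.mul_rpow (by norm_num) hT0.le
          have e3 : (2 * T) ^ (2 * σ - 1) = 2 ^ (2 * σ - 1) * T ^ (2 * σ - 1) :=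
            Real.mul_rpow (by norm_num) hT0.le
          have e4 : T ^ (2 * σ - 1) * T ^ (β + δ) = T ^ (-δ) * T ^ (ρ₁ + 2 * δ) := by
            rw [← Real.rpow_add hT0, ← Real.rpow_add hT0]
            congr 1
            rw [hρ₁]
            ring
          have e5 : η ^ (-ρ₁ - ε) * η ^ (ρ₁ + 2 * δ) = 1 := by
            rw [← Real.rpow_add hη]
            have : -ρ₁ - ε + (ρ₁ + 2 * δ) = 0 := by rw [hδ]; ring
            rw [this, Real.rpow_zero]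
          have e6 : T ^ (ρ₁ + 2 * δ) = η ^ (-ρ₁ - ε) * (η * T) ^ (ρ₁ + 2 * δ) := by
            rw [Real.mul_rpow hη.le hT0.le, ← mul_assoc, e5, one_mul]
          have e7 : T ^ (-δ) = ((2 : ℝ) ^ (-δ)) ^ n := by
            rw [hT, ← Real.rpow_natCast, ← Real.rpow_natCast, ← Real.rpow_mul (by norm_num),
              ← Real.rpow_mul (by norm_num), mul_comm]
          have e8 := elem2 (A := ρ₁ + 2 * δ) (b := 2) (by positivity) (by norm_num)
            (X := η * T) (by positivity)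
          calc A * (C₃ * (2 * T) ^ (β + δ) + B ^ 2 * T)
              ≤ A * (C₃ * (2 * T) ^ (β + δ) + B ^ 2 * T ^ (β + δ)) := by gcongr
            _ = K₁ * (T ^ (2 * σ - 1) * T ^ (β + δ)) * Real.exp (-2 * (η * T)) := by
                rw [hA, e2, e3, hK₁]; ring
            _ = K₁ * η ^ (-ρ₁ - ε) * T ^ (-δ) *
                ((η * T) ^ (ρ₁ + 2 * δ) * Real.exp (-2 * (η * T))) := by
                rw [e4, e6]; ring
            _ ≤ K₁ * η ^ (-ρ₁ - ε) * T ^ (-δ) * K₂ := by gcongr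
            _ = _ := by rw [e7]; ring
  have hcover : (univ : Set ℝ) ⊆ Iic 1 ∪ ⋃ n : ℕ, Icc ((2 : ℝ) ^ n) (2 * 2 ^ n) := by
    intro t _
    rcases le_total t 1 with h | h
    · exact Or.inl h
    · obtain ⟨n, hn1, hn2⟩ := exists_nat_pow_near h one_lt_two
      refine Or.inr (Set.mem_iUnion.2 ⟨n, hn1, ?_⟩)
      rw [pow_succ] at hn2
      linarith
  have hall : ∫⁻ t : ℝ, ENNReal.ofReal (Real.exp (2 * θ * t)) * ‖Mel a w b σ t‖ₑ ^ 2 ≤
      ENNReal.ofReal (M ^ 2 * Real.exp Real.pi) +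
        ENNReal.ofReal (K₁ * K₂ * S * η ^ (-ρ₁ - ε)) := by
    calc _ = ∫⁻ t in univ, ENNReal.ofReal (Real.exp (2 * θ * t)) * ‖Mel a w b σ t‖ₑ ^ 2 := by
          rw [Measure.restrict_univ]
      _ ≤ ∫⁻ t in Iic 1 ∪ ⋃ n : ℕ, Icc ((2 : ℝ) ^ n) (2 * 2 ^ n),
          ENNReal.ofReal (Real.exp (2 * θ * t)) * ‖Mel a w b σ t‖ₑ ^ 2 := lintegral_mono_set hcover
      _ ≤ _ := lintegral_union_le _ _ _
      _ ≤ ENNReal.ofReal (M ^ 2 * Real.exp Real.pi) +
          ∑' n : ℕ, ∫⁻ t in Icc ((2 : ℝ) ^ n) (2 * 2 ^ n),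
          ENNReal.ofReal (Real.exp (2 * θ * t)) * ‖Mel a w b σ t‖ₑ ^ 2 :=
          add_le_add (low_part hMel hθ0 hθ1.le) (lintegral_iUnion_le _ _)
      _ ≤ ENNReal.ofReal (M ^ 2 * Real.exp Real.pi) +
          ∑' n : ℕ, ENNReal.ofReal (K₁ * K₂ * η ^ (-ρ₁ - ε) * ((2 : ℝ) ^ (-δ)) ^ n) := by
          gcongr with n
          exact hpiece n
      _ = _ := by
          rw [← ENNReal.ofReal_tsum_of_nonneg (fun n => by positivity) (hsum.mul_left _),
            tsum_mul_left]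
          congr 2
          ring
  have hη2 : 1 ≤ η ^ (-ρ₁ - ε) := by
    apply Real.one_le_rpow_of_pos_of_le_one_of_nonpos hη hη1
    linarith
  have hη3 : η ^ (-(2 * σ)) ≤ η ^ (-ρ₁ - ε) :=
    Real.rpow_le_rpow_of_exponent_ge hη hη1 (by linarith)
  calc JJ a w σ U η ≤ ENNReal.ofReal (C₁ * η ^ (-(2 * σ))) +
        2 * ∫⁻ u, ‖kth a w b σ (Real.pi / 2 - η) u‖ₑ ^ 2 := h1 η hη hη1
    _ ≤ ENNReal.ofReal (C₁ * η ^ (-(2 * σ))) + 2 * (ENNReal.ofReal (M ^ 2 * Real.exp Real.pi) +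
        ENNReal.ofReal (K₁ * K₂ * S * η ^ (-ρ₁ - ε))) := by
        gcongr
        exact hline.trans hall
    _ = ENNReal.ofReal (C₁ * η ^ (-(2 * σ)) + 2 * (M ^ 2 * Real.exp Real.pi +
        K₁ * K₂ * S * η ^ (-ρ₁ - ε))) := by
        rw [ENNReal.ofReal_add (by positivity) (by positivity), ENNReal.ofReal_mul (p := 2)
          (by norm_num), ENNReal.ofReal_add (by positivity) (by positivity)]
        simp
    _ ≤ _ := by
        apply ENNReal.ofReal_le_ofReal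
        have e1 : M ^ 2 * Real.exp Real.pi ≤ M ^ 2 * Real.exp Real.pi * η ^ (-ρ₁ - ε) :=
          le_mul_of_one_le_right (by positivity) hη2
        calc _ ≤ C₁ * η ^ (-ρ₁ - ε) + 2 * (M ^ 2 * Real.exp Real.pi * η ^ (-ρ₁ - ε) +
            K₁ * K₂ * S * η ^ (-ρ₁ - ε)) := by gcongr
          _ = _ := by ring

/-- the bound for the ray integral implies the second moment bound -/
theorem mom_of_ray (ha : 0 < a) (hw : ∀ j, 0 < w j) (hc : Tay a w c) {σ β : ℝ} (hσ : 1 / 2 ≤ σ)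
    (hβ : 1 ≤ β) (hR : RayB a w σ (2 * σ - 1 + β)) : MomB a w c σ β := by
  intro ε hε
  obtain ⟨C₁, U, hC₁, hz⟩ := zone ha hw hc hσ
  obtain ⟨C₂, hC₂, hJ⟩ := hR ε hε U
  have hpiece : ∀ n : ℕ, ∫⁻ t in Icc ((2 : ℝ) ^ n) (2 * 2 ^ n),
      ‖FF a w c ((σ : ℂ) + t * I)‖ₑ ^ 2 ≤
      ENNReal.ofReal ((C₁ + C₁ * C₂) * ((2 : ℝ) ^ n) ^ (β + ε)) := by
    intro n
    set T : ℝ := (2 : ℝ) ^ n with hT
    have hT1 : 1 ≤ T := one_le_pow₀ (by norm_num)
    have hT0 : 0 < T := by positivity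
    have h2 := hz T hT1
    have hη0 : 0 < 1 / T := by positivity
    have hη1 : 1 / T ≤ 1 := by rw [div_le_one hT0]; exact hT1
    have h4 := hJ (1 / T) hη0 hη1
    have h5 : (1 / T) ^ (-(2 * σ - 1 + β) - ε) = T ^ (2 * σ - 1 + β + ε) := by
      rw [one_div, Real.inv_rpow hT0.le, ← Real.rpow_neg hT0.le]
      congr 1
      ring
    rw [h5] at h4
    calc _ ≤ _ := h2
      _ ≤ ENNReal.ofReal (C₁ * T) + ENNReal.ofReal (C₁ * T ^ (1 - 2 * σ)) *
          ENNReal.ofReal (C₂ * T ^ (2 * σ - 1 + β + ε)) := by gcongr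
      _ = ENNReal.ofReal (C₁ * T + C₁ * C₂ * T ^ (β + ε)) := by
          have e1 : T ^ (β + ε) = T ^ (1 - 2 * σ) * T ^ (2 * σ - 1 + β + ε) := by
            rw [← Real.rpow_add hT0]
            congr 1
            ring
          rw [← ENNReal.ofReal_mul (by positivity), ← ENNReal.ofReal_add (by positivity)
            (by positivity), e1]
          congr 1
          ring
      _ ≤ _ := by
          apply ENNReal.ofReal_le_ofReal
          have h5 : T ≤ T ^ (β + ε) := by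
            calc T = T ^ (1 : ℝ) := (Real.rpow_one T).symm
              _ ≤ T ^ (β + ε) := Real.rpow_le_rpow_of_exponent_le hT1 (by linarith)
          calc _ ≤ C₁ * T ^ (β + ε) + C₁ * C₂ * T ^ (β + ε) := by gcongr
            _ = _ := by ring
  have hdy := dyadic (fun t : ℝ => ‖FF a w c ((σ : ℂ) + t * I)‖ₑ ^ 2)
    (C := C₁ + C₁ * C₂) (τ := β + ε) (by positivity) (by linarith) hpiece
  refine ⟨(C₁ + C₁ * C₂) * 2 ^ (β + ε), by positivity, fun T hT => ?_⟩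
  obtain ⟨n, hn1, hn2⟩ := exists_nat_pow_near hT (one_lt_two)
  calc _ ≤ ∫⁻ t in Icc 1 ((2 : ℝ) ^ (n + 1)), ‖FF a w c ((σ : ℂ) + t * I)‖ₑ ^ 2 :=
        lintegral_mono_set (Icc_subset_Icc_right hn2.le)
    _ ≤ _ := hdy (n + 1)
    _ ≤ _ := by
        apply ENNReal.ofReal_le_ofReal
        have h1 : ((2 : ℝ) ^ (n + 1)) ^ (β + ε) ≤ (T * 2) ^ (β + ε) := by
          apply Real.rpow_le_rpow (by positivity) _ (by linarith)
          rw [pow_succ]
          linarith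
        rw [Real.mul_rpow (by linarith) (by norm_num)] at h1
        calc _ ≤ (C₁ + C₁ * C₂) * (T ^ (β + ε) * 2 ^ (β + ε)) := by gcongr
          _ = _ := by ring

/-- the equivalence -/
theorem mom_iff_crit (ha : 0 < a) (hw : ∀ j, 0 < w j) (hc : Tay a w c) {σ β : ℝ}
    (hσ : 1 / 2 ≤ σ) (hβ : 1 ≤ β) : MomB a w c σ β ↔ Crit w σ (2 * σ - 1 + β) :=
  ⟨fun h => crit_of_ray ha hw (by linarith) (by linarith) (ray_of_mom ha hw hc hσ hβ h),
    fun h => mom_of_ray ha hw hc hσ hβ (ray_of_crit ha hw (by linarith) (by linarith) h)⟩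

end Pool.Agent.T6.H60.BD
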