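import Pool.Agent.T6.H60.BD.D

set_option autoImplicit false

/-!
# Barnes zeta functions: the Diophantine criterion for the mean square, part 5: the final form of the
criterion
-/

namespace Pool.Agent.T6.H60.BD

open Finset Filter Topology MeasureTheory Complex Set
open Pool.Agent.H131R5.BZ Pool.Agent.Y930.Bz Pool.Agent.Y616.BM Pool.Agent.T6.H60.BC

/-- the Diophantine criterion, second form -/
def Crit' {r : ℕ} (w : Fin r → ℝ) (σ β : ℝ) : Prop :=
  ∀ ε : ℝ, 0 < ε → ∃ C : ℝ, 0 ≤ C ∧ ∀ Y δ : ℝ, 1 ≤ Y → 0 < δ → δ ≤ 1 →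
    ∫⁻ y in Icc 1 Y, ENNReal.ofReal (pr w δ y) ≤
      ENNReal.ofReal (C * Y ^ (β + ε) * δ ^ (-(2 * σ - 1 + β) - ε))

theorem crit'_of_crit {r : ℕ} {w : Fin r → ℝ} {σ β : ℝ} (hβ : 1 ≤ β)
    (h : Crit w σ (2 * σ - 1 + β)) : Crit' w σ β := by
  intro ε hε
  obtain ⟨C, hC, hb⟩ := h ε hε 1 one_pos
  refine ⟨C * 2 ^ (β + ε), by positivity, fun Y δ hY hδ hδ1 => ?_⟩
  have hpiece : ∀ n : ℕ, ∫⁻ y in Icc ((2 : ℝ) ^ n) (2 * 2 ^ n), ENNReal.ofReal (pr w δ y) ≤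
      ENNReal.ofReal ((C * δ ^ (-(2 * σ - 1 + β) - ε)) * ((2 : ℝ) ^ n) ^ (β + ε)) := by
    intro n
    set T : ℝ := (2 : ℝ) ^ n with hT
    have hT1 : 1 ≤ T := one_le_pow₀ (by norm_num)
    have hT0 : 0 < T := by positivity
    refine (hb T δ hT1 hδ hδ1).trans (le_of_eq ?_)
    congr 1
    have e1 : T ^ (β + ε) = T ^ (1 - 2 * σ) * T ^ (2 * σ - 1 + β + ε) := by
      rw [← Real.rpow_add hT0]
      congr 1
      ring
    have e2 : -(2 * σ - 1 + β) - ε = -(2 * σ - 1 + β + ε) := by ring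
    rw [e1, e2, Real.div_rpow hT0.le hδ.le, Real.rpow_neg hδ.le]
    ring
  have hdy := dyadic (fun y : ℝ => ENNReal.ofReal (pr w δ y))
    (C := C * δ ^ (-(2 * σ - 1 + β) - ε)) (τ := β + ε) (by positivity) (by linarith) hpiece
  obtain ⟨n, hn1, hn2⟩ := exists_nat_pow_near hY (one_lt_two)
  calc _ ≤ ∫⁻ y in Icc 1 ((2 : ℝ) ^ (n + 1)), ENNReal.ofReal (pr w δ y) :=
        lintegral_mono_set (Icc_subset_Icc_right hn2.le)
    _ ≤ _ := hdy (n + 1)
    _ ≤ _ := by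
        apply ENNReal.ofReal_le_ofReal
        have h1 : ((2 : ℝ) ^ (n + 1)) ^ (β + ε) ≤ (Y * 2) ^ (β + ε) := by
          apply Real.rpow_le_rpow (by positivity) _ (by linarith)
          rw [pow_succ]
          linarith
        rw [Real.mul_rpow (by linarith) (by norm_num)] at h1
        calc _ ≤ (C * δ ^ (-(2 * σ - 1 + β) - ε)) * (Y ^ (β + ε) * 2 ^ (β + ε)) := by gcongr
          _ = _ := by ring

/-- the distance to the nearest integer of a multiple -/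
lemma nd_nat_mul (m : ℕ) (x : ℝ) : nd (m * x) ≤ m * nd x := by
  have h := nd_le_sub (m * x) ((m : ℤ) * round x)
  have e : (m : ℝ) * x - (((m : ℤ) * round x : ℤ) : ℝ) = m * (x - round x) := by
    push_cast; ring
  rw [e, abs_mul, Nat.abs_cast] at h
  exact h

lemma pr_nat_mul {r : ℕ} (w : Fin r → ℝ) {δ : ℝ} (hδ : 0 < δ) {m : ℕ} (hm : 1 ≤ m) (y : ℝ) :
    pr w δ y ≤ ((m : ℝ) ^ 2) ^ r * pr w δ (m * y) := by
  have hm1 : (1 : ℝ) ≤ m := by exact_mod_cast hm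
  have e1 : ((m : ℝ) ^ 2) ^ r * pr w δ (m * y) =
      ∏ j, ((m : ℝ) ^ 2 * ((max δ (nd (w j * (m * y)))) ^ 2)⁻¹) := by
    unfold pr
    rw [Finset.prod_mul_distrib]
    simp
  rw [e1]
  unfold pr
  refine Finset.prod_le_prod (fun j _ => by positivity) fun j _ => ?_
  have h0 : 0 < max δ (nd (w j * y)) := lt_max_of_lt_left hδ
  have h0' : 0 < max δ (nd (w j * (m * y))) := lt_max_of_lt_left hδ
  have h1 : max δ (nd (w j * (m * y))) ≤ m * max δ (nd (w j * y)) := by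
    refine max_le ?_ ?_
    · calc δ ≤ max δ (nd (w j * y)) := le_max_left _ _
        _ ≤ _ := le_mul_of_one_le_left h0.le hm1
    · have h2 : w j * (m * y) = m * (w j * y) := by ring
      rw [h2]
      exact (nd_nat_mul m _).trans (mul_le_mul_of_nonneg_left (le_max_right _ _) (by linarith))
  have h2 : (max δ (nd (w j * (m * y)))) ^ 2 ≤ (m : ℝ) ^ 2 * (max δ (nd (w j * y))) ^ 2 := by
    rw [← mul_pow]
    exact pow_le_pow_left₀ h0'.le h1 2
  rw [← div_eq_mul_inv, le_div_iff₀ (by positivity), inv_mul_le_iff₀ (by positivity)]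
  linarith

theorem crit_of_crit' {r : ℕ} {w : Fin r → ℝ} {σ β : ℝ} (hβ : 1 ≤ β) (h : Crit' w σ β) :
    Crit w σ (2 * σ - 1 + β) := by
  intro ε hε y₀ hy₀
  obtain ⟨C, hC, hb⟩ := h ε hε
  obtain ⟨m, hm⟩ := exists_nat_ge (1 / y₀)
  have hm0 : 1 ≤ m := by
    rcases Nat.eq_zero_or_pos m with h0 | h0
    · exfalso
      rw [h0] at hm
      have : 0 < 1 / y₀ := by positivity
      simp at hm
      linarith
    · exact h0
  have hm1 : (1 : ℝ) ≤ m := by exact_mod_cast hm0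
  have hmp : (0 : ℝ) < m := by linarith
  refine ⟨((m : ℝ) ^ 2) ^ r * (m : ℝ)⁻¹ * (C * (2 * m) ^ (β + ε)), by positivity,
    fun Y δ hY hδ hδ1 => ?_⟩
  have hY0 : 0 < Y := hy₀.trans_le hY
  have hmY : 1 ≤ m * Y := by
    rw [div_le_iff₀ hy₀] at hm
    calc 1 ≤ (m : ℝ) * y₀ := hm
      _ ≤ m * Y := by gcongr
  have hcv : ∫⁻ y in Icc Y (2 * Y), ENNReal.ofReal (pr w δ (m * y)) =
      ENNReal.ofReal ((m : ℝ)⁻¹) * ∫⁻ y in Icc (m * Y) (2 * (m * Y)), ENNReal.ofReal (pr w δ y) := by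
    have hmeas : Measurable fun y : ℝ => ENNReal.ofReal (pr w δ y) := (pr_meas w δ).ennreal_ofReal
    have hset : Icc Y (2 * Y) = (fun y : ℝ => (m : ℝ) * y) ⁻¹' (Icc (m * Y) (2 * (m * Y))) := by
      ext y
      simp only [Set.mem_preimage, Set.mem_Icc]
      constructor
      · rintro ⟨h1, h2⟩
        exact ⟨by gcongr, by nlinarith⟩
      · rintro ⟨h1, h2⟩
        exact ⟨le_of_mul_le_mul_left h1 hmp, le_of_mul_le_mul_left (by linarith) hmp⟩
    rw [hset, ← setLIntegral_map measurableSet_Icc hmeas (measurable_const_mul _),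
      Real.map_volume_mul_left (by positivity), Measure.restrict_smul, lintegral_smul_measure,
      smul_eq_mul, abs_of_pos (by positivity)]
  calc ∫⁻ y in Icc Y (2 * Y), ENNReal.ofReal (pr w δ y)
      ≤ ∫⁻ y in Icc Y (2 * Y), ENNReal.ofReal (((m : ℝ) ^ 2) ^ r) *
          ENNReal.ofReal (pr w δ (m * y)) := by
        refine lintegral_mono fun y => ?_
        rw [← ENNReal.ofReal_mul (by positivity)]
        exact ENNReal.ofReal_le_ofReal (pr_nat_mul w hδ hm0 y)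
    _ = ENNReal.ofReal (((m : ℝ) ^ 2) ^ r) * (ENNReal.ofReal ((m : ℝ)⁻¹) *
          ∫⁻ y in Icc (m * Y) (2 * (m * Y)), ENNReal.ofReal (pr w δ y)) := by
        rw [lintegral_const_mul' _ _ ENNReal.ofReal_ne_top, hcv]
    _ ≤ ENNReal.ofReal (((m : ℝ) ^ 2) ^ r) * (ENNReal.ofReal ((m : ℝ)⁻¹) *
          ENNReal.ofReal (C * (2 * (m * Y)) ^ (β + ε) * δ ^ (-(2 * σ - 1 + β) - ε))) := by
        gcongr
        exact (lintegral_mono_set (Icc_subset_Icc_left hmY)).trans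
          (hb (2 * (m * Y)) δ (by linarith) hδ hδ1)
    _ = _ := by
        rw [← ENNReal.ofReal_mul (by positivity), ← ENNReal.ofReal_mul (by positivity)]
        congr 1
        have e1 : 2 * (m * Y) = (2 * m) * Y := by ring
        have e2 : Y ^ (β + ε) = Y ^ (1 - 2 * σ) * Y ^ (2 * σ - 1 + β + ε) := by
          rw [← Real.rpow_add hY0]
          congr 1
          ring
        have e3 : -(2 * σ - 1 + β) - ε = -(2 * σ - 1 + β + ε) := by ring
        rw [e1, Real.mul_rpow (by positivity) hY0.le, e2, e3, Real.div_rpow hY0.le hδ.le,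
          Real.rpow_neg hδ.le]
        ring

/-- the equivalence -/
theorem mom_iff {r : ℕ} {a : ℝ} {w : Fin r → ℝ} {c : ℕ → ℂ} (ha : 0 < a) (hw : ∀ j, 0 < w j)
    (hc : Tay a w c) {σ β : ℝ} (hσ : 1 / 2 ≤ σ) (hβ : 1 ≤ β) : MomB a w c σ β ↔ Crit' w σ β :=
  (mom_iff_crit ha hw hc hσ hβ).trans ⟨crit'_of_crit hβ, crit_of_crit' hβ⟩

/-- the criterion with real integrals -/
def CritR {r : ℕ} (w : Fin r → ℝ) (σ β : ℝ) : Prop :=
  ∀ ε : ℝ, 0 < ε → ∃ C : ℝ, ∀ Y δ : ℝ, 1 ≤ Y → 0 < δ → δ ≤ 1 →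
    ∫ y in (1 : ℝ)..Y, pr w δ y ≤ C * Y ^ (β + ε) * δ ^ (-(2 * σ - 1 + β) - ε)

lemma pr_integral {r : ℕ} (w : Fin r → ℝ) {δ : ℝ} (hδ : 0 < δ) {Y : ℝ} (hY : 1 ≤ Y) :
    ∫⁻ y in Icc 1 Y, ENNReal.ofReal (pr w δ y) =
      ENNReal.ofReal (∫ y in (1 : ℝ)..Y, pr w δ y) := by
  rw [intervalIntegral.integral_of_le hY, ← integral_Icc_eq_integral_Ioc,
    ofReal_integral_eq_lintegral_ofReal]
  · refine Measure.integrableOn_of_bounded (M := ((δ ^ 2)⁻¹) ^ r) (by simp)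
      (pr_meas w δ).aestronglyMeasurable (ae_of_all _ fun y => ?_)
    rw [Real.norm_of_nonneg (pr_nonneg _ _ _)]
    exact pr_le w hδ y
  · exact ae_of_all _ fun y => pr_nonneg _ _ _

theorem critR_iff {r : ℕ} {w : Fin r → ℝ} {σ β : ℝ} : CritR w σ β ↔ Crit' w σ β := by
  constructor
  · intro h ε hε
    obtain ⟨C, hb⟩ := h ε hε
    refine ⟨|C|, abs_nonneg _, fun Y δ hY hδ hδ1 => ?_⟩
    rw [pr_integral w hδ hY]
    refine ENNReal.ofReal_le_ofReal ((hb Y δ hY hδ hδ1).trans ?_)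
    have : 0 < Y := by linarith
    gcongr
    exact le_abs_self C
  · intro h ε hε
    obtain ⟨C, hC, hb⟩ := h ε hε
    refine ⟨C, fun Y δ hY hδ hδ1 => ?_⟩
    have h1 := hb Y δ hY hδ hδ1
    have hY0 : 0 < Y := by linarith
    rw [pr_integral w hδ hY, ENNReal.ofReal_le_ofReal_iff (by positivity)] at h1
    exact h1

end Pool.Agent.T6.H60.BD
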