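import Pool.Agent.T6.H60.BD.G

set_option autoImplicit false

/-!
# Barnes zeta functions and simultaneous approximation: part 2: the upper bound for the integral
-/

namespace Pool.Agent.T6.H60.BD

open Finset Filter Topology MeasureTheory
open Pool.Agent.T6.H60.BC

variable {r : ℕ} {w : Fin r → ℝ}

/-- the largest of the distances of the `w_j y` to the nearest integers -/
noncomputable def sm (w : Fin r → ℝ) (y : ℝ) : ℝ := ⨆ j, nd (w j * y)

lemma le_sm (w : Fin r → ℝ) (y : ℝ) (j : Fin r) : nd (w j * y) ≤ sm w y :=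
  le_ciSup (f := fun j => nd (w j * y)) (Set.finite_range _).bddAbove j

lemma sm_le (hr : 0 < r) {w : Fin r → ℝ} {y B : ℝ} (h : ∀ j, nd (w j * y) ≤ B) : sm w y ≤ B := by
  have : Nonempty (Fin r) := ⟨⟨0, hr⟩⟩
  exact ciSup_le h

lemma sm_exists (hr : 0 < r) (w : Fin r → ℝ) (y : ℝ) : ∃ j, nd (w j * y) = sm w y := by
  have : Nonempty (Fin r) := ⟨⟨0, hr⟩⟩
  exact exists_eq_ciSup_of_finite

lemma sm_sub (hr : 0 < r) (w : Fin r → ℝ) (y z : ℝ) : sm w (y - z) ≤ sm w y + sm w z := by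
  refine sm_le hr fun j => ?_
  rw [mul_sub]
  exact (nd_sub_le _ _).trans (add_le_add (le_sm w y j) (le_sm w z j))

/-- the lower bound of exponent `lam` for simultaneous approximation -/
def SimLow (w : Fin r → ℝ) (lam : ℝ) : Prop :=
  ∃ c : ℝ, 0 < c ∧ ∀ y : ℝ, 1 ≤ y → ∃ j, c * y ^ (-lam) ≤ nd (w j * y)

/-- the lower bound at the points `k / w_i` -/
lemma low_k (hw : ∀ j, 0 < w j) {lam : ℝ} (h : SimLow w lam) (i : Fin r) :
    ∃ c : ℝ, 0 < c ∧ ∀ k : ℕ, 1 ≤ k → c * (k : ℝ) ^ (-lam) ≤ sm w (k / w i) := by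
  obtain ⟨c, hc, h⟩ := h
  obtain ⟨m, hm⟩ := exists_nat_ge (w i)
  have hwi := hw i
  have hm0 : (0 : ℝ) < m := lt_of_lt_of_le hwi hm
  refine ⟨c / m * (m / w i) ^ (-lam), by positivity, fun k hk => ?_⟩
  have hk1 : (1 : ℝ) ≤ k := by exact_mod_cast hk
  have hk0 : (0 : ℝ) < k := by linarith
  have h1 : 1 ≤ (m : ℝ) * (k / w i) := by
    rw [← mul_div_assoc, le_div_iff₀ hwi]
    nlinarith
  obtain ⟨j, hj⟩ := h _ h1
  have h2 : w j * (m * (k / w i)) = m * (w j * (k / w i)) := by ring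
  rw [h2] at hj
  have h3 := hj.trans ((nd_nat_mul m _).trans
    (mul_le_mul_of_nonneg_left (le_sm w (k / w i) j) hm0.le))
  have h4 : ((m : ℝ) * (k / w i)) ^ (-lam) = (m / w i) ^ (-lam) * (k : ℝ) ^ (-lam) := by
    rw [← Real.mul_rpow (by positivity) hk0.le]
    congr 1
    ring
  rw [h4] at h3
  calc c / m * (m / w i) ^ (-lam) * (k : ℝ) ^ (-lam)
      = (c * ((m / w i) ^ (-lam) * (k : ℝ) ^ (-lam))) / m := by ring
    _ ≤ sm w (k / w i) := by
        rw [div_le_iff₀ hm0]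
        linarith

/-- the integral of a tent -/
lemma tent {l δ : ℝ} (hl : 0 < l) (hδ : 0 < δ) (k : ℝ) (n : ℕ) :
    ∫⁻ y, ENNReal.ofReal ((((max δ |l * y - k|) ^ 2)⁻¹) ^ (n + 1)) ≤
      ENNReal.ofReal (2 * Real.pi / l * (((δ ^ 2)⁻¹) ^ n * δ⁻¹)) := by
  have hpt : ∀ y : ℝ, (((max δ |l * y - k|) ^ 2)⁻¹) ^ (n + 1) ≤
      ((δ ^ 2)⁻¹) ^ n * (2 * (δ ^ 2)⁻¹) * (1 + ((l / δ) * (y - k / l)) ^ 2)⁻¹ := by
    intro y
    set X : ℝ := max δ |l * y - k| with hX
    have hX0 : 0 < X := lt_max_of_lt_left hδ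
    have h1 : (X ^ 2)⁻¹ ≤ (δ ^ 2)⁻¹ :=
      inv_anti₀ (by positivity) (pow_le_pow_left₀ hδ.le (le_max_left _ _) 2)
    have h2 : δ ^ 2 ≤ X ^ 2 := pow_le_pow_left₀ hδ.le (le_max_left _ _) 2
    have h3 : (l * y - k) ^ 2 ≤ X ^ 2 := by
      rw [← sq_abs (l * y - k)]
      exact pow_le_pow_left₀ (abs_nonneg _) (le_max_right _ _) 2
    have h4 : (1 + ((l / δ) * (y - k / l)) ^ 2) = (δ ^ 2 + (l * y - k) ^ 2) / δ ^ 2 := by
      field_simp
    have h5 : (X ^ 2)⁻¹ ≤ 2 * (δ ^ 2)⁻¹ * (1 + ((l / δ) * (y - k / l)) ^ 2)⁻¹ := by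
      rw [h4, inv_div]
      have h6 : 2 * (δ ^ 2)⁻¹ * (δ ^ 2 / (δ ^ 2 + (l * y - k) ^ 2)) =
          2 / (δ ^ 2 + (l * y - k) ^ 2) := by
        field_simp
      rw [h6, ← one_div, div_le_div_iff₀ (by positivity) (by positivity)]
      linarith
    calc ((X ^ 2)⁻¹) ^ (n + 1) = ((X ^ 2)⁻¹) ^ n * (X ^ 2)⁻¹ := pow_succ _ _
      _ ≤ ((δ ^ 2)⁻¹) ^ n * (2 * (δ ^ 2)⁻¹ * (1 + ((l / δ) * (y - k / l)) ^ 2)⁻¹) := by gcongr
      _ = _ := by ring
  have hi : Integrable fun y : ℝ => (1 + ((l / δ) * (y - k / l)) ^ 2)⁻¹ := by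
    have h1 := integrable_inv_one_add_sq.comp_mul_left' (R := l / δ) (by positivity)
    exact h1.comp_sub_right (k / l)
  have hI : ∫ y : ℝ, (1 + ((l / δ) * (y - k / l)) ^ 2)⁻¹ = δ / l * Real.pi := by
    rw [integral_sub_right_eq_self (fun y : ℝ => (1 + ((l / δ) * y) ^ 2)⁻¹) (k / l),
      Measure.integral_comp_mul_left (fun y : ℝ => (1 + y ^ 2)⁻¹) (l / δ),
      integral_univ_inv_one_add_sq, inv_div, abs_of_pos (by positivity), smul_eq_mul]
  calc _ ≤ ∫⁻ y, ENNReal.ofReal (((δ ^ 2)⁻¹) ^ n * (2 * (δ ^ 2)⁻¹) *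
        (1 + ((l / δ) * (y - k / l)) ^ 2)⁻¹) :=
        lintegral_mono fun y => ENNReal.ofReal_le_ofReal (hpt y)
    _ = ENNReal.ofReal (∫ y, ((δ ^ 2)⁻¹) ^ n * (2 * (δ ^ 2)⁻¹) *
        (1 + ((l / δ) * (y - k / l)) ^ 2)⁻¹) := by
        rw [ofReal_integral_eq_lintegral_ofReal (hi.const_mul _)
          (ae_of_all _ fun y => by positivity)]
    _ = _ := by
        rw [integral_const_mul, hI]
        congr 1
        field_simp

/-- the integral of a sum of tents -/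
lemma tents {l δ A B : ℝ} (hl : 0 < l) (hδ : 0 < δ) (hA : 0 ≤ A) (n N : ℕ) {Y : ℝ} (hY : 1 ≤ Y)
    {f : ℕ → ℝ} (hf : ∀ k, 0 ≤ f k) (hS : ∑ k ∈ Finset.Icc 1 N, f k ≤ B) :
    ∫⁻ y in Set.Icc 1 Y, ENNReal.ofReal (A +
      ∑ k ∈ Finset.Icc 1 N, f k * (((max δ |l * y - k|) ^ 2)⁻¹) ^ (n + 1)) ≤
      ENNReal.ofReal (A * Y + B * (2 * Real.pi / l * (((δ ^ 2)⁻¹) ^ n * δ⁻¹))) := by
  set D : ℝ := 2 * Real.pi / l * (((δ ^ 2)⁻¹) ^ n * δ⁻¹) with hD
  have hD0 : 0 ≤ D := by positivity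
  have hmeas : ∀ k : ℕ, Measurable fun y : ℝ =>
      ENNReal.ofReal ((((max δ |l * y - k|) ^ 2)⁻¹) ^ (n + 1)) := by
    intro k
    have h1 : Measurable fun y : ℝ => |l * y - k| := by
      have : Continuous fun y : ℝ => |l * y - k| := by fun_prop
      exact this.measurable
    exact ((((measurable_const.max h1).pow_const 2).inv).pow_const _).ennreal_ofReal
  have e1 : ∀ y : ℝ, ENNReal.ofReal (A +
      ∑ k ∈ Finset.Icc 1 N, f k * (((max δ |l * y - k|) ^ 2)⁻¹) ^ (n + 1)) =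
      ENNReal.ofReal A + ∑ k ∈ Finset.Icc 1 N,
        ENNReal.ofReal (f k) * ENNReal.ofReal ((((max δ |l * y - k|) ^ 2)⁻¹) ^ (n + 1)) := by
    intro y
    have h1 : ∀ k ∈ Finset.Icc 1 N, 0 ≤ f k * (((max δ |l * y - k|) ^ 2)⁻¹) ^ (n + 1) :=
      fun k _ => mul_nonneg (hf k) (by positivity)
    rw [ENNReal.ofReal_add hA (Finset.sum_nonneg h1), ENNReal.ofReal_sum_of_nonneg h1]
    congr 1
    refine Finset.sum_congr rfl fun k _ => ?_
    rw [ENNReal.ofReal_mul (hf k)]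
  simp only [e1]
  have hS0 : 0 ≤ ∑ k ∈ Finset.Icc 1 N, f k := Finset.sum_nonneg fun k _ => hf k
  rw [lintegral_add_left measurable_const, lintegral_const, Measure.restrict_apply_univ,
    Real.volume_Icc, lintegral_finsetSum _ fun k _ => (hmeas k).const_mul _,
    ENNReal.ofReal_add (by positivity) (by
      have : 0 ≤ B := hS0.trans hS
      positivity)]
  refine add_le_add ?_ ?_
  · rw [← ENNReal.ofReal_mul hA]
    apply ENNReal.ofReal_le_ofReal
    nlinarith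
  · calc ∑ k ∈ Finset.Icc 1 N, ∫⁻ y in Set.Icc 1 Y,
          ENNReal.ofReal (f k) * ENNReal.ofReal ((((max δ |l * y - k|) ^ 2)⁻¹) ^ (n + 1))
        ≤ ∑ k ∈ Finset.Icc 1 N, ENNReal.ofReal (f k) * ENNReal.ofReal D := by
          refine Finset.sum_le_sum fun k _ => ?_
          rw [lintegral_const_mul _ (hmeas k)]
          gcongr
          exact (setLIntegral_le_lintegral _ _).trans (tent hl hδ k n)
      _ = ENNReal.ofReal ((∑ k ∈ Finset.Icc 1 N, f k) * D) := by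
          rw [← Finset.sum_mul, ← ENNReal.ofReal_sum_of_nonneg fun k _ => hf k,
            ← ENNReal.ofReal_mul hS0]
      _ ≤ _ := by
          apply ENNReal.ofReal_le_ofReal
          gcongr

/-- the nearest integer of `l y` -/
lemma round_cases {l y : ℝ} (hl : 0 < l) (hy : 1 ≤ y) {N : ℕ} (hN : l * y + 1 ≤ N) :
    (l ≤ nd (l * y)) ∨ ∃ m ∈ Finset.Icc 1 N, nd (l * y) = |l * y - m| := by
  have hly : 0 < l * y := by positivity
  have hr := abs_sub_round (l * y)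
  rcases le_or_gt (round (l * y)) 0 with h0 | h0
  · left
    have h1 : round (l * y) = 0 := by
      apply le_antisymm h0
      by_contra hcon
      have h2 : round (l * y) ≤ -1 := by omega
      have h3 : ((round (l * y) : ℤ) : ℝ) ≤ -1 := by exact_mod_cast h2
      rw [abs_le] at hr
      linarith
    have h2 : nd (l * y) = l * y := by
      unfold nd
      rw [h1, Int.cast_zero, sub_zero, abs_of_pos hly]
    rw [h2]
    exact le_mul_of_one_le_right hl.le hy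
  · right
    obtain ⟨m, hm⟩ := Int.eq_ofNat_of_zero_le h0.le
    have hm1 : 1 ≤ m := by rw [hm] at h0; exact_mod_cast h0
    have hmr : ((round (l * y) : ℤ) : ℝ) = m := by rw [hm]; simp
    refine ⟨m, Finset.mem_Icc.2 ⟨hm1, ?_⟩, ?_⟩
    · have h1 : (m : ℝ) ≤ N := by
        rw [hmr, abs_le] at hr
        linarith
      exact_mod_cast h1
    · unfold nd; rw [hmr]

/-- the index with the smallest distance -/
lemma exists_min (hr : 0 < r) (w : Fin r → ℝ) (δ y : ℝ) :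
    ∃ i, ∀ j, max δ (nd (w i * y)) ≤ max δ (nd (w j * y)) := by
  obtain ⟨i, -, hi⟩ := Finset.exists_min_image Finset.univ
    (fun i : Fin r => max δ (nd (w i * y))) ⟨⟨0, hr⟩, Finset.mem_univ _⟩
  exact ⟨i, fun j => hi j (Finset.mem_univ j)⟩

/-- the trivial pointwise bound -/
lemma pt_triv {n : ℕ} {w : Fin (n + 1) → ℝ} (hw : ∀ j, 0 < w j) {δ y : ℝ} (hδ : 0 < δ)
    (hy : 1 ≤ y) {N : ℕ} (hN : ∀ i, w i * y + 1 ≤ N) :
    pr w δ y ≤ ∑ i, (((w i ^ 2)⁻¹) ^ (n + 1) + ∑ k ∈ Finset.Icc 1 N,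
      1 * (((max δ |w i * y - k|) ^ 2)⁻¹) ^ (n + 1)) := by
  obtain ⟨i, hi⟩ := exists_min (Nat.succ_pos n) w δ y
  have hB0 : 0 < max δ (nd (w i * y)) := lt_max_of_lt_left hδ
  have hnn : ∀ i : Fin (n + 1), 0 ≤ ((w i ^ 2)⁻¹) ^ (n + 1) + ∑ k ∈ Finset.Icc 1 N,
      1 * (((max δ |w i * y - k|) ^ 2)⁻¹) ^ (n + 1) := fun i => by positivity
  have h1 : pr w δ y ≤ (((max δ (nd (w i * y))) ^ 2)⁻¹) ^ (n + 1) := by
    unfold pr
    calc ∏ l, ((max δ (nd (w l * y))) ^ 2)⁻¹ ≤ ∏ _l : Fin (n + 1), ((max δ (nd (w i * y))) ^ 2)⁻¹ := by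
          refine Finset.prod_le_prod (fun l _ => by positivity) fun l _ => ?_
          exact inv_anti₀ (by positivity) (pow_le_pow_left₀ hB0.le (hi l) 2)
      _ = _ := by rw [Finset.prod_const, Finset.card_univ, Fintype.card_fin]
  refine h1.trans (le_trans ?_ (Finset.single_le_sum (f := fun i : Fin (n + 1) =>
    ((w i ^ 2)⁻¹) ^ (n + 1) + ∑ k ∈ Finset.Icc 1 N, 1 * (((max δ |w i * y - k|) ^ 2)⁻¹) ^ (n + 1))
    (fun i _ => hnn i) (Finset.mem_univ i)))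
  have hwi := hw i
  rcases round_cases (hw i) hy (hN i) with h2 | ⟨m, hm, h2⟩
  · have h3 : w i ≤ max δ (nd (w i * y)) := h2.trans (le_max_right _ _)
    have h4 : ((max δ (nd (w i * y))) ^ 2)⁻¹ ≤ (w i ^ 2)⁻¹ :=
      inv_anti₀ (by positivity) (pow_le_pow_left₀ hwi.le h3 2)
    have h5 : 0 ≤ ∑ k ∈ Finset.Icc 1 N, 1 * (((max δ |w i * y - k|) ^ 2)⁻¹) ^ (n + 1) :=
      Finset.sum_nonneg fun k _ => by positivity
    have h6 := pow_le_pow_left₀ (by positivity) h4 (n + 1)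
    linarith
  · rw [h2]
    have h3 := Finset.single_le_sum (f := fun k : ℕ =>
      1 * (((max δ |w i * y - k|) ^ 2)⁻¹) ^ (n + 1)) (s := Finset.Icc 1 N)
      (fun k _ => by positivity) hm
    have h4 : 0 ≤ ((w i ^ 2)⁻¹) ^ (n + 1) := by positivity
    simp only [one_mul] at h3 ⊢
    linarith

/-- the pointwise bound by simultaneous approximation -/
lemma pt_sim {n : ℕ} {w : Fin (n + 2) → ℝ} (hw : ∀ j, 0 < w j) {D : ℝ}
    (hD : ∀ i j, 1 + w j / w i ≤ D) {δ y : ℝ} (hδ : 0 < δ)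
    (hy : 1 ≤ y) {N : ℕ} (hN : ∀ i, w i * y + 1 ≤ N) :
    pr w δ y ≤ ∑ i, (((w i ^ 2)⁻¹) ^ (n + 2) + ∑ k ∈ Finset.Icc 1 N,
      (D ^ 2 * ((max δ (sm w (k / w i))) ^ 2)⁻¹) *
        (((max δ |w i * y - k|) ^ 2)⁻¹) ^ (n + 1)) := by
  obtain ⟨i, hi⟩ := exists_min (Nat.succ_pos (n + 1)) w δ y
  have hB : ∀ j, 0 < max δ (nd (w j * y)) := fun j => lt_max_of_lt_left hδ
  have hB0 := hB i
  have hD1 : 1 ≤ D := by
    have h1 := hD i i
    have h2 : 0 < w i / w i := div_pos (hw i) (hw i)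
    linarith
  have hnn : ∀ i : Fin (n + 2), 0 ≤ ((w i ^ 2)⁻¹) ^ (n + 2) + ∑ k ∈ Finset.Icc 1 N,
      (D ^ 2 * ((max δ (sm w (k / w i))) ^ 2)⁻¹) *
        (((max δ |w i * y - k|) ^ 2)⁻¹) ^ (n + 1) := fun i => by positivity
  refine le_trans ?_ (Finset.single_le_sum (f := fun i : Fin (n + 2) =>
    ((w i ^ 2)⁻¹) ^ (n + 2) + ∑ k ∈ Finset.Icc 1 N, (D ^ 2 * ((max δ (sm w (k / w i))) ^ 2)⁻¹) *
        (((max δ |w i * y - k|) ^ 2)⁻¹) ^ (n + 1))
    (fun i _ => hnn i) (Finset.mem_univ i))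
  have hwi := hw i
  rcases round_cases (hw i) hy (hN i) with h2 | ⟨m, hm, h2⟩
  · have h3 : w i ≤ max δ (nd (w i * y)) := h2.trans (le_max_right _ _)
    have h5 : 0 ≤ ∑ k ∈ Finset.Icc 1 N, (D ^ 2 * ((max δ (sm w (k / w i))) ^ 2)⁻¹) *
        (((max δ |w i * y - k|) ^ 2)⁻¹) ^ (n + 1) :=
      Finset.sum_nonneg fun k _ => by positivity
    have h6 : pr w δ y ≤ ((w i ^ 2)⁻¹) ^ (n + 2) := by
      unfold pr
      calc ∏ l, ((max δ (nd (w l * y))) ^ 2)⁻¹ ≤ ∏ _l : Fin (n + 2), (w i ^ 2)⁻¹ := by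
            refine Finset.prod_le_prod (fun l _ => by positivity) fun l _ => ?_
            exact inv_anti₀ (by positivity) (pow_le_pow_left₀ hwi.le (h3.trans (hi l)) 2)
        _ = _ := by rw [Finset.prod_const, Finset.card_univ, Fintype.card_fin]
    linarith
  · obtain ⟨j, hj⟩ := sm_exists (Nat.succ_pos (n + 1)) w (m / w i)
    have h3 : max δ (sm w (m / w i)) ≤ D * max δ (nd (w j * y)) := by
      refine max_le ?_ ?_
      · calc δ ≤ max δ (nd (w j * y)) := le_max_left _ _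
          _ ≤ _ := le_mul_of_one_le_left (hB j).le hD1
      · rw [← hj]
        have h4 := nd_add_le (w j * y) (w j * (m / w i) - w j * y)
        have h5 : w j * y + (w j * (m / w i) - w j * y) = w j * (m / w i) := by ring
        have h6 : w j * (m / w i) - w j * y = -(w j / w i * (w i * y - m)) := by field_simp; ring
        have h7 : 0 < w j / w i := div_pos (hw j) hwi
        rw [h5, h6, abs_neg, abs_mul, abs_of_pos h7, ← h2] at h4
        calc _ ≤ nd (w j * y) + w j / w i * nd (w i * y) := h4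
          _ ≤ max δ (nd (w j * y)) + w j / w i * max δ (nd (w j * y)) := by
            refine add_le_add (le_max_right _ _) ?_
            exact mul_le_mul_of_nonneg_left ((le_max_right _ _).trans (hi j)) h7.le
          _ = (1 + w j / w i) * max δ (nd (w j * y)) := by ring
          _ ≤ _ := mul_le_mul_of_nonneg_right (hD i j) (hB j).le
    have hM0 : 0 < max δ (sm w (m / w i)) := lt_max_of_lt_left hδ
    have h4 : ((max δ (nd (w j * y))) ^ 2)⁻¹ ≤ D ^ 2 * ((max δ (sm w (m / w i))) ^ 2)⁻¹ := by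
      have h5 := pow_le_pow_left₀ hM0.le h3 2
      rw [mul_pow] at h5
      have h6 := hB j
      rw [← div_eq_mul_inv, le_div_iff₀ (by positivity), inv_mul_le_iff₀ (by positivity)]
      linarith
    have h5 : pr w δ y ≤ ((max δ (nd (w j * y))) ^ 2)⁻¹ *
        (((max δ (nd (w i * y))) ^ 2)⁻¹) ^ (n + 1) := by
      unfold pr
      rw [← Finset.mul_prod_erase Finset.univ _ (Finset.mem_univ j)]
      refine mul_le_mul_of_nonneg_left ?_ (by positivity)
      calc ∏ l ∈ Finset.univ.erase j, ((max δ (nd (w l * y))) ^ 2)⁻¹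
          ≤ ∏ _l ∈ Finset.univ.erase j, ((max δ (nd (w i * y))) ^ 2)⁻¹ := by
            refine Finset.prod_le_prod (fun l _ => by positivity) fun l _ => ?_
            exact inv_anti₀ (by positivity) (pow_le_pow_left₀ hB0.le (hi l) 2)
        _ = _ := by
            rw [Finset.prod_const, Finset.card_erase_of_mem (Finset.mem_univ j), Finset.card_univ,
              Fintype.card_fin]
            rfl
    have h6 := Finset.single_le_sum (f := fun k : ℕ =>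
      (D ^ 2 * ((max δ (sm w (k / w i))) ^ 2)⁻¹) *
        (((max δ |w i * y - k|) ^ 2)⁻¹) ^ (n + 1)) (s := Finset.Icc 1 N)
      (fun k _ => by positivity) hm
    have h7 : 0 ≤ ((w i ^ 2)⁻¹) ^ (n + 2) := by positivity
    calc pr w δ y ≤ _ := h5
      _ ≤ (D ^ 2 * ((max δ (sm w (m / w i))) ^ 2)⁻¹) *
        (((max δ |w i * y - m|) ^ 2)⁻¹) ^ (n + 1) := by rw [h2]; gcongr
      _ ≤ _ := by linarith

end Pool.Agent.T6.H60.BD
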