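import Pool.Agent.T6.H60.BD.H

set_option autoImplicit false

/-!
# Barnes zeta functions and simultaneous approximation: part 3: the criterion
-/

namespace Pool.Agent.T6.H60.BD

open Finset Filter Topology MeasureTheory
open Pool.Agent.T6.H60.BC

/-- the range of the summation -/
lemma range_N {r : ℕ} {w : Fin r → ℝ} {W : ℝ} (hW1 : 1 ≤ W) (hW : ∀ j, w j ≤ W) {Y : ℝ}
    (hY : 1 ≤ Y) : ∃ N : ℕ, 1 ≤ N ∧ (∀ i, ∀ y ∈ Set.Icc 1 Y, w i * y + 1 ≤ N) ∧
      (N : ℝ) ≤ (W + 2) * Y := by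
  refine ⟨⌈W * Y⌉₊ + 1, by omega, fun i y hy => ?_, ?_⟩
  · have h1 : w i * y ≤ W * Y := mul_le_mul (hW i) hy.2 (by linarith [hy.1]) (by linarith)
    have h2 := Nat.le_ceil (W * Y)
    push_cast
    linarith
  · have h2 := Nat.ceil_lt_add_one (show 0 ≤ W * Y by positivity)
    push_cast
    nlinarith

lemma dpow {δ : ℝ} (hδ : 0 < δ) (n : ℕ) :
    ((δ ^ 2)⁻¹) ^ n * δ⁻¹ = δ ^ (-(2 * (n : ℝ) + 1)) := by
  have e2 : ((δ ^ 2)⁻¹) ^ n = δ ^ (-(2 * (n : ℝ))) := by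
    rw [Real.rpow_neg hδ.le, inv_pow, ← pow_mul]
    congr 1
    rw [← Real.rpow_natCast]
    congr 1
    push_cast
    ring
  rw [e2, ← Real.rpow_neg_one, ← Real.rpow_add hδ]
  congr 1
  ring

/-- the trivial bound -/
theorem int_triv {n : ℕ} {w : Fin (n + 1) → ℝ} (hw : ∀ j, 0 < w j) :
    ∃ C : ℝ, 0 ≤ C ∧ ∀ Y δ : ℝ, 1 ≤ Y → 0 < δ → δ ≤ 1 →
      ∫⁻ y in Set.Icc 1 Y, ENNReal.ofReal (pr w δ y) ≤
        ENNReal.ofReal (C * Y * δ ^ (-(2 * (n : ℝ) + 1))) := by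
  obtain ⟨W, hW1, hW⟩ := exists_up (w := w)
  refine ⟨∑ i, (((w i ^ 2)⁻¹) ^ (n + 1) + (W + 2) * (2 * Real.pi / w i)),
    Finset.sum_nonneg fun i _ => by have := hw i; positivity, fun Y δ hY hδ hδ1 => ?_⟩
  obtain ⟨N, hN0, hN1, hN2⟩ := range_N hW1 hW hY
  have hY0 : 0 < Y := by linarith
  have hmeas : ∀ i : Fin (n + 1), Measurable fun y : ℝ => ENNReal.ofReal (((w i ^ 2)⁻¹) ^ (n + 1) +
      ∑ k ∈ Finset.Icc 1 N, 1 * (((max δ |w i * y - k|) ^ 2)⁻¹) ^ (n + 1)) := by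
    intro i
    refine (measurable_const.add (Finset.measurable_fun_sum _ fun k _ => ?_)).ennreal_ofReal
    have h1 : Measurable fun y : ℝ => |w i * y - k| := by
      have : Continuous fun y : ℝ => |w i * y - k| := by fun_prop
      exact this.measurable
    exact ((((measurable_const.max h1).pow_const 2).inv).pow_const _).const_mul _
  have hd1 : 1 ≤ δ ^ (-(2 * (n : ℝ) + 1)) :=
    Real.one_le_rpow_of_pos_of_le_one_of_nonpos hδ hδ1 (by
      have : (0 : ℝ) ≤ n := Nat.cast_nonneg n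
      linarith)
  calc _ ≤ ∫⁻ y in Set.Icc 1 Y, ∑ i, ENNReal.ofReal (((w i ^ 2)⁻¹) ^ (n + 1) +
        ∑ k ∈ Finset.Icc 1 N, 1 * (((max δ |w i * y - k|) ^ 2)⁻¹) ^ (n + 1)) := by
        refine setLIntegral_mono' measurableSet_Icc fun y hy => ?_
        rw [← ENNReal.ofReal_sum_of_nonneg fun i _ => by positivity]
        exact ENNReal.ofReal_le_ofReal (pt_triv hw hδ hy.1 fun i => hN1 i y hy)
    _ = ∑ i, ∫⁻ y in Set.Icc 1 Y, ENNReal.ofReal (((w i ^ 2)⁻¹) ^ (n + 1) +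
        ∑ k ∈ Finset.Icc 1 N, 1 * (((max δ |w i * y - k|) ^ 2)⁻¹) ^ (n + 1)) :=
        lintegral_finsetSum _ fun i _ => hmeas i
    _ ≤ ∑ i, ENNReal.ofReal ((((w i ^ 2)⁻¹) ^ (n + 1) + (W + 2) * (2 * Real.pi / w i)) *
        (Y * δ ^ (-(2 * (n : ℝ) + 1)))) := by
        refine Finset.sum_le_sum fun i _ => ?_
        have hwi := hw i
        refine (tents (f := fun _ => 1) hwi hδ (by positivity) n N hY (fun _ => zero_le_one)
          (B := N) (by simp)).trans (ENNReal.ofReal_le_ofReal ?_)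
        rw [dpow hδ]
        have h1 : ((w i ^ 2)⁻¹) ^ (n + 1) * Y ≤
            ((w i ^ 2)⁻¹) ^ (n + 1) * Y * δ ^ (-(2 * (n : ℝ) + 1)) :=
          le_mul_of_one_le_right (by positivity) hd1
        have h2 : (N : ℝ) * (2 * Real.pi / w i * δ ^ (-(2 * (n : ℝ) + 1))) ≤
            ((W + 2) * Y) * (2 * Real.pi / w i * δ ^ (-(2 * (n : ℝ) + 1))) := by
          gcongr
        calc _ ≤ _ := add_le_add h1 h2
          _ = _ := by ring
    _ = _ := by
        rw [mul_assoc, Finset.sum_mul, ENNReal.ofReal_sum_of_nonneg fun i _ => by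
          have := hw i
          positivity]

/-- the bound by simultaneous approximation -/
theorem int_sim {n : ℕ} {w : Fin (n + 2) → ℝ} (hw : ∀ j, 0 < w j) {s : ℝ} (hs : 0 < s)
    (hs2 : s < 2) (H : SimLow w (1 / s)) {t : ℝ} (ht0 : 0 ≤ t) (ht1 : t ≤ 1) :
    ∃ C : ℝ, 0 ≤ C ∧ ∀ Y δ : ℝ, 1 ≤ Y → 0 < δ → δ ≤ 1 →
      ∫⁻ y in Set.Icc 1 Y, ENNReal.ofReal (pr w δ y) ≤
        ENNReal.ofReal (C * Y ^ (1 + t * ((2 - s) / s)) *
          δ ^ (-(2 * (n : ℝ) + 1) - (2 - s) * (1 - t))) := by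
  obtain ⟨W, hW1, hW⟩ := exists_up (w := w)
  obtain ⟨m₀, hm₀, hm₁, hm₂⟩ := exists_low hw
  set D : ℝ := 1 + W / m₀ with hD
  have hD0 : 0 < D := by positivity
  have hDij : ∀ i j, 1 + w j / w i ≤ D := by
    intro i j
    have : w j / w i ≤ W / m₀ := div_le_div₀ (by linarith) (hW j) hm₀ (hm₂ i)
    linarith
  have hK : ∀ i : Fin (n + 2), ∃ K : ℝ, 0 ≤ K ∧ ∀ (δ : ℝ) (N : ℕ), 0 < δ → δ ≤ 1 → 1 ≤ N →
      ∑ k ∈ Finset.Icc 1 N, ((max δ (sm w (k / w i))) ^ 2)⁻¹ ≤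
        K * (N : ℝ) ^ (1 + t * ((2 - s) / s)) * δ ^ (-((2 - s) * (1 - t))) := by
    intro i
    obtain ⟨c, hc, hlow⟩ := low_k hw H i
    refine sum_le' (f := fun k : ℕ => sm w (k / w i)) (fun k => ?_) (fun k l hkl => ?_) hc hs hs2
      hlow ht0 ht1
    · exact sm_le (Nat.succ_pos _) fun j => (nd_le_half _).trans (by norm_num)
    · have h1 : (((l - k : ℕ) : ℝ)) / w i = l / w i - k / w i := by
        push_cast [hkl.le]
        ring
      rw [h1]
      exact sm_sub (Nat.succ_pos _) w _ _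
  choose K hK0 hK using hK
  set e : ℝ := 1 + t * ((2 - s) / s) with he
  have he1 : 1 ≤ e := by
    have : 0 ≤ t * ((2 - s) / s) := mul_nonneg ht0 (div_nonneg (by linarith) hs.le)
    linarith
  set g : ℝ := (2 - s) * (1 - t) with hg
  have hg0 : 0 ≤ g := mul_nonneg (by linarith) (by linarith)
  refine ⟨∑ i, (((w i ^ 2)⁻¹) ^ (n + 2) + D ^ 2 * K i * (W + 2) ^ e * (2 * Real.pi / w i)),
    Finset.sum_nonneg fun i _ => by have := hw i; have := hK0 i; positivity,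
    fun Y δ hY hδ hδ1 => ?_⟩
  obtain ⟨N, hN0, hN1, hN2⟩ := range_N hW1 hW hY
  have hY0 : 0 < Y := by linarith
  have hn0 : (0 : ℝ) ≤ n := Nat.cast_nonneg n
  have hmeas : ∀ i : Fin (n + 2), Measurable fun y : ℝ => ENNReal.ofReal (((w i ^ 2)⁻¹) ^ (n + 2) +
      ∑ k ∈ Finset.Icc 1 N, (D ^ 2 * ((max δ (sm w (k / w i))) ^ 2)⁻¹) *
        (((max δ |w i * y - k|) ^ 2)⁻¹) ^ (n + 1)) := by
    intro i
    refine (measurable_const.add (Finset.measurable_fun_sum _ fun k _ => ?_)).ennreal_ofReal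
    have h1 : Measurable fun y : ℝ => |w i * y - k| := by
      have : Continuous fun y : ℝ => |w i * y - k| := by fun_prop
      exact this.measurable
    exact ((((measurable_const.max h1).pow_const 2).inv).pow_const _).const_mul _
  have hd1 : 1 ≤ δ ^ (-(2 * (n : ℝ) + 1) - g) :=
    Real.one_le_rpow_of_pos_of_le_one_of_nonpos hδ hδ1 (by linarith)
  have hYe : Y ≤ Y ^ e := by
    calc Y = Y ^ (1 : ℝ) := (Real.rpow_one Y).symm
      _ ≤ Y ^ e := Real.rpow_le_rpow_of_exponent_le hY he1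
  calc _ ≤ ∫⁻ y in Set.Icc 1 Y, ∑ i, ENNReal.ofReal (((w i ^ 2)⁻¹) ^ (n + 2) +
        ∑ k ∈ Finset.Icc 1 N, (D ^ 2 * ((max δ (sm w (k / w i))) ^ 2)⁻¹) *
        (((max δ |w i * y - k|) ^ 2)⁻¹) ^ (n + 1)) := by
        refine setLIntegral_mono' measurableSet_Icc fun y hy => ?_
        rw [← ENNReal.ofReal_sum_of_nonneg fun i _ => by positivity]
        exact ENNReal.ofReal_le_ofReal (pt_sim hw hDij hδ hy.1 fun i => hN1 i y hy)
    _ = ∑ i, ∫⁻ y in Set.Icc 1 Y, ENNReal.ofReal (((w i ^ 2)⁻¹) ^ (n + 2) +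
        ∑ k ∈ Finset.Icc 1 N, (D ^ 2 * ((max δ (sm w (k / w i))) ^ 2)⁻¹) *
        (((max δ |w i * y - k|) ^ 2)⁻¹) ^ (n + 1)) :=
        lintegral_finsetSum _ fun i _ => hmeas i
    _ ≤ ∑ i, ENNReal.ofReal ((((w i ^ 2)⁻¹) ^ (n + 2) +
        D ^ 2 * K i * (W + 2) ^ e * (2 * Real.pi / w i)) *
        (Y ^ e * δ ^ (-(2 * (n : ℝ) + 1) - g))) := by
        refine Finset.sum_le_sum fun i _ => ?_
        have hwi := hw i
        have hKi := hK0 i
        refine (tents (f := fun k : ℕ => D ^ 2 * ((max δ (sm w (k / w i))) ^ 2)⁻¹) hwi hδ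
          (by positivity) n N hY (fun _ => by positivity)
          (B := D ^ 2 * (K i * (N : ℝ) ^ e * δ ^ (-g)))
          (by
            rw [← Finset.mul_sum]
            exact mul_le_mul_of_nonneg_left (hK i δ N hδ hδ1 hN0) (by positivity))).trans
          (ENNReal.ofReal_le_ofReal ?_)
        rw [dpow hδ]
        have h1 : ((w i ^ 2)⁻¹) ^ (n + 2) * Y ≤
            ((w i ^ 2)⁻¹) ^ (n + 2) * (Y ^ e * δ ^ (-(2 * (n : ℝ) + 1) - g)) := by
          have h2 : Y * 1 ≤ Y ^ e * δ ^ (-(2 * (n : ℝ) + 1) - g) :=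
            mul_le_mul hYe hd1 zero_le_one (by positivity)
          rw [mul_one] at h2
          gcongr
        have h2 : (N : ℝ) ^ e ≤ (W + 2) ^ e * Y ^ e := by
          rw [← Real.mul_rpow (by positivity) hY0.le]
          exact Real.rpow_le_rpow (by positivity) hN2 (by linarith)
        have h3 : δ ^ (-(2 * (n : ℝ) + 1) - g) = δ ^ (-g) * δ ^ (-(2 * (n : ℝ) + 1)) := by
          rw [← Real.rpow_add hδ]
          congr 1
          ring
        calc _ ≤ ((w i ^ 2)⁻¹) ^ (n + 2) * (Y ^ e * δ ^ (-(2 * (n : ℝ) + 1) - g)) +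
              D ^ 2 * (K i * ((W + 2) ^ e * Y ^ e) * δ ^ (-g)) *
                (2 * Real.pi / w i * δ ^ (-(2 * (n : ℝ) + 1))) := by gcongr
          _ = _ := by rw [h3]; ring
    _ = _ := by
        rw [mul_assoc, Finset.sum_mul, ENNReal.ofReal_sum_of_nonneg fun i _ => by
          have := hw i
          have := hK0 i
          positivity]

end Pool.Agent.T6.H60.BD
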