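import Pool.Agent.T6.H60.BD.K

set_option autoImplicit false

/-!
# Barnes zeta functions and simultaneous approximation: part 4: the equivalence
-/

namespace Pool.Agent.T6.H60.BD

open Finset Filter Topology MeasureTheory
open Pool.Agent.T6.H60.BC

/-- a bound of the right shape gives the criterion -/
lemma crit_of_bound {r : ℕ} {w : Fin r → ℝ} {σ β ε e g C : ℝ}
    (hC : 0 ≤ C) (hb : ∀ Y δ : ℝ, 1 ≤ Y → 0 < δ → δ ≤ 1 →
      ∫⁻ y in Set.Icc 1 Y, ENNReal.ofReal (pr w δ y) ≤ ENNReal.ofReal (C * Y ^ e * δ ^ (-g)))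
    (he : e ≤ β + ε) (hg : g ≤ 2 * σ - 1 + β + ε) :
    ∃ C : ℝ, 0 ≤ C ∧ ∀ Y δ : ℝ, 1 ≤ Y → 0 < δ → δ ≤ 1 →
      ∫⁻ y in Set.Icc 1 Y, ENNReal.ofReal (pr w δ y) ≤
        ENNReal.ofReal (C * Y ^ (β + ε) * δ ^ (-(2 * σ - 1 + β) - ε)) := by
  refine ⟨C, hC, fun Y δ hY hδ hδ1 => (hb Y δ hY hδ hδ1).trans (ENNReal.ofReal_le_ofReal ?_)⟩
  have hY0 : 0 < Y := by linarith
  have h1 : Y ^ e ≤ Y ^ (β + ε) := Real.rpow_le_rpow_of_exponent_le hY he
  have h2 : δ ^ (-g) ≤ δ ^ (-(2 * σ - 1 + β) - ε) :=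
    Real.rpow_le_rpow_of_exponent_ge hδ hδ1 (by linarith)
  gcongr

/-- simultaneous approximation of bounded quality implies the criterion -/
theorem crit_of_sim {r : ℕ} {w : Fin r → ℝ} (hw : ∀ j, 0 < w j) {σ β : ℝ} (hσ : 1 / 2 ≤ σ)
    (hβ : 1 ≤ β) (hreg : 2 * ((r : ℝ) - σ) ≤ β + 2)
    (H : ∀ lam : ℝ, 0 < lam → β < lam * (2 * (r - σ) - β) → SimLow w lam) : Crit' w σ β := by
  intro ε hε
  obtain ⟨A, hA⟩ : ∃ A, A = 2 * ((r : ℝ) - σ) - β := ⟨_, rfl⟩
  rw [← hA] at H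
  rcases Nat.eq_zero_or_pos r with h0 | h0
  · subst h0
    refine crit_of_bound (C := 1) (e := 1) (g := 0) zero_le_one (fun Y δ hY hδ hδ1 => ?_)
      (by linarith) (by linarith)
    have h1 : ∀ y, pr w δ y = 1 := fun y => by unfold pr; simp
    simp only [h1]
    rw [lintegral_const, Measure.restrict_apply_univ, Real.volume_Icc, ← ENNReal.ofReal_mul
      zero_le_one]
    apply ENNReal.ofReal_le_ofReal
    simp
  · rcases le_or_gt A ε with hAε | hAε
    · obtain ⟨n, rfl⟩ : ∃ n, r = n + 1 := ⟨r - 1, by omega⟩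
      obtain ⟨C, hC, hb⟩ := int_triv hw
      refine crit_of_bound (C := C) (e := 1) (g := 2 * (n : ℝ) + 1) hC (fun Y δ hY hδ hδ1 => ?_)
        (by linarith) (by push_cast at hA; linarith)
      rw [Real.rpow_one]
      exact hb Y δ hY hδ hδ1
    · have hr2 : 2 ≤ r := by
        by_contra hcon
        have h1 : r = 1 := by omega
        subst h1
        push_cast at hA
        linarith
      obtain ⟨n, rfl⟩ : ∃ n, r = n + 2 := ⟨r - 2, by omega⟩
      set s : ℝ := (A - ε) / β with hs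
      have hβ0 : 0 < β := by linarith
      have hs0 : 0 < s := div_pos (by linarith) hβ0
      have hsβ : s * β = A - ε := by rw [hs]; field_simp
      have hA2 : A ≤ 2 := by linarith
      have hs2 : s < 2 := by
        rw [hs, div_lt_iff₀ hβ0]
        nlinarith
      have hH : SimLow w (1 / s) := by
        refine H (1 / s) (by positivity) ?_
        rw [one_div, inv_mul_eq_div, lt_div_iff₀ hs0]
        linarith
      set t : ℝ := (β - 1) * s / (2 - s) with ht
      have h2s : 0 < 2 - s := by linarith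
      have ht0 : 0 ≤ t := div_nonneg (mul_nonneg (by linarith) hs0.le) h2s.le
      have ht1 : t ≤ 1 := by
        rw [ht, div_le_one h2s]
        linarith
      obtain ⟨C, hC, hb⟩ := int_sim hw hs0 hs2 hH ht0 ht1
      have e1 : 1 + t * ((2 - s) / s) = β := by
        rw [ht]
        field_simp
        ring
      have e2 : (2 - s) * (1 - t) = 2 - s * β := by
        rw [ht]
        field_simp
        ring
      refine crit_of_bound (C := C) (e := β) (g := 2 * (n : ℝ) + 1 + (2 - s * β)) hC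
        (fun Y δ hY hδ hδ1 => ?_) (by linarith) (by rw [hsβ, hA]; push_cast; linarith)
      have h1 := hb Y δ hY hδ hδ1
      rw [e1, e2] at h1
      have e3 : -(2 * (n : ℝ) + 1) - (2 - s * β) = -(2 * (n : ℝ) + 1 + (2 - s * β)) := by ring
      rwa [e3] at h1

/-- the criterion implies that simultaneous approximation has bounded quality -/
theorem sim_of_crit {r : ℕ} {w : Fin r → ℝ} (hw : ∀ j, 0 < w j) {σ β : ℝ} (hβ : 1 ≤ β)
    (hC : CritR w σ β) {lam : ℝ} (hl : 0 < lam) (h : β < lam * (2 * (r - σ) - β)) :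
    SimLow w lam := by
  by_contra hcon
  obtain ⟨A, hA⟩ : ∃ A, A = 2 * ((r : ℝ) - σ) - β := ⟨_, rfl⟩
  rw [← hA] at h
  set ε : ℝ := (lam * A - β) / (2 * (1 + lam)) with hε
  have hε0 : 0 < ε := div_pos (by linarith) (by linarith)
  have hεe : ε * (2 * (1 + lam)) = lam * A - β := by rw [hε]; field_simp
  have hkey : β + ε ≤ lam * (A - ε) := by nlinarith
  have hAε : 0 < A - ε := by
    have h1 : 0 < lam * (A - ε) := by linarith
    exact pos_of_mul_pos_right h1 hl.le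
  obtain ⟨C, hC⟩ := hC ε hε0
  obtain ⟨W, hW1, hW⟩ := exists_up (w := w)
  set κ : ℝ := (((1 + W) ^ 2)⁻¹) ^ r with hκ
  have hκ0 : 0 < κ := by positivity
  set K : ℝ := |C| * 2 ^ (β + ε) with hK
  have hK0 : 0 ≤ K := by positivity
  -- choice of c
  set c : ℝ := min 1 ((κ / (2 * (K + 1))) ^ (1 / (A - ε))) with hc
  have hc0 : 0 < c := lt_min one_pos (by positivity)
  have hc1 : c ≤ 1 := min_le_left _ _
  have hcA : K * c ^ (A - ε) < κ := by
    have h1 : c ^ (A - ε) ≤ κ / (2 * (K + 1)) := by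
      calc c ^ (A - ε) ≤ ((κ / (2 * (K + 1))) ^ (1 / (A - ε))) ^ (A - ε) :=
            Real.rpow_le_rpow hc0.le (min_le_right _ _) hAε.le
        _ = κ / (2 * (K + 1)) := by
            rw [← Real.rpow_mul (by positivity), one_div_mul_cancel hAε.ne', Real.rpow_one]
    calc K * c ^ (A - ε) ≤ K * (κ / (2 * (K + 1))) := by gcongr
      _ < κ := by
        rw [← mul_div_assoc, div_lt_iff₀ (by positivity)]
        nlinarith
  obtain ⟨y₀, hy₀, hnd⟩ : ∃ y : ℝ, 1 ≤ y ∧ ∀ j, nd (w j * y) < c * y ^ (-lam) := by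
    by_contra h2
    apply hcon
    refine ⟨c, hc0, fun y hy => ?_⟩
    by_contra h3
    exact h2 ⟨y, hy, fun j => by
      by_contra h4
      exact h3 ⟨j, not_lt.1 h4⟩⟩
  have hy₀0 : 0 < y₀ := by linarith
  set δ : ℝ := c * y₀ ^ (-lam) with hδ
  have hδ0 : 0 < δ := by positivity
  have hδ1 : δ ≤ 1 := by
    have h1 : y₀ ^ (-lam) ≤ 1 := Real.rpow_le_one_of_one_le_of_nonpos hy₀ (by linarith)
    calc δ ≤ 1 * 1 := mul_le_mul hc1 h1 (by positivity) zero_le_one
      _ = 1 := mul_one 1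
  have hpr : ∀ y ∈ Set.Icc y₀ (y₀ + δ), κ * (δ ^ (-(2 * (r : ℝ)))) ≤ pr w δ y := by
    intro y hy
    have h1 : ∀ l, max δ (nd (w l * y)) ≤ (1 + W) * δ := by
      intro l
      refine max_le ?_ ?_
      · nlinarith
      · have h2 := nd_add_le (w l * y₀) (w l * (y - y₀))
        have h3 : w l * y₀ + w l * (y - y₀) = w l * y := by ring
        have h4 := hnd l
        have h5 : |w l * (y - y₀)| ≤ W * δ := by
          rw [abs_mul, abs_of_pos (hw l), abs_of_nonneg (by linarith [hy.1])]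
          exact mul_le_mul (hW l) (by linarith [hy.2]) (by linarith [hy.1]) (by linarith)
        rw [h3] at h2
        linarith
    have h2 : κ * (δ ^ (-(2 * (r : ℝ)))) = ∏ _l : Fin r, ((((1 + W) * δ) ^ 2)⁻¹) := by
      rw [Finset.prod_const, Finset.card_univ, Fintype.card_fin, mul_pow, mul_inv, mul_pow, hκ]
      congr 1
      rw [Real.rpow_neg hδ0.le, inv_pow, ← pow_mul]
      congr 1
      rw [← Real.rpow_natCast]
      congr 1
      push_cast
      ring
    rw [h2]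
    unfold pr
    refine Finset.prod_le_prod (fun l _ => by positivity) fun l _ => ?_
    have h0 : 0 < max δ (nd (w l * y)) := lt_max_of_lt_left hδ0
    exact inv_anti₀ (by positivity) (pow_le_pow_left₀ h0.le (h1 l) 2)
  have hint : δ * (κ * (δ ^ (-(2 * (r : ℝ))))) ≤ ∫ y in (1 : ℝ)..(y₀ + 1), pr w δ y := by
    have hI : ∀ a b : ℝ, IntervalIntegrable (fun y => pr w δ y) volume a b := by
      intro a b
      rw [intervalIntegrable_iff]
      refine Measure.integrableOn_of_bounded (M := ((δ ^ 2)⁻¹) ^ r) (by simp)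
        (pr_meas w δ).aestronglyMeasurable (ae_of_all _ fun y => ?_)
      rw [Real.norm_of_nonneg (pr_nonneg _ _ _)]
      exact pr_le w hδ0 y
    have h1 : ∫ y in y₀..(y₀ + δ), (κ * (δ ^ (-(2 * (r : ℝ))))) ≤ ∫ y in y₀..(y₀ + δ), pr w δ y :=
      intervalIntegral.integral_mono_on (by linarith) intervalIntegrable_const (hI _ _) hpr
    rw [intervalIntegral.integral_const, smul_eq_mul, add_sub_cancel_left] at h1
    refine h1.trans ?_
    exact intervalIntegral.integral_mono_interval hy₀ (by linarith) (by linarith)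
      (ae_of_all _ fun y => pr_nonneg _ _ _) (hI _ _)
  have h1 := hint.trans (hC (y₀ + 1) δ (by linarith) hδ0 hδ1)
  have h2 : C * (y₀ + 1) ^ (β + ε) * δ ^ (-(2 * σ - 1 + β) - ε) ≤
      |C| * (2 * y₀) ^ (β + ε) * δ ^ (-(2 * σ - 1 + β) - ε) := by
    have h4 : (y₀ + 1) ^ (β + ε) ≤ (2 * y₀) ^ (β + ε) :=
      Real.rpow_le_rpow (by linarith) (by linarith) (by linarith)
    gcongr
    exact le_abs_self C
  have h3 := h1.trans h2
  have h4 : δ * (κ * (δ ^ (-(2 * (r : ℝ))))) = κ * δ ^ (1 - 2 * (r : ℝ)) := by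
    rw [sub_eq_add_neg, Real.rpow_add hδ0, Real.rpow_one]
    ring
  rw [h4] at h3
  have h5 : δ ^ (1 - 2 * (r : ℝ)) * δ ^ (2 * (r : ℝ) - 1) = 1 := by
    rw [← Real.rpow_add hδ0]
    have : 1 - 2 * (r : ℝ) + (2 * r - 1) = 0 := by ring
    rw [this, Real.rpow_zero]
  have h6 : δ ^ (-(2 * σ - 1 + β) - ε) * δ ^ (2 * (r : ℝ) - 1) = δ ^ (A - ε) := by
    rw [← Real.rpow_add hδ0]
    congr 1
    rw [hA]
    ring
  have h7 : κ ≤ |C| * (2 * y₀) ^ (β + ε) * δ ^ (A - ε) := by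
    have h8 : 0 < δ ^ (2 * (r : ℝ) - 1) := by positivity
    calc κ = κ * δ ^ (1 - 2 * (r : ℝ)) * δ ^ (2 * (r : ℝ) - 1) := by rw [mul_assoc, h5, mul_one]
      _ ≤ (|C| * (2 * y₀) ^ (β + ε) * δ ^ (-(2 * σ - 1 + β) - ε)) * δ ^ (2 * (r : ℝ) - 1) := by
          gcongr
      _ = _ := by rw [mul_assoc, h6]
  have h8 : |C| * (2 * y₀) ^ (β + ε) * δ ^ (A - ε) =
      K * c ^ (A - ε) * y₀ ^ (β + ε - lam * (A - ε)) := by
    rw [hδ, Real.mul_rpow (by norm_num) hy₀0.le, Real.mul_rpow hc0.le (by positivity),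
      ← Real.rpow_mul hy₀0.le, hK, sub_eq_add_neg (β + ε),
      Real.rpow_add hy₀0 (β + ε) (-(lam * (A - ε)))]
    have e1 : -lam * (A - ε) = -(lam * (A - ε)) := by ring
    rw [e1]
    ring
  have h9 : y₀ ^ (β + ε - lam * (A - ε)) ≤ 1 :=
    Real.rpow_le_one_of_one_le_of_nonpos hy₀ (by linarith)
  have h10 : K * c ^ (A - ε) * y₀ ^ (β + ε - lam * (A - ε)) ≤ K * c ^ (A - ε) :=
    mul_le_of_le_one_right (by positivity) h9
  linarith

/-- the exact growth exponent -/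
theorem crit_sim_iff {r : ℕ} {w : Fin r → ℝ} (hw : ∀ j, 0 < w j) {σ β : ℝ} (hσ : 1 / 2 ≤ σ)
    (hβ : 1 ≤ β) (hreg : 2 * ((r : ℝ) - σ) ≤ β + 2) :
    CritR w σ β ↔ ∀ lam : ℝ, 0 < lam → β < lam * (2 * (r - σ) - β) → SimLow w lam :=
  ⟨fun h _ hl hlam => sim_of_crit hw hβ h hl hlam,
    fun h => critR_iff.2 (crit_of_sim hw hσ hβ hreg h)⟩

end Pool.Agent.T6.H60.BD
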