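import Pool.Agent.T6.H60.BD.L

set_option autoImplicit false

/-!
# Barnes zeta functions and simultaneous approximation: part 5: weights of dimension two
-/

namespace Pool.Agent.T6.H60.BD

open Finset Filter Topology MeasureTheory
open Pool.Agent.T6.H60.BC

/-- a number which is not approximable to order `q` -/
lemma lower_of_not {q θ : ℝ} (hθ : Irrational θ) (h : ¬ LiouvilleWith q θ) :
    ∃ c : ℝ, 0 < c ∧ ∀ n : ℕ, 1 ≤ n → c * (n : ℝ) ^ (1 - q) ≤ nd (θ * n) := by
  have h1 : ∀ᶠ n : ℕ in atTop, ∀ m : ℤ, ¬ (θ ≠ m / n ∧ |θ - m / n| < 1 / (n : ℝ) ^ q) := by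
    have h2 : ¬ ∃ᶠ n : ℕ in atTop, ∃ m : ℤ, θ ≠ m / n ∧ |θ - m / n| < 1 / (n : ℝ) ^ q :=
      fun h3 => h ⟨1, h3⟩
    rw [Filter.not_frequently] at h2
    filter_upwards [h2] with n hn m hm
    exact hn ⟨m, hm⟩
  obtain ⟨N, hN⟩ := eventually_atTop.1 h1
  have h2 : ∀ n : ℕ, N ≤ n → 1 ≤ n → (n : ℝ) ^ (1 - q) ≤ nd (θ * n) := by
    intro n hn hn1
    have hnp : (0 : ℝ) < n := by exact_mod_cast hn1
    have h3 := hN n hn (round (θ * n))
    have h4 : θ ≠ (round (θ * n) : ℝ) / n := by
      intro h5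
      apply hθ
      exact ⟨(round (θ * n) : ℚ) / n, by push_cast; exact h5.symm⟩
    have h5 : 1 / (n : ℝ) ^ q ≤ |θ - (round (θ * n) : ℝ) / n| := by
      by_contra h6
      exact h3 ⟨h4, not_le.1 h6⟩
    have h6 : θ - (round (θ * n) : ℝ) / n = (θ * n - round (θ * n)) / n := by field_simp
    rw [h6, abs_div, Nat.abs_cast, div_le_div_iff₀ (by positivity) hnp] at h5
    unfold nd
    rw [Real.rpow_sub hnp, Real.rpow_one, div_le_iff₀ (by positivity)]
    linarith
  have h3 : ∀ N : ℕ, ∃ c : ℝ, 0 < c ∧ ∀ n : ℕ, n < N → 1 ≤ n →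
      c * (n : ℝ) ^ (1 - q) ≤ nd (θ * n) := by
    intro N
    induction N with
    | zero => exact ⟨1, one_pos, fun n hn => absurd hn (Nat.not_lt_zero n)⟩
    | succ N ih =>
      obtain ⟨c, hc, h⟩ := ih
      rcases Nat.eq_zero_or_pos N with h0 | h0
      · refine ⟨c, hc, fun n hn hn1 => ?_⟩
        omega
      · have hNp : (0 : ℝ) < N := by exact_mod_cast h0
        have hp : 0 < nd (θ * N) := nd_pos (hθ.mul_natCast (by omega))
        refine ⟨min c (nd (θ * N) / (N : ℝ) ^ (1 - q)), lt_min hc (by positivity),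
          fun n hn hn1 => ?_⟩
        rcases Nat.lt_succ_iff_lt_or_eq.1 hn with h4 | h4
        · calc _ ≤ c * (n : ℝ) ^ (1 - q) := by gcongr; exact min_le_left _ _
            _ ≤ _ := h n h4 hn1
        · rw [h4]
          calc _ ≤ nd (θ * N) / (N : ℝ) ^ (1 - q) * (N : ℝ) ^ (1 - q) := by
                gcongr; exact min_le_right _ _
            _ = _ := by field_simp
  obtain ⟨c, hc, h4⟩ := h3 N
  refine ⟨min c 1, lt_min hc one_pos, fun n hn1 => ?_⟩
  rcases lt_or_ge n N with h5 | h5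
  · calc _ ≤ c * (n : ℝ) ^ (1 - q) := by gcongr; exact min_le_left _ _
      _ ≤ _ := h4 n h5 hn1
  · calc _ ≤ 1 * (n : ℝ) ^ (1 - q) := by gcongr; exact min_le_right _ _
      _ ≤ _ := by rw [one_mul]; exact h2 n h5 hn1

/-- Dirichlet's theorem -/
lemma liouville_two {θ : ℝ} (hθ : Irrational θ) : LiouvilleWith 2 θ := by
  by_contra hcon
  obtain ⟨c, hc, h⟩ := lower_of_not hθ (q := 2) (fun h => hcon h)
  have hfin : ∀ K : ℕ, ∃ d : ℝ, 0 < d ∧ ∀ k : ℕ, 1 ≤ k → k ≤ K → d ≤ nd (θ * k) := by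
    intro K
    induction K with
    | zero => exact ⟨1, one_pos, fun k hk hk' => by omega⟩
    | succ K ih =>
      obtain ⟨d, hd, h⟩ := ih
      have hp : 0 < nd (θ * (K + 1 : ℕ)) := nd_pos (hθ.mul_natCast (by omega))
      refine ⟨min d (nd (θ * (K + 1 : ℕ))), lt_min hd hp, fun k hk hk' => ?_⟩
      rcases Nat.lt_or_ge K k with h1 | h1
      · have : k = K + 1 := by omega
        rw [this]
        exact min_le_right _ _
      · exact (min_le_left _ _).trans (h k hk h1)
  apply hcon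
  refine ⟨1, ?_⟩
  rw [frequently_atTop]
  intro K
  obtain ⟨d, hd, hK⟩ := hfin K
  obtain ⟨n, hn⟩ := exists_nat_gt (1 / d)
  have hd' : 0 < 1 / d := by positivity
  have hn0 : 0 < n := by
    have : (0 : ℝ) < n := hd'.trans hn
    exact_mod_cast this
  obtain ⟨k, hk0, hkn, hk⟩ := Real.exists_nat_abs_mul_sub_round_le θ hn0
  have hkθ : nd (θ * k) ≤ 1 / ((n : ℝ) + 1) := by
    unfold nd
    rw [mul_comm θ]
    exact hk
  have hlt : 1 / ((n : ℝ) + 1) < d := by
    rw [div_lt_iff₀ (by positivity)]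
    rw [div_lt_iff₀ hd] at hn
    nlinarith
  have hKk : K ≤ k := by
    by_contra h1
    have := hK k hk0 (by omega)
    linarith
  have hkp : (0 : ℝ) < k := by exact_mod_cast hk0
  refine ⟨k, hKk, round (θ * k), ?_, ?_⟩
  · intro h5
    apply hθ
    exact ⟨(round (θ * k) : ℚ) / k, by push_cast; exact h5.symm⟩
  · have h6 : θ - (round (θ * k) : ℝ) / k = (θ * k - round (θ * k)) / k := by field_simp
    rw [h6, abs_div, Nat.abs_cast]
    have h7 : |θ * k - round (θ * k)| < 1 / k := by
      calc |θ * k - round (θ * k)| = nd (θ * k) := rfl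
        _ ≤ 1 / ((n : ℝ) + 1) := hkθ
        _ < 1 / k := by
          apply one_div_lt_one_div_of_lt hkp
          have : (k : ℝ) ≤ n := by exact_mod_cast hkn
          linarith
    calc |θ * k - round (θ * k)| / k < (1 / k) / k := by gcongr
      _ = 1 / (k : ℝ) ^ (2 : ℝ) := by
        rw [Real.rpow_two]
        field_simp

variable {r : ℕ} {w : Fin r → ℝ}

/-- the weights are rational combinations of two of them -/
lemma comb (hw : ∀ j, 0 < w j) (hd : Module.finrank ℚ (Submodule.span ℚ (Set.range w)) = 2)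
    {i j : Fin r} (hij : Irrational (w j / w i)) :
    ∃ (M : ℕ) (A B : Fin r → ℤ), 1 ≤ M ∧ ∀ l, (M : ℝ) * w l = A l * w i + B l * w j := by
  set V := Submodule.span ℚ (Set.range w) with hV
  have : FiniteDimensional ℚ V := FiniteDimensional.span_of_finite ℚ (Set.finite_range w)
  have hmem : ∀ l, w l ∈ V := fun l => Submodule.subset_span (Set.mem_range_self l)
  set v : Fin 2 → V := ![⟨w i, hmem i⟩, ⟨w j, hmem j⟩] with hv
  have hli : LinearIndependent ℚ v := by
    rw [hv, LinearIndependent.pair_iff]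
    intro s t hst
    have h1 : (s : ℝ) * w i + (t : ℝ) * w j = 0 := by
      have h2 := congrArg (fun x : V => (x : ℝ)) hst
      simp only [Submodule.coe_add, Submodule.coe_smul, Submodule.coe_zero, Rat.smul_def] at h2
      exact h2
    have ht : t = 0 := by
      by_contra ht
      apply hij
      refine ⟨-s / t, ?_⟩
      have ht' : (t : ℝ) ≠ 0 := by exact_mod_cast ht
      have hwi := (hw i).ne'
      push_cast
      rw [div_eq_div_iff ht' hwi]
      linarith
    refine ⟨?_, ht⟩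
    rw [ht] at h1
    have h3 : (s : ℝ) * w i = 0 := by simpa using h1
    rcases mul_eq_zero.1 h3 with h4 | h4
    · exact_mod_cast h4
    · exact absurd h4 (hw i).ne'
  have htop : Submodule.span ℚ (Set.range v) = ⊤ := by
    apply hli.span_eq_top_of_card_eq_finrank'
    rw [hd]
    simp
  have hl : ∀ l, ∃ s t : ℚ, (s : ℝ) * w i + (t : ℝ) * w j = w l := by
    intro l
    have h1 : (⟨w l, hmem l⟩ : V) ∈ Submodule.span ℚ (Set.range v) := by
      rw [htop]; exact Submodule.mem_top
    have h2 : Set.range v = {⟨w i, hmem i⟩, ⟨w j, hmem j⟩} := by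
      rw [hv]; exact Matrix.range_cons_cons_empty _ _ _
    rw [h2, Submodule.mem_span_pair] at h1
    obtain ⟨s, t, h3⟩ := h1
    refine ⟨s, t, ?_⟩
    have h4 := congrArg (fun x : V => (x : ℝ)) h3
    simp only [Submodule.coe_add, Submodule.coe_smul, Rat.smul_def] at h4
    exact h4
  choose s t hst using hl
  set M : ℕ := ∏ l, ((s l).den * (t l).den) with hM
  have hM1 : 1 ≤ M := by
    rw [hM]
    exact Nat.one_le_iff_ne_zero.2 (Finset.prod_ne_zero_iff.2 fun l _ =>
      mul_ne_zero (s l).den_nz (t l).den_nz)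
  have hdiv : ∀ l, ∃ k : ℕ, M = (s l).den * (t l).den * k := by
    intro l
    exact Finset.dvd_prod_of_mem (fun l => (s l).den * (t l).den) (Finset.mem_univ l)
  choose k hk using hdiv
  refine ⟨M, fun l => (s l).num * (t l).den * k l, fun l => (t l).num * (s l).den * k l, hM1,
    fun l => ?_⟩
  have h1 : ((s l).den : ℝ) * (s l : ℝ) = (s l).num := by
    have := Rat.den_mul_eq_num (s l)
    exact_mod_cast congrArg (fun x : ℚ => (x : ℝ)) this
  have h2 : ((t l).den : ℝ) * (t l : ℝ) = (t l).num := by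
    have := Rat.den_mul_eq_num (t l)
    exact_mod_cast congrArg (fun x : ℚ => (x : ℝ)) this
  have h3 : (M : ℝ) = (s l).den * (t l).den * k l := by
    have := hk l
    exact_mod_cast congrArg (fun x : ℕ => (x : ℝ)) this
  rw [← hst l, h3]
  push_cast
  rw [← h1, ← h2]
  ring

/-- the points at which all weights are nearly integral -/
lemma near {M : ℕ} {A B : Fin r → ℤ} (hw : ∀ j, 0 < w j) {i j : Fin r}
    (h : ∀ l, (M : ℝ) * w l = A l * w i + B l * w j) :
    ∃ H : ℝ, 1 ≤ H ∧ ∀ (n : ℕ) (l : Fin r),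
      nd (w l * (M * n / w i)) ≤ H * nd (w j / w i * n) := by
  obtain ⟨H, hH1, hH⟩ := exists_up (w := fun l => |(B l : ℝ)|)
  refine ⟨H, hH1, fun n l => ?_⟩
  have hwi := (hw i).ne'
  have e1 : w l * (M * n / w i) = A l * n + B l * (w j / w i * n) := by
    have : w l * (M * n / w i) = n * (M * w l) / w i := by ring
    rw [this, h l]
    field_simp
  have h1 := nd_le_sub (w l * (M * n / w i)) (A l * n + B l * round (w j / w i * n))
  have e2 : w l * (M * n / w i) - ((A l * n + B l * round (w j / w i * n) : ℤ) : ℝ) =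
      B l * (w j / w i * n - round (w j / w i * n)) := by
    rw [e1]
    push_cast
    ring
  rw [e2, abs_mul] at h1
  refine h1.trans ?_
  have h2 : |w j / w i * n - round (w j / w i * n)| = nd (w j / w i * n) := rfl
  rw [h2]
  have h3 := hH l
  have h4 := nd_nonneg (w j / w i * n)
  gcongr

/-- existence of an irrational ratio -/
lemma exists_pair (hw : ∀ j, 0 < w j)
    (hd : Module.finrank ℚ (Submodule.span ℚ (Set.range w)) = 2) :
    ∃ i j, Irrational (w j / w i) := by
  by_contra hcon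
  push Not at hcon
  rcases Nat.eq_zero_or_pos r with h0 | h0
  · subst h0
    have : Set.range w = ∅ := Set.range_eq_empty w
    rw [this, Submodule.span_empty, finrank_bot] at hd
    omega
  · set i : Fin r := ⟨0, h0⟩ with hi
    have h1 : Submodule.span ℚ (Set.range w) ≤ Submodule.span ℚ {w i} := by
      rw [Submodule.span_le]
      rintro _ ⟨j, rfl⟩
      have h2 := hcon i j
      unfold Irrational at h2
      push Not at h2
      obtain ⟨q, hq⟩ := h2
      rw [SetLike.mem_coe, Submodule.mem_span_singleton]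
      refine ⟨q, ?_⟩
      rw [Rat.smul_def, hq]
      have := (hw i).ne'
      field_simp
    have h2 := Submodule.finrank_mono (R := ℚ) (M := ℝ) h1
    have h3 := finrank_span_le_card (R := ℚ) ({w i} : Set ℝ)
    simp at h3
    omega

/-- a lower bound for the approximation of the ratio gives one for simultaneous approximation -/
lemma sim_of_ratio (hw : ∀ j, 0 < w j) {i j : Fin r} {c lam : ℝ} (hc : 0 < c) (hl : 0 < lam)
    (h : ∀ n : ℕ, 1 ≤ n → c * (n : ℝ) ^ (-lam) ≤ nd (w j / w i * n)) : SimLow w lam := by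
  have hwi := hw i
  have hwj := hw j
  set θ : ℝ := w j / w i with hθ
  have hθ0 : 0 < θ := by positivity
  set D : ℝ := w i + 1 with hD
  set c' : ℝ := min (w i) (c * D ^ (-lam) / (1 + θ)) with hc'
  have hc'0 : 0 < c' := lt_min hwi (by positivity)
  refine ⟨c', hc'0, fun y hy => ?_⟩
  have hy0 : 0 < y := by linarith
  obtain ⟨N, hN⟩ := exists_nat_ge (w i * y + 1)
  have hyl : y ^ (-lam) ≤ 1 := Real.rpow_le_one_of_one_le_of_nonpos hy (by linarith)
  rcases round_cases hwi hy hN with h1 | ⟨m, hm, h1⟩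
  · refine ⟨i, ?_⟩
    calc c' * y ^ (-lam) ≤ w i * 1 := mul_le_mul (min_le_left _ _) hyl (by positivity) hwi.le
      _ ≤ _ := by rw [mul_one]; exact h1
  · rw [Finset.mem_Icc] at hm
    have hm0 : (0 : ℝ) < m := by exact_mod_cast hm.1
    have hmy : (m : ℝ) ≤ D * y := by
      have h2 : |w i * y - m| ≤ 1 / 2 := by rw [← h1]; exact nd_le_half _
      rw [abs_le] at h2
      rw [hD, add_mul]
      linarith
    have h3 : D ^ (-lam) * y ^ (-lam) ≤ (m : ℝ) ^ (-lam) := by
      rw [← Real.mul_rpow (by positivity) hy0.le]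
      exact Real.rpow_le_rpow_of_nonpos hm0 hmy (by linarith)
    have h4 : nd (θ * m) ≤ nd (w j * y) + θ * nd (w i * y) := by
      have h5 := nd_add_le (w j * y) (θ * m - w j * y)
      have h6 : w j * y + (θ * m - w j * y) = θ * m := by ring
      have h7 : θ * m - w j * y = -(θ * (w i * y - m)) := by rw [hθ]; field_simp; ring
      rw [h6, h7, abs_neg, abs_mul, abs_of_pos hθ0, ← h1] at h5
      exact h5
    have h5 := (h m hm.1).trans h4
    have h6 : c' * y ^ (-lam) * (1 + θ) ≤ nd (w j * y) + θ * nd (w i * y) := by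
      calc c' * y ^ (-lam) * (1 + θ) ≤ (c * D ^ (-lam) / (1 + θ)) * y ^ (-lam) * (1 + θ) := by
            gcongr
            exact min_le_right _ _
        _ = c * (D ^ (-lam) * y ^ (-lam)) := by field_simp
        _ ≤ c * (m : ℝ) ^ (-lam) := by gcongr
        _ ≤ _ := h5
    rcases le_total (nd (w j * y)) (nd (w i * y)) with h7 | h7
    · refine ⟨i, ?_⟩
      have h8 : c' * y ^ (-lam) * (1 + θ) ≤ nd (w i * y) * (1 + θ) := by linarith
      exact le_of_mul_le_mul_right h8 (by linarith)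
    · refine ⟨j, ?_⟩
      have h9 : θ * nd (w i * y) ≤ θ * nd (w j * y) := mul_le_mul_of_nonneg_left h7 hθ0.le
      have h8 : c' * y ^ (-lam) * (1 + θ) ≤ nd (w j * y) * (1 + θ) := by linarith
      exact le_of_mul_le_mul_right h8 (by linarith)

/-- well approximable ratios exclude lower bounds for simultaneous approximation -/
lemma not_sim_of_liouville (hw : ∀ j, 0 < w j)
    (hd : Module.finrank ℚ (Submodule.span ℚ (Set.range w)) = 2)
    {i j : Fin r} (hij : Irrational (w j / w i)) {q lam : ℝ} (hl : lam < q - 1)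
    (hL : LiouvilleWith q (w j / w i)) : ¬ SimLow w lam := by
  rintro ⟨c, hc, hs⟩
  obtain ⟨M, A, B, hM, hAB⟩ := comb hw hd hij
  obtain ⟨H, hH1, hH⟩ := near hw hAB
  obtain ⟨C₁, hC₁, hfr⟩ := hL.exists_pos
  have hwi := hw i
  have hMr : (1 : ℝ) ≤ M := by exact_mod_cast hM
  have hM0 : (0 : ℝ) < M := by linarith
  set θ : ℝ := w j / w i with hθ
  set κ : ℝ := c * (M / w i) ^ (-lam) with hκ
  have hκ0 : 0 < κ := by positivity
  have ev1 : ∀ᶠ n : ℕ in atTop, (H * C₁) * (n : ℝ) ^ (-(q - 1 - lam)) < κ := by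
    have h1 : Tendsto (fun n : ℕ => (H * C₁) * (n : ℝ) ^ (-(q - 1 - lam))) atTop
        (𝓝 ((H * C₁) * 0)) :=
      (((tendsto_rpow_neg_atTop (by linarith : 0 < q - 1 - lam)).comp
        tendsto_natCast_atTop_atTop).const_mul (H * C₁))
    rw [mul_zero] at h1
    exact h1.eventually (gt_mem_nhds hκ0)
  have ev3 : ∀ᶠ n : ℕ in atTop, w i ≤ (n : ℝ) :=
    tendsto_natCast_atTop_atTop.eventually (eventually_ge_atTop (w i))
  obtain ⟨n, ⟨hn1, m, -, hm⟩, hn2, hn3⟩ := (hfr.and_eventually (ev1.and ev3)).exists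
  have hn0 : (0 : ℝ) < n := by exact_mod_cast hn1
  have hnd : nd (θ * n) ≤ C₁ * (n : ℝ) ^ (1 - q) := by
    have h1 := nd_le_sub (θ * n) m
    have h2 : θ * n - m = n * (θ - m / n) := by field_simp
    rw [h2, abs_mul, Nat.abs_cast] at h1
    refine h1.trans ?_
    calc (n : ℝ) * |θ - m / n| ≤ n * (C₁ / (n : ℝ) ^ q) := by gcongr
      _ = _ := by rw [Real.rpow_sub hn0, Real.rpow_one]; ring
  have hy1 : 1 ≤ (M : ℝ) * n / w i := by
    rw [le_div_iff₀ hwi, one_mul]
    calc w i ≤ n := hn3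
      _ ≤ M * n := le_mul_of_one_le_left hn0.le hMr
  obtain ⟨l, hlj⟩ := hs _ hy1
  have h3 := hlj.trans (hH n l)
  have h4 : c * ((M : ℝ) * n / w i) ^ (-lam) = κ * (n : ℝ) ^ (-lam) := by
    have : (M : ℝ) * n / w i = M / w i * n := by ring
    rw [this, Real.mul_rpow (by positivity) hn0.le, hκ]
    ring
  have h5 : κ * (n : ℝ) ^ (-lam) ≤ H * (C₁ * (n : ℝ) ^ (1 - q)) := by
    rw [← h4]
    exact h3.trans (by gcongr)
  have h6 : (n : ℝ) ^ (1 - q) = (n : ℝ) ^ (-(q - 1 - lam)) * (n : ℝ) ^ (-lam) := by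
    rw [← Real.rpow_add hn0]
    congr 1
    ring
  have h7 : 0 < (n : ℝ) ^ (-lam) := by positivity
  rw [h6] at h5
  have h8 : κ * (n : ℝ) ^ (-lam) ≤ (H * C₁ * (n : ℝ) ^ (-(q - 1 - lam))) * (n : ℝ) ^ (-lam) := by
    linarith
  have h9 := le_of_mul_le_mul_right h8 h7
  linarith

/-- the condition in terms of the irrationality exponent -/
theorem two_iff (hw : ∀ j, 0 < w j)
    (hd : Module.finrank ℚ (Submodule.span ℚ (Set.range w)) = 2)
    {i j : Fin r} (hij : Irrational (w j / w i)) {σ β : ℝ} (hβ : 1 ≤ β) :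
    (∀ lam : ℝ, 0 < lam → β < lam * (2 * (r - σ) - β) → SimLow w lam) ↔
      ∀ q : ℝ, 2 ≤ q → LiouvilleWith q (w j / w i) → 2 * (q - 1) * (r - σ) ≤ q * β := by
  constructor
  · intro h q hq hL
    by_contra hcon
    push Not at hcon
    obtain ⟨A, hA⟩ : ∃ A, A = 2 * ((r : ℝ) - σ) - β := ⟨_, rfl⟩
    rw [← hA] at h
    have h1 : β < (q - 1) * A := by
      have : (q - 1) * A = 2 * (q - 1) * (r - σ) - (q - 1) * β := by rw [hA]; ring
      rw [this]
      linarith
    have hA0 : 0 < A := by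
      have h2 : 0 < (q - 1) * A := by linarith
      exact pos_of_mul_pos_right h2 (by linarith)
    have h2 : β / A < q - 1 := by rw [div_lt_iff₀ hA0]; exact h1
    obtain ⟨lam, hl1, hl2⟩ := exists_between h2
    have hl0 : 0 < lam := lt_trans (by positivity) hl1
    refine not_sim_of_liouville hw hd hij hl2 hL (h lam hl0 ?_)
    rwa [div_lt_iff₀ hA0] at hl1
  · intro h lam hl hlam
    obtain ⟨A, hA⟩ : ∃ A, A = 2 * ((r : ℝ) - σ) - β := ⟨_, rfl⟩
    rw [← hA] at hlam
    have hA0 : 0 < A := by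
      have h2 : 0 < lam * A := by linarith
      exact pos_of_mul_pos_right h2 hl.le
    have h2 := h 2 le_rfl (liouville_two hij)
    have hAβ : A ≤ β := by rw [hA]; linarith
    have hl1 : 1 < lam := by
      by_contra h3
      push Not at h3
      have : lam * A ≤ 1 * A := by gcongr
      linarith
    have h3 : ¬ LiouvilleWith (1 + lam) (w j / w i) := by
      intro hL
      have h4 := h (1 + lam) (by linarith) hL
      have h5 : 2 * (1 + lam - 1) * ((r : ℝ) - σ) = lam * (A + β) := by rw [hA]; ring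
      rw [h5] at h4
      linarith
    obtain ⟨c, hc, h4⟩ := lower_of_not hij h3
    refine sim_of_ratio hw (i := i) (j := j) hc hl fun n hn => ?_
    have h5 := h4 n hn
    have h6 : 1 - (1 + lam) = -lam := by ring
    rwa [h6] at h5

end Pool.Agent.T6.H60.BD
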