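import Pool.Agent.T6.H60.BD.H

set_option autoImplicit false

/-!
# Barnes zeta functions: the pointwise criterion, part 1: the discrete sum
-/

namespace Pool.Agent.T6.H60.BD

open Finset Filter Topology MeasureTheory
open Pool.Agent.T6.H60.BC

variable {r : ℕ} {w : Fin r → ℝ}

/-- the pointwise criterion -/
def PtB (w : Fin r → ℝ) (σ β : ℝ) : Prop :=
  ∀ ε : ℝ, 0 < ε → ∃ C : ℝ, 0 ≤ C ∧ ∀ y δ : ℝ, 1 ≤ y → 0 < δ → δ ≤ 1 →
    pr w δ y ≤ C * δ ^ (-(2 * σ)) * (y / δ) ^ (β + ε)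

/-- the pointwise criterion at the points `m / w_i` -/
lemma ptB_k (hw : ∀ j, 0 < w j) {σ β : ℝ} (h : PtB w σ β) {ε : ℝ} (hε : 0 < ε) (i : Fin r) :
    ∃ C : ℝ, 0 < C ∧ ∀ (m : ℕ) (δ : ℝ), 1 ≤ m → 0 < δ → δ ≤ 1 →
      pr w δ (m / w i) ≤ C * δ ^ (-(2 * σ)) * (m / δ) ^ (β + ε) := by
  obtain ⟨C, hC, h⟩ := h ε hε
  obtain ⟨t, ht⟩ := exists_nat_ge (w i)
  have hwi := hw i
  have ht0 : (0 : ℝ) < t := lt_of_lt_of_le hwi ht
  have ht1 : 1 ≤ t := by
    have : t ≠ 0 := by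
      rintro rfl
      simp at ht0
    omega
  refine ⟨((t : ℝ) ^ 2) ^ r * (C + 1) * (t / w i) ^ (β + ε), by positivity,
    fun m δ hm hδ hδ1 => ?_⟩
  have hm1 : (1 : ℝ) ≤ m := by exact_mod_cast hm
  have h1 : 1 ≤ (t : ℝ) * (m / w i) := by
    rw [← mul_div_assoc, le_div_iff₀ hwi]
    nlinarith
  have h2 := (pr_nat_mul w hδ ht1 (m / w i)).trans
    (mul_le_mul_of_nonneg_left (h _ δ h1 hδ hδ1) (by positivity))
  refine h2.trans ?_
  have e1 : (t : ℝ) * (m / w i) / δ = (t / w i) * (m / δ) := by ring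
  rw [e1, Real.mul_rpow (by positivity) (by positivity)]
  calc ((t : ℝ) ^ 2) ^ r * (C * δ ^ (-(2 * σ)) * ((t / w i) ^ (β + ε) * (m / δ) ^ (β + ε)))
      ≤ ((t : ℝ) ^ 2) ^ r * ((C + 1) * δ ^ (-(2 * σ)) *
        ((t / w i) ^ (β + ε) * (m / δ) ^ (β + ε))) := by
        gcongr
        linarith
    _ = _ := by ring

/-- the number of shapes -/
lemma shapes (r : ℕ) {ε : ℝ} (hε : 0 < ε) : ∃ K : ℝ, 0 < K ∧ ∀ (J : ℕ) (x : ℝ), 0 < x → x ≤ 1 →
    (2 : ℝ) ^ J ≤ 1 / x → ((J : ℝ) + 1) ^ r ≤ K * x ^ (-ε) := by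
  set η : ℝ := ε / (r + 1) with hη
  have hη0 : 0 < η := by positivity
  set h : ℝ := 2 ^ η - 1 with hh
  have hh0 : 0 < h := by
    have : (1 : ℝ) < 2 ^ η := Real.one_lt_rpow (by norm_num) hη0
    linarith
  refine ⟨(1 + 1 / h) ^ r, by positivity, fun J x hx hx1 hJ => ?_⟩
  have h1 : (J : ℝ) + 1 ≤ (1 + 1 / h) * (2 ^ η) ^ J := by
    have h2 := one_add_mul_le_pow (a := h) (by linarith) J
    have h3 : 1 + h = 2 ^ η := by rw [hh]; ring
    rw [h3] at h2
    have h4 : (J : ℝ) ≤ ((2 ^ η) ^ J - 1) / h := by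
      rw [le_div_iff₀ hh0]
      linarith
    have h5 : (1 : ℝ) ≤ (2 ^ η) ^ J := one_le_pow₀ (by linarith)
    calc (J : ℝ) + 1 ≤ ((2 ^ η) ^ J - 1) / h + 1 := by linarith
      _ ≤ (2 ^ η) ^ J / h + (2 ^ η) ^ J := by
        gcongr
        linarith
      _ = _ := by ring
  have h2 : ((2 : ℝ) ^ η) ^ J ≤ x ^ (-η) := by
    have e1 : ((2 : ℝ) ^ η) ^ J = ((2 : ℝ) ^ J) ^ η := by
      rw [← Real.rpow_natCast, ← Real.rpow_natCast, ← Real.rpow_mul (by norm_num),
        ← Real.rpow_mul (by norm_num), mul_comm]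
    have e2 : x ^ (-η) = (1 / x) ^ η := by
      rw [one_div, Real.inv_rpow hx.le, Real.rpow_neg hx.le]
    rw [e1, e2]
    exact Real.rpow_le_rpow (by positivity) hJ hη0.le
  calc ((J : ℝ) + 1) ^ r ≤ ((1 + 1 / h) * x ^ (-η)) ^ r :=
        pow_le_pow_left₀ (by positivity) (h1.trans (by gcongr)) r
    _ = (1 + 1 / h) ^ r * (x ^ (-η)) ^ r := mul_pow _ _ _
    _ ≤ (1 + 1 / h) ^ r * x ^ (-ε) := by
        gcongr
        rw [← Real.rpow_natCast, ← Real.rpow_mul hx.le]
        apply Real.rpow_le_rpow_of_exponent_ge hx hx1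
        have h3 : η * r ≤ ε := by
          rw [hη, div_mul_eq_mul_div, div_le_iff₀ (by positivity)]
          nlinarith
        linarith

/-- the discrete sum -/
theorem disc_sum (hw : ∀ j, 0 < w j) {σ β : ℝ} (hβ : 1 ≤ β) (h : PtB w σ β)
    {ε : ℝ} (hε : 0 < ε) (i : Fin r) :
    ∃ C : ℝ, 0 ≤ C ∧ ∀ (N : ℕ) (x : ℝ), 0 < x → x ≤ 1 →
      ∑ k ∈ Finset.Icc 1 N, pr w x (k / w i) ≤
        C * (N : ℝ) ^ (β + ε) * x ^ (-(2 * σ + β) - 2 * ε) := by
  classical
  obtain ⟨C, hC, h⟩ := ptB_k hw h hε i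
  obtain ⟨K, hK, hsh⟩ := shapes r hε
  have hwi := hw i
  set τ : ℝ := β + ε with hτ
  have hτ1 : 1 ≤ τ := by linarith
  have hτ0 : 0 < τ := by linarith
  refine ⟨K * (16 ^ r * C), by positivity, fun N x hx hx1 => ?_⟩
  have hxi : 1 ≤ 1 / x := by rw [le_div_iff₀ hx]; linarith
  obtain ⟨J, hJ1, hJ2⟩ := exists_nat_pow_near hxi one_lt_two
  -- the shape of an integer
  have hB0 : ∀ (k : ℕ) (j : Fin r), 0 < max x (nd (w j * (k / w i))) := fun k j =>
    lt_max_of_lt_left hx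
  have hB1 : ∀ (k : ℕ) (j : Fin r), 1 ≤ 1 / max x (nd (w j * (k / w i))) := fun k j => by
    rw [le_div_iff₀ (hB0 k j), one_mul]
    exact max_le hx1 ((nd_le_half _).trans (by norm_num))
  choose L hL1 hL2 using fun (k : ℕ) (j : Fin r) => exists_nat_pow_near (hB1 k j) one_lt_two
  have hLJ : ∀ k j, L k j < J + 1 := by
    intro k j
    by_contra hcon
    have h1 : (2 : ℝ) ^ (J + 1) ≤ 2 ^ (L k j) := pow_le_pow_right₀ (by norm_num) (not_lt.1 hcon)
    have h2 : 1 / max x (nd (w j * (k / w i))) ≤ 1 / x :=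
      one_div_le_one_div_of_le hx (le_max_left _ _)
    linarith [hL1 k j]
  set P : Finset (Fin r → ℕ) := Fintype.piFinset fun _ => Finset.range (J + 1) with hP
  have hmaps : ∀ k ∈ Finset.Icc 1 N, L k ∈ P := by
    intro k _
    rw [hP, Fintype.mem_piFinset]
    exact fun j => Finset.mem_range.2 (hLJ k j)
  have hcardP : (P.card : ℝ) = ((J : ℝ) + 1) ^ r := by
    rw [hP, Fintype.card_piFinset]
    simp
  have hfib : ∀ l ∈ P, ∑ k ∈ (Finset.Icc 1 N).filter (fun k => L k = l), pr w x (k / w i) ≤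
      16 ^ r * C * (N : ℝ) ^ τ * x ^ (-(2 * σ + τ)) := by
    intro l _
    set S := (Finset.Icc 1 N).filter (fun k => L k = l) with hS
    rcases S.eq_empty_or_nonempty with h0 | ⟨k₀, hk₀⟩
    · rw [h0, Finset.sum_empty]
      positivity
    set Q : ℝ := ∏ j : Fin r, (4 * ((4 : ℝ) ^ (l j))⁻¹) with hQ
    have hQ0 : 0 < Q := Finset.prod_pos fun j _ => by positivity
    -- values on the fibre
    have hBle : ∀ k ∈ S, ∀ j, max x (nd (w j * (k / w i))) ≤ ((2 : ℝ) ^ (l j))⁻¹ := by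
      intro k hk j
      rw [hS, Finset.mem_filter] at hk
      have h1 := hL1 k j
      rw [hk.2, le_div_iff₀ (hB0 k j)] at h1
      rw [← one_div, le_div_iff₀ (by positivity)]
      linarith
    have hval : ∀ k ∈ S, pr w x (k / w i) ≤ 16 ^ r / Q := by
      intro k hk
      rw [hS, Finset.mem_filter] at hk
      have e1 : (16 : ℝ) ^ r / Q = ∏ j : Fin r, (4 * (4 : ℝ) ^ (l j)) := by
        rw [hQ, div_eq_iff hQ0.ne', ← Finset.prod_mul_distrib]
        have : ∀ j : Fin r, 4 * (4 : ℝ) ^ (l j) * (4 * ((4 : ℝ) ^ (l j))⁻¹) = 16 := by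
          intro j
          field_simp
          norm_num
        simp only [this]
        simp
      rw [e1]
      unfold pr
      refine Finset.prod_le_prod (fun j _ => by positivity) fun j _ => ?_
      have h1 := hL2 k j
      rw [hk.2] at h1
      have h2 : (max x (nd (w j * (k / w i))))⁻¹ ≤ 2 ^ (l j + 1) := by rw [← one_div]; exact h1.le
      rw [← inv_pow]
      calc ((max x (nd (w j * (k / w i))))⁻¹) ^ 2 ≤ ((2 : ℝ) ^ (l j + 1)) ^ 2 :=
            pow_le_pow_left₀ (by have := hB0 k j; positivity) h2 2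
        _ = _ := by
          rw [← pow_mul, mul_comm, pow_mul]
          norm_num [pow_succ]
          ring
    -- the gap
    set g : ℝ := (x ^ (2 * σ + τ) / (C * Q)) ^ (1 / τ) with hg
    have hg0 : 0 < g := by positivity
    have hgap : ∀ m : ℕ, 1 ≤ m → (∀ j, nd (w j * (m / w i)) ≤ 2 * ((2 : ℝ) ^ (l j))⁻¹) →
        g ≤ m := by
      intro m hm hmj
      have hm0 : (0 : ℝ) < m := by exact_mod_cast hm
      have hxl : ∀ j, x ≤ ((2 : ℝ) ^ (l j))⁻¹ := fun j => (le_max_left _ _).trans (hBle k₀ hk₀ j)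
      have h1 : Q⁻¹ ≤ pr w x (m / w i) := by
        unfold pr
        rw [hQ, ← Finset.prod_inv_distrib]
        refine Finset.prod_le_prod (fun j _ => by positivity) fun j _ => ?_
        have h2 : max x (nd (w j * (m / w i))) ≤ 2 * ((2 : ℝ) ^ (l j))⁻¹ := by
          refine max_le ?_ (hmj j)
          have := hxl j
          have h3 : 0 < ((2 : ℝ) ^ (l j))⁻¹ := by positivity
          linarith
        have h3 : 0 < max x (nd (w j * (m / w i))) := lt_max_of_lt_left hx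
        refine inv_anti₀ (by positivity) ?_
        calc (max x (nd (w j * (m / w i)))) ^ 2 ≤ (2 * ((2 : ℝ) ^ (l j))⁻¹) ^ 2 :=
              pow_le_pow_left₀ h3.le h2 2
          _ = _ := by
            rw [mul_pow, inv_pow, ← pow_mul, mul_comm (l j) 2, pow_mul]
            norm_num
      have h2 := h1.trans (h m x hm hx hx1)
      have e1 : x ^ (-(2 * σ)) * ((m : ℝ) / x) ^ τ = (m : ℝ) ^ τ * (x ^ (2 * σ + τ))⁻¹ := by
        rw [Real.div_rpow hm0.le hx.le, Real.rpow_neg hx.le, Real.rpow_add hx (2 * σ) τ]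
        have p1 : 0 < x ^ (2 * σ) := by positivity
        have p2 : 0 < x ^ τ := by positivity
        field_simp
      rw [mul_assoc, e1] at h2
      have h3 : x ^ (2 * σ + τ) / (C * Q) ≤ (m : ℝ) ^ τ := by
        have h4 : 0 < x ^ (2 * σ + τ) := by positivity
        rw [div_le_iff₀ (by positivity)]
        rw [← div_eq_mul_inv, ← mul_div_assoc, le_div_iff₀ h4] at h2
        rw [inv_mul_le_iff₀ hQ0] at h2
        linarith
      calc g ≤ ((m : ℝ) ^ τ) ^ (1 / τ) := Real.rpow_le_rpow (by positivity) h3 (by positivity)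
        _ = m := by
          rw [← Real.rpow_mul hm0.le, mul_one_div_cancel hτ0.ne', Real.rpow_one]
    have hpack := pack (g := g) S N (Nat.cast_nonneg N)
      (fun k hk => by
        have hk' := hk
        rw [hS, Finset.mem_filter, Finset.mem_Icc] at hk'
        refine hgap k hk'.1.1 fun j => ?_
        have h1 := (le_max_right x _).trans (hBle k hk j)
        have h2 : 0 < ((2 : ℝ) ^ (l j))⁻¹ := by positivity
        linarith)
      (fun k hk m hm hkm => by
        have h3 : ((m - k : ℕ) : ℝ) = (m : ℝ) - k := by push_cast [hkm.le]; ring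
        rw [← h3]
        refine hgap (m - k) (by omega) fun j => ?_
        rw [h3, sub_div, mul_sub]
        have h1 := (le_max_right x _).trans (hBle k hk j)
        have h2 := (le_max_right x _).trans (hBle m hm j)
        exact (nd_sub_le _ _).trans (by linarith))
      (fun k hk => by
        rw [hS, Finset.mem_filter, Finset.mem_Icc] at hk
        exact_mod_cast hk.1.2)
    have hcard1 : (1 : ℝ) ≤ S.card := by
      have : 0 < S.card := Finset.card_pos.2 ⟨k₀, hk₀⟩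
      exact_mod_cast this
    have hgN : 1 ≤ (N : ℝ) / g := by
      rw [le_div_iff₀ hg0]
      nlinarith
    have hcard : (S.card : ℝ) ≤ ((N : ℝ) / g) ^ τ := by
      have h1 : (S.card : ℝ) ≤ N / g := by rw [le_div_iff₀ hg0]; exact hpack
      calc (S.card : ℝ) ≤ (N / g) ^ (1 : ℝ) := by rw [Real.rpow_one]; exact h1
        _ ≤ _ := Real.rpow_le_rpow_of_exponent_le hgN hτ1
    have hgτ : g ^ τ = x ^ (2 * σ + τ) / (C * Q) := by
      rw [hg, ← Real.rpow_mul (by positivity), one_div_mul_cancel hτ0.ne', Real.rpow_one]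
    calc ∑ k ∈ S, pr w x (k / w i) ≤ S.card • (16 ^ r / Q) := Finset.sum_le_card_nsmul _ _ _ hval
      _ = S.card * (16 ^ r / Q) := nsmul_eq_mul _ _
      _ ≤ ((N : ℝ) / g) ^ τ * (16 ^ r / Q) := by gcongr
      _ = _ := by
          rw [Real.div_rpow (Nat.cast_nonneg N) hg0.le, hgτ, Real.rpow_neg hx.le]
          field_simp
  rw [← Finset.sum_fiberwise_of_maps_to hmaps]
  calc _ ≤ ∑ _l ∈ P, 16 ^ r * C * (N : ℝ) ^ τ * x ^ (-(2 * σ + τ)) := Finset.sum_le_sum hfib
    _ = ((J : ℝ) + 1) ^ r * (16 ^ r * C * (N : ℝ) ^ τ * x ^ (-(2 * σ + τ))) := by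
        rw [Finset.sum_const, nsmul_eq_mul, hcardP]
    _ ≤ (K * x ^ (-ε)) * (16 ^ r * C * (N : ℝ) ^ τ * x ^ (-(2 * σ + τ))) := by
        gcongr
        exact hsh J x hx hx1 hJ1
    _ = _ := by
        have e1 : x ^ (-(2 * σ + β) - 2 * ε) = x ^ (-ε) * x ^ (-(2 * σ + τ)) := by
          rw [← Real.rpow_add hx]
          congr 1
          rw [hτ]
          ring
        rw [e1]
        ring

end Pool.Agent.T6.H60.BD
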