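import Pool.Agent.T6.H60.BD.P
import Pool.Agent.T6.H60.BD.K

set_option autoImplicit false

/-!
# Barnes zeta functions: the pointwise criterion, part 2: the equivalence
-/

namespace Pool.Agent.T6.H60.BD

open Finset Filter Topology MeasureTheory
open Pool.Agent.T6.H60.BC

variable {r : ℕ} {w : Fin r → ℝ}

/-- the length of an interval -/
lemma vol_le {l : ℝ} (hl : 0 < l) (x k Y : ℝ) :
    ∫⁻ y in Set.Icc 1 Y, Set.indicator {y : ℝ | |l * y - k| ≤ x} (fun _ => (1 : ENNReal)) y ≤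
      ENNReal.ofReal (2 * x / l) := by
  calc _ ≤ ∫⁻ y, Set.indicator (Set.Icc ((k - x) / l) ((k + x) / l))
        (fun _ => (1 : ENNReal)) y := by
        refine (setLIntegral_le_lintegral _ _).trans (lintegral_mono fun y => ?_)
        refine Set.indicator_le_indicator_of_subset ?_ (fun _ => zero_le_one) y
        intro y hy
        rw [Set.mem_ofPred_eq, abs_le] at hy
        constructor
        · rw [div_le_iff₀ hl]; linarith
        · rw [le_div_iff₀ hl]; linarith
    _ = _ := by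
        rw [lintegral_indicator measurableSet_Icc, lintegral_const, one_mul,
          Measure.restrict_apply_univ, Real.volume_Icc]
        congr 1
        ring

lemma ind_meas (l x k : ℝ) :
    Measurable (Set.indicator {y : ℝ | |l * y - k| ≤ x} (fun _ => (1 : ENNReal))) := by
  refine measurable_const.indicator ?_
  have h1 : Continuous fun y : ℝ => |l * y - k| := by fun_prop
  exact (isClosed_le h1 continuous_const).measurableSet

/-- the pointwise bound by the values at the points `k / w_i` -/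
lemma pt_shape (hr : 0 < r) (hw : ∀ j, 0 < w j) {D : ℝ} (hD : ∀ i j, 1 + w j / w i ≤ D)
    {δ y : ℝ} (hδ : 0 < δ) (hδ1 : δ ≤ 1) (hy : 1 ≤ y) {N : ℕ} (hN : ∀ i, w i * y + 1 ≤ N) {J : ℕ}
    (hJ : 1 / δ < 2 ^ (J + 1)) :
    ENNReal.ofReal (pr w δ y) ≤ ∑ i, (ENNReal.ofReal (((w i ^ 2)⁻¹) ^ r) +
      ∑ l ∈ Finset.range (J + 1), ∑ k ∈ Finset.Icc 1 N,
        ENNReal.ofReal ((D ^ 2) ^ r * pr w ((2 : ℝ) ^ (l + 1))⁻¹ (k / w i)) *
          Set.indicator {y : ℝ | |w i * y - k| ≤ 2 * ((2 : ℝ) ^ (l + 1))⁻¹} (fun _ => 1) y) := by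
  obtain ⟨i, hi⟩ := exists_min hr w δ y
  have hB : ∀ j, 0 < max δ (nd (w j * y)) := fun j => lt_max_of_lt_left hδ
  have hB0 := hB i
  have hD1 : 1 ≤ D := by
    have h1 := hD i i
    have h2 : 0 < w i / w i := div_pos (hw i) (hw i)
    linarith
  have hD0 : 0 < D := by linarith
  have hwi := hw i
  refine le_trans ?_ (Finset.single_le_sum (f := fun i : Fin r =>
    (ENNReal.ofReal (((w i ^ 2)⁻¹) ^ r) +
      ∑ l ∈ Finset.range (J + 1), ∑ k ∈ Finset.Icc 1 N,
        ENNReal.ofReal ((D ^ 2) ^ r * pr w ((2 : ℝ) ^ (l + 1))⁻¹ (k / w i)) *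
          Set.indicator {y : ℝ | |w i * y - k| ≤ 2 * ((2 : ℝ) ^ (l + 1))⁻¹} (fun _ => 1) y))
    (fun i _ => zero_le) (Finset.mem_univ i))
  rcases round_cases (hw i) hy (hN i) with h2 | ⟨m, hm, h2⟩
  · have h3 : w i ≤ max δ (nd (w i * y)) := h2.trans (le_max_right _ _)
    have h6 : pr w δ y ≤ ((w i ^ 2)⁻¹) ^ r := by
      unfold pr
      calc ∏ l, ((max δ (nd (w l * y))) ^ 2)⁻¹ ≤ ∏ _l : Fin r, (w i ^ 2)⁻¹ := by
            refine Finset.prod_le_prod (fun l _ => by positivity) fun l _ => ?_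
            exact inv_anti₀ (by positivity) (pow_le_pow_left₀ hwi.le (h3.trans (hi l)) 2)
        _ = _ := by rw [Finset.prod_const, Finset.card_univ, Fintype.card_fin]
    exact (ENNReal.ofReal_le_ofReal h6).trans le_self_add
  · set b : ℝ := max δ (nd (w i * y)) with hb
    have hb1 : b ≤ 1 := max_le hδ1 ((nd_le_half _).trans (by norm_num))
    have hbi : 1 ≤ 1 / b := by rw [le_div_iff₀ hB0]; linarith
    obtain ⟨l, hl1, hl2⟩ := exists_nat_pow_near hbi one_lt_two
    have hlJ : l < J + 1 := by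
      by_contra hcon
      have h3 : (2 : ℝ) ^ (J + 1) ≤ 2 ^ l := pow_le_pow_right₀ (by norm_num) (not_lt.1 hcon)
      have h4 : 1 / b ≤ 1 / δ := one_div_le_one_div_of_le hδ (le_max_left _ _)
      linarith
    have hx : ((2 : ℝ) ^ (l + 1))⁻¹ ≤ b := by
      rw [inv_le_comm₀ (by positivity) hB0, ← one_div]
      exact hl2.le
    have hx2 : b ≤ 2 * ((2 : ℝ) ^ (l + 1))⁻¹ := by
      rw [le_div_iff₀ hB0] at hl1
      have e1 : 2 * ((2 : ℝ) ^ (l + 1))⁻¹ = 1 / 2 ^ l := by
        rw [pow_succ]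
        field_simp
      rw [e1, le_div_iff₀ (by positivity)]
      linarith
    have h3 : pr w δ y ≤ (D ^ 2) ^ r * pr w b (m / w i) := by
      have e1 : (D ^ 2) ^ r * pr w b (m / w i) =
          ∏ j, (D ^ 2 * ((max b (nd (w j * (m / w i)))) ^ 2)⁻¹) := by
        unfold pr
        rw [Finset.prod_mul_distrib]
        simp
      rw [e1]
      unfold pr
      refine Finset.prod_le_prod (fun j _ => by positivity) fun j _ => ?_
      have h4 : max b (nd (w j * (m / w i))) ≤ D * max δ (nd (w j * y)) := by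
        refine max_le ?_ ?_
        · exact (hi j).trans (le_mul_of_one_le_left (hB j).le hD1)
        · have h4 := nd_add_le (w j * y) (w j * (m / w i) - w j * y)
          have h5 : w j * y + (w j * (m / w i) - w j * y) = w j * (m / w i) := by ring
          have h6 : w j * (m / w i) - w j * y = -(w j / w i * (w i * y - m)) := by
            field_simp; ring
          have h7 : 0 < w j / w i := div_pos (hw j) hwi
          rw [h5, h6, abs_neg, abs_mul, abs_of_pos h7, ← h2] at h4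
          calc _ ≤ nd (w j * y) + w j / w i * nd (w i * y) := h4
            _ ≤ max δ (nd (w j * y)) + w j / w i * max δ (nd (w j * y)) := by
              refine add_le_add (le_max_right _ _) ?_
              exact mul_le_mul_of_nonneg_left ((le_max_right _ _).trans (hi j)) h7.le
            _ = (1 + w j / w i) * max δ (nd (w j * y)) := by ring
            _ ≤ _ := mul_le_mul_of_nonneg_right (hD i j) (hB j).le
      have h5 : 0 < max b (nd (w j * (m / w i))) := lt_max_of_lt_left hB0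
      have h6 := pow_le_pow_left₀ h5.le h4 2
      rw [mul_pow] at h6
      have h7 := hB j
      rw [← div_eq_mul_inv, le_div_iff₀ (by positivity), inv_mul_le_iff₀ (by positivity)]
      linarith
    have h4 : pr w δ y ≤ (D ^ 2) ^ r * pr w ((2 : ℝ) ^ (l + 1))⁻¹ (m / w i) :=
      h3.trans (mul_le_mul_of_nonneg_left (pr_anti w (by positivity) hx _) (by positivity))
    have h5 : y ∈ {y : ℝ | |w i * y - m| ≤ 2 * ((2 : ℝ) ^ (l + 1))⁻¹} := by
      rw [Set.mem_ofPred_eq, ← h2]
      exact (le_max_right _ _).trans hx2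
    calc ENNReal.ofReal (pr w δ y)
        ≤ ENNReal.ofReal ((D ^ 2) ^ r * pr w ((2 : ℝ) ^ (l + 1))⁻¹ (m / w i)) *
          Set.indicator {y : ℝ | |w i * y - m| ≤ 2 * ((2 : ℝ) ^ (l + 1))⁻¹} (fun _ => 1) y := by
          rw [Set.indicator_of_mem h5, mul_one]
          exact ENNReal.ofReal_le_ofReal h4
      _ ≤ ∑ k ∈ Finset.Icc 1 N,
          ENNReal.ofReal ((D ^ 2) ^ r * pr w ((2 : ℝ) ^ (l + 1))⁻¹ (k / w i)) *
          Set.indicator {y : ℝ | |w i * y - k| ≤ 2 * ((2 : ℝ) ^ (l + 1))⁻¹} (fun _ => 1) y :=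
          Finset.single_le_sum (f := fun k : ℕ =>
            ENNReal.ofReal ((D ^ 2) ^ r * pr w ((2 : ℝ) ^ (l + 1))⁻¹ (k / w i)) *
            Set.indicator {y : ℝ | |w i * y - k| ≤ 2 * ((2 : ℝ) ^ (l + 1))⁻¹} (fun _ => 1) y)
            (fun k _ => zero_le) hm
      _ ≤ ∑ l ∈ Finset.range (J + 1), ∑ k ∈ Finset.Icc 1 N,
          ENNReal.ofReal ((D ^ 2) ^ r * pr w ((2 : ℝ) ^ (l + 1))⁻¹ (k / w i)) *
          Set.indicator {y : ℝ | |w i * y - k| ≤ 2 * ((2 : ℝ) ^ (l + 1))⁻¹} (fun _ => 1) y :=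
          Finset.single_le_sum (f := fun l : ℕ => ∑ k ∈ Finset.Icc 1 N,
            ENNReal.ofReal ((D ^ 2) ^ r * pr w ((2 : ℝ) ^ (l + 1))⁻¹ (k / w i)) *
            Set.indicator {y : ℝ | |w i * y - k| ≤ 2 * ((2 : ℝ) ^ (l + 1))⁻¹} (fun _ => 1) y)
            (fun l _ => zero_le) (Finset.mem_range.2 hlJ)
      _ ≤ _ := le_add_self

/-- the pointwise criterion implies the criterion -/
theorem crit_of_pt (hw : ∀ j, 0 < w j) {σ β : ℝ} (hσ : 1 / 2 ≤ σ) (hβ : 1 ≤ β)
    (h : PtB w σ β) : Crit' w σ β := by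
  intro ε' hε'
  rcases Nat.eq_zero_or_pos r with h0 | h0
  · subst h0
    refine ⟨1, zero_le_one, fun Y δ hY hδ hδ1 => ?_⟩
    have h1 : ∀ y, pr w δ y = 1 := fun y => by unfold pr; simp
    simp only [h1]
    rw [lintegral_const, Measure.restrict_apply_univ, Real.volume_Icc, ← ENNReal.ofReal_mul
      zero_le_one]
    apply ENNReal.ofReal_le_ofReal
    have h2 : 1 ≤ δ ^ (-(2 * σ - 1 + β) - ε') :=
      Real.one_le_rpow_of_pos_of_le_one_of_nonpos hδ hδ1 (by linarith)
    have h3 : Y ≤ Y ^ (β + ε') := by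
      calc Y = Y ^ (1 : ℝ) := (Real.rpow_one Y).symm
        _ ≤ _ := Real.rpow_le_rpow_of_exponent_le hY (by linarith)
    have h4 : Y * 1 ≤ Y ^ (β + ε') * δ ^ (-(2 * σ - 1 + β) - ε') :=
      mul_le_mul h3 h2 zero_le_one (by positivity)
    linarith
  obtain ⟨ε, hε⟩ : ∃ ε, ε = ε' / 3 := ⟨_, rfl⟩
  have hε0 : 0 < ε := by rw [hε]; linarith
  obtain ⟨W, hW1, hW⟩ := exists_up (w := w)
  obtain ⟨m₀, hm₀, hm₁, hm₂⟩ := exists_low hw
  set D : ℝ := 1 + W / m₀ with hD
  have hD0 : 0 < D := by positivity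
  have hDij : ∀ i j, 1 + w j / w i ≤ D := by
    intro i j
    have : w j / w i ≤ W / m₀ := div_le_div₀ (by linarith) (hW j) hm₀ (hm₂ i)
    linarith
  choose C hC0 hC using fun i : Fin r => disc_sum hw hβ h hε0 i
  obtain ⟨K, hK0, hK⟩ := shapes 1 hε0
  set e : ℝ := β + ε' with he
  set g : ℝ := 2 * σ - 1 + β + ε' with hg
  have hg0 : 0 < g := by linarith
  set g' : ℝ := 2 * σ - 1 + β + 2 * ε with hg'
  have hg'0 : 0 < g' := by linarith
  refine ⟨∑ i, (((w i ^ 2)⁻¹) ^ r +
    (D ^ 2) ^ r * C i * (W + 2) ^ (β + ε) * (4 / w i) * 2 ^ g' * K),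
    Finset.sum_nonneg fun i _ => by have := hw i; have := hC0 i; positivity,
    fun Y δ hY hδ hδ1 => ?_⟩
  obtain ⟨N, hN0, hN1, hN2⟩ := range_N hW1 hW hY
  have hδi : 1 ≤ 1 / δ := by rw [le_div_iff₀ hδ]; linarith
  obtain ⟨J, hJ1, hJ2⟩ := exists_nat_pow_near hδi one_lt_two
  have hY0 : 0 < Y := by linarith
  have hYe : Y ≤ Y ^ e := by
    calc Y = Y ^ (1 : ℝ) := (Real.rpow_one Y).symm
      _ ≤ Y ^ e := Real.rpow_le_rpow_of_exponent_le hY (by linarith)
  have hd1 : 1 ≤ δ ^ (-g) :=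
    Real.one_le_rpow_of_pos_of_le_one_of_nonpos hδ hδ1 (by linarith)
  have hsum : ∀ i : Fin r, ∀ l ∈ Finset.range (J + 1),
      ∑ k ∈ Finset.Icc 1 N, ((D ^ 2) ^ r * pr w ((2 : ℝ) ^ (l + 1))⁻¹ (k / w i)) *
        (2 * (2 * ((2 : ℝ) ^ (l + 1))⁻¹) / w i) ≤
      (D ^ 2) ^ r * C i * (W + 2) ^ (β + ε) * (4 / w i) * 2 ^ g' * (Y ^ (β + ε) * δ ^ (-g')) := by
    intro i l hl
    have hwi := hw i
    have hCi := hC0 i
    set x : ℝ := ((2 : ℝ) ^ (l + 1))⁻¹ with hx
    have hx0 : 0 < x := by positivity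
    have hx1 : x ≤ 1 := inv_le_one_of_one_le₀ (one_le_pow₀ (by norm_num))
    have h1 := hC i N x hx0 hx1
    have e1 : ∑ k ∈ Finset.Icc 1 N, ((D ^ 2) ^ r * pr w x (k / w i)) * (2 * (2 * x) / w i) =
        (D ^ 2) ^ r * (4 / w i) * x * ∑ k ∈ Finset.Icc 1 N, pr w x (k / w i) := by
      rw [Finset.mul_sum]
      refine Finset.sum_congr rfl fun k _ => ?_
      ring
    rw [e1]
    have h2 : (N : ℝ) ^ (β + ε) ≤ (W + 2) ^ (β + ε) * Y ^ (β + ε) := by
      rw [← Real.mul_rpow (by positivity) hY0.le]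
      exact Real.rpow_le_rpow (by positivity) hN2 (by linarith)
    have h3 : x * x ^ (-(2 * σ + β) - 2 * ε) ≤ 2 ^ g' * δ ^ (-g') := by
      have e2 : x * x ^ (-(2 * σ + β) - 2 * ε) = x ^ (-g') := by
        nth_rw 1 [← Real.rpow_one x]
        rw [← Real.rpow_add hx0]
        congr 1
        rw [hg']
        ring
      have e3 : (2 : ℝ) ^ g' * δ ^ (-g') = (δ / 2) ^ (-g') := by
        rw [Real.div_rpow hδ.le (by norm_num), Real.rpow_neg (by norm_num : (0 : ℝ) ≤ 2)]
        field_simp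
      rw [e2, e3]
      apply Real.rpow_le_rpow_of_nonpos (by positivity) _ (by linarith)
      rw [Finset.mem_range] at hl
      have h4 : (2 : ℝ) ^ (l + 1) ≤ 2 ^ (J + 1) := pow_le_pow_right₀ (by norm_num) (by omega)
      have h5 : (2 : ℝ) ^ (J + 1) ≤ 2 / δ := by
        rw [pow_succ]
        have e4 : (2 : ℝ) / δ = 1 / δ * 2 := by ring
        rw [e4]
        gcongr
      have h6 : δ / 2 = (2 / δ)⁻¹ := by rw [inv_div]
      rw [h6, hx]
      exact inv_anti₀ (by positivity) (h4.trans h5)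
    calc (D ^ 2) ^ r * (4 / w i) * x * ∑ k ∈ Finset.Icc 1 N, pr w x (k / w i)
        ≤ (D ^ 2) ^ r * (4 / w i) * x * (C i * (N : ℝ) ^ (β + ε) * x ^ (-(2 * σ + β) - 2 * ε)) := by
          gcongr
      _ = (D ^ 2) ^ r * (4 / w i) * C i * (N : ℝ) ^ (β + ε) * (x * x ^ (-(2 * σ + β) - 2 * ε)) := by
          ring
      _ ≤ (D ^ 2) ^ r * (4 / w i) * C i * ((W + 2) ^ (β + ε) * Y ^ (β + ε)) *
          (2 ^ g' * δ ^ (-g')) := by gcongr
      _ = _ := by ring
  calc _ ≤ ∫⁻ y in Set.Icc 1 Y, ∑ i, (ENNReal.ofReal (((w i ^ 2)⁻¹) ^ r) +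
        ∑ l ∈ Finset.range (J + 1), ∑ k ∈ Finset.Icc 1 N,
        ENNReal.ofReal ((D ^ 2) ^ r * pr w ((2 : ℝ) ^ (l + 1))⁻¹ (k / w i)) *
          Set.indicator {y : ℝ | |w i * y - k| ≤ 2 * ((2 : ℝ) ^ (l + 1))⁻¹} (fun _ => 1) y) := by
        refine setLIntegral_mono' measurableSet_Icc fun y hy => ?_
        exact pt_shape h0 hw hDij hδ hδ1 hy.1 (fun i => hN1 i y hy) hJ2
    _ = ∑ i, (ENNReal.ofReal (((w i ^ 2)⁻¹) ^ r) * ENNReal.ofReal (Y - 1) +
        ∑ l ∈ Finset.range (J + 1), ∑ k ∈ Finset.Icc 1 N,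
        ENNReal.ofReal ((D ^ 2) ^ r * pr w ((2 : ℝ) ^ (l + 1))⁻¹ (k / w i)) *
          ∫⁻ y in Set.Icc 1 Y,
          Set.indicator {y : ℝ | |w i * y - k| ≤ 2 * ((2 : ℝ) ^ (l + 1))⁻¹} (fun _ => 1) y) := by
        rw [lintegral_finsetSum]
        · refine Finset.sum_congr rfl fun i _ => ?_
          rw [lintegral_add_left measurable_const, lintegral_const, Measure.restrict_apply_univ,
            Real.volume_Icc, lintegral_finsetSum]
          · congr 1
            refine Finset.sum_congr rfl fun l _ => ?_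
            rw [lintegral_finsetSum]
            · refine Finset.sum_congr rfl fun k _ => ?_
              rw [lintegral_const_mul _ (ind_meas _ _ _)]
            · exact fun k _ => (ind_meas _ _ _).const_mul _
          · exact fun l _ => Finset.measurable_fun_sum _ fun k _ => (ind_meas _ _ _).const_mul _
        · exact fun i _ => measurable_const.add (Finset.measurable_fun_sum _ fun l _ =>
            Finset.measurable_fun_sum _ fun k _ => (ind_meas _ _ _).const_mul _)
    _ ≤ ∑ i, (ENNReal.ofReal (((w i ^ 2)⁻¹) ^ r) * ENNReal.ofReal (Y - 1) +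
        ∑ l ∈ Finset.range (J + 1), ∑ k ∈ Finset.Icc 1 N,
        ENNReal.ofReal ((D ^ 2) ^ r * pr w ((2 : ℝ) ^ (l + 1))⁻¹ (k / w i)) *
          ENNReal.ofReal (2 * (2 * ((2 : ℝ) ^ (l + 1))⁻¹) / w i)) := by
        refine Finset.sum_le_sum fun i _ => ?_
        gcongr with l _ k _
        exact vol_le (hw i) _ _ _
    _ ≤ ∑ i, ENNReal.ofReal ((((w i ^ 2)⁻¹) ^ r +
        (D ^ 2) ^ r * C i * (W + 2) ^ (β + ε) * (4 / w i) * 2 ^ g' * K) * (Y ^ e * δ ^ (-g))) := by
        refine Finset.sum_le_sum fun i _ => ?_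
        have hwi := hw i
        have hCi := hC0 i
        have h1 : ∑ l ∈ Finset.range (J + 1), ∑ k ∈ Finset.Icc 1 N,
            ENNReal.ofReal ((D ^ 2) ^ r * pr w ((2 : ℝ) ^ (l + 1))⁻¹ (k / w i)) *
            ENNReal.ofReal (2 * (2 * ((2 : ℝ) ^ (l + 1))⁻¹) / w i) ≤
            ENNReal.ofReal (((J : ℝ) + 1) * ((D ^ 2) ^ r * C i * (W + 2) ^ (β + ε) * (4 / w i) *
              2 ^ g' * (Y ^ (β + ε) * δ ^ (-g')))) := by
          calc _ ≤ ∑ _l ∈ Finset.range (J + 1), ENNReal.ofReal ((D ^ 2) ^ r * C i *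
                (W + 2) ^ (β + ε) * (4 / w i) * 2 ^ g' * (Y ^ (β + ε) * δ ^ (-g'))) := by
                refine Finset.sum_le_sum fun l hl => ?_
                have hnn : ∀ k ∈ Finset.Icc 1 N,
                    0 ≤ ((D ^ 2) ^ r * pr w ((2 : ℝ) ^ (l + 1))⁻¹ (k / w i)) *
                    (2 * (2 * ((2 : ℝ) ^ (l + 1))⁻¹) / w i) := fun k _ => by
                  have := pr_nonneg w ((2 : ℝ) ^ (l + 1))⁻¹ (k / w i)
                  positivity
                calc _ = ∑ k ∈ Finset.Icc 1 N, ENNReal.ofReal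
                      (((D ^ 2) ^ r * pr w ((2 : ℝ) ^ (l + 1))⁻¹ (k / w i)) *
                      (2 * (2 * ((2 : ℝ) ^ (l + 1))⁻¹) / w i)) := by
                      refine Finset.sum_congr rfl fun k _ => ?_
                      have h9 := pr_nonneg w ((2 : ℝ) ^ (l + 1))⁻¹ (k / w i)
                      exact (ENNReal.ofReal_mul (by positivity)).symm
                  _ ≤ _ := by
                      rw [← ENNReal.ofReal_sum_of_nonneg hnn]
                      exact ENNReal.ofReal_le_ofReal (hsum i l hl)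
            _ = _ := by
                rw [Finset.sum_const, Finset.card_range, nsmul_eq_mul,
                  ENNReal.ofReal_mul (p := (J : ℝ) + 1) (by positivity)]
                congr 1
                rw [← ENNReal.ofReal_natCast]
                push_cast
                rfl
        calc _ ≤ ENNReal.ofReal (((w i ^ 2)⁻¹) ^ r * (Y - 1)) +
              ENNReal.ofReal (((J : ℝ) + 1) * ((D ^ 2) ^ r * C i * (W + 2) ^ (β + ε) * (4 / w i) *
              2 ^ g' * (Y ^ (β + ε) * δ ^ (-g')))) := by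
              rw [ENNReal.ofReal_mul (by positivity)]
              gcongr
          _ = ENNReal.ofReal (((w i ^ 2)⁻¹) ^ r * (Y - 1) +
              (((J : ℝ) + 1) * ((D ^ 2) ^ r * C i * (W + 2) ^ (β + ε) * (4 / w i) *
              2 ^ g' * (Y ^ (β + ε) * δ ^ (-g'))))) := by
              rw [ENNReal.ofReal_add]
              · exact mul_nonneg (by positivity) (by linarith)
              · positivity
          _ ≤ _ := by
              apply ENNReal.ofReal_le_ofReal
              have h2 : ((w i ^ 2)⁻¹) ^ r * (Y - 1) ≤ ((w i ^ 2)⁻¹) ^ r * (Y ^ e * δ ^ (-g)) := by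
                have h3 : Y * 1 ≤ Y ^ e * δ ^ (-g) := mul_le_mul hYe hd1 zero_le_one (by positivity)
                apply mul_le_mul_of_nonneg_left _ (by positivity)
                linarith
              have h3 : ((J : ℝ) + 1) ≤ K * δ ^ (-ε) := by
                have := hK J δ hδ hδ1 hJ1
                rwa [pow_one] at this
              have h4 : Y ^ (β + ε) ≤ Y ^ e :=
                Real.rpow_le_rpow_of_exponent_le hY (by rw [he]; linarith)
              have h5 : δ ^ (-ε) * δ ^ (-g') = δ ^ (-g) := by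
                rw [← Real.rpow_add hδ]
                congr 1
                rw [hg', hg, hε]
                ring
              calc _ ≤ ((w i ^ 2)⁻¹) ^ r * (Y ^ e * δ ^ (-g)) +
                    ((K * δ ^ (-ε)) * ((D ^ 2) ^ r * C i * (W + 2) ^ (β + ε) * (4 / w i) *
                    2 ^ g' * (Y ^ e * δ ^ (-g')))) := by gcongr
                _ = _ := by rw [← h5]; ring
    _ = _ := by
        have e1 : -(2 * σ - 1 + β) - ε' = -g := by rw [hg]; ring
        rw [e1, mul_assoc, Finset.sum_mul, ENNReal.ofReal_sum_of_nonneg fun i _ => by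
          have := hw i
          have := hC0 i
          positivity]

/-- the criterion implies the pointwise criterion -/
theorem pt_of_crit (hw : ∀ j, 0 < w j) {σ β : ℝ} (hβ : 1 ≤ β)
    (h : Crit' w σ β) : PtB w σ β := by
  intro ε hε
  obtain ⟨C, hC, hb⟩ := h ε hε
  obtain ⟨W, hW1, hW⟩ := exists_up (w := w)
  refine ⟨((1 + W) ^ 2) ^ r * C * 2 ^ (β + ε), by positivity, fun y δ hy hδ hδ1 => ?_⟩
  have hy0 : 0 < y := by linarith
  have hpr : ∀ z ∈ Set.Icc y (y + δ), (((1 + W) ^ 2) ^ r)⁻¹ * pr w δ y ≤ pr w δ z := by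
    intro z hz
    rw [inv_mul_le_iff₀ (by positivity)]
    have e1 : ((1 + W) ^ 2) ^ r * pr w δ z =
        ∏ j, ((1 + W) ^ 2 * ((max δ (nd (w j * z))) ^ 2)⁻¹) := by
      unfold pr
      rw [Finset.prod_mul_distrib]
      simp
    rw [e1]
    unfold pr
    refine Finset.prod_le_prod (fun j _ => by positivity) fun j _ => ?_
    have h0 : 0 < max δ (nd (w j * y)) := lt_max_of_lt_left hδ
    have h0' : 0 < max δ (nd (w j * z)) := lt_max_of_lt_left hδ
    have h1 : max δ (nd (w j * z)) ≤ (1 + W) * max δ (nd (w j * y)) := by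
      refine max_le ?_ ?_
      · calc δ ≤ max δ (nd (w j * y)) := le_max_left _ _
          _ ≤ _ := le_mul_of_one_le_left h0.le (by linarith)
      · have h2 := nd_add_le (w j * y) (w j * (z - y))
        have h3 : w j * y + w j * (z - y) = w j * z := by ring
        have h5 : |w j * (z - y)| ≤ W * δ := by
          rw [abs_mul, abs_of_pos (hw j), abs_of_nonneg (by linarith [hz.1])]
          exact mul_le_mul (hW j) (by linarith [hz.2]) (by linarith [hz.1]) (by linarith)
        rw [h3] at h2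
        have h6 : W * δ ≤ W * max δ (nd (w j * y)) :=
          mul_le_mul_of_nonneg_left (le_max_left _ _) (by linarith)
        have h7 := le_max_right δ (nd (w j * y))
        linarith
    have h2 : (max δ (nd (w j * z))) ^ 2 ≤ (1 + W) ^ 2 * (max δ (nd (w j * y))) ^ 2 := by
      rw [← mul_pow]
      exact pow_le_pow_left₀ h0'.le h1 2
    rw [← div_eq_mul_inv, le_div_iff₀ (by positivity), inv_mul_le_iff₀ (by positivity)]
    linarith
  have h1 : ENNReal.ofReal ((((1 + W) ^ 2) ^ r)⁻¹ * pr w δ y * δ) ≤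
      ENNReal.ofReal (C * (2 * y) ^ (β + ε) * δ ^ (-(2 * σ - 1 + β) - ε)) := by
    calc _ = ∫⁻ _z in Set.Icc y (y + δ), ENNReal.ofReal ((((1 + W) ^ 2) ^ r)⁻¹ * pr w δ y) := by
          rw [lintegral_const, Measure.restrict_apply_univ, Real.volume_Icc,
            ← ENNReal.ofReal_mul (mul_nonneg (by positivity) (pr_nonneg _ _ _))]
          congr 1
          ring
      _ ≤ ∫⁻ z in Set.Icc y (y + δ), ENNReal.ofReal (pr w δ z) :=
          setLIntegral_mono' measurableSet_Icc fun z hz => ENNReal.ofReal_le_ofReal (hpr z hz)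
      _ ≤ ∫⁻ z in Set.Icc 1 (2 * y), ENNReal.ofReal (pr w δ z) :=
          lintegral_mono_set (Set.Icc_subset_Icc hy (by linarith))
      _ ≤ _ := hb (2 * y) δ (by linarith) hδ hδ1
  rw [ENNReal.ofReal_le_ofReal_iff (by positivity)] at h1
  have e1 : δ ^ (-(2 * σ - 1 + β) - ε) = δ * δ ^ (-(2 * σ)) * δ ^ (-(β + ε)) := by
    nth_rw 2 [← Real.rpow_one δ]
    rw [← Real.rpow_add hδ, ← Real.rpow_add hδ]
    congr 1
    ring
  have e2 : (y / δ) ^ (β + ε) = y ^ (β + ε) * δ ^ (-(β + ε)) := by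
    rw [Real.div_rpow hy0.le hδ.le, Real.rpow_neg hδ.le]
    field_simp
  rw [e1, Real.mul_rpow (by norm_num) hy0.le] at h1
  rw [e2]
  have hM : 0 < ((1 + W) ^ 2) ^ r := by positivity
  have h2 : (((1 + W) ^ 2) ^ r)⁻¹ * pr w δ y ≤
      C * (2 ^ (β + ε) * y ^ (β + ε)) * (δ ^ (-(2 * σ)) * δ ^ (-(β + ε))) := by
    refine le_of_mul_le_mul_right (h1.trans (le_of_eq ?_)) hδ
    ring
  rw [inv_mul_le_iff₀ hM] at h2
  calc pr w δ y ≤ _ := h2
    _ = _ := by ring

/-- the equivalence -/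
theorem crit_pt_iff (hw : ∀ j, 0 < w j) {σ β : ℝ} (hσ : 1 / 2 ≤ σ) (hβ : 1 ≤ β) :
    Crit' w σ β ↔ PtB w σ β :=
  ⟨pt_of_crit hw hβ, crit_of_pt hw hσ hβ⟩

end Pool.Agent.T6.H60.BD
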